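import Pool.Agent.K3h1.Chr.Compare

set_option autoImplicit false
set_option linter.unusedSectionVars false

namespace Pool.Agent.K3h1.Chr

open Finset

section
variable {V : Type*} [DecidableEq V]

def isC4 (A : V → V → Bool) (a b c d : V) : Bool :=
  A a b && A b c && A c d && A d a && !A a c && !A b d && !(a == c) && !(b == d)

theorem isC4_iff {A : V → V → Bool} {a b c d : V} : isC4 A a b c d = true ↔
    A a b = true ∧ A b c = true ∧ A c d = true ∧ A d a = true ∧ A a c = false ∧ A b d = false ∧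
      a ≠ c ∧ b ≠ d := by
  unfold isC4
  simp only [Bool.and_eq_true, Bool.not_eq_true', beq_eq_false_iff_ne, and_assoc]

theorem Sym.ne {A : V → V → Bool} (hA : Sym A) {a b : V} (h : A a b = true) : a ≠ b := by
  rintro rfl; rw [hA.irr] at h; exact absurd h (by simp)

theorem isC4_card {A : V → V → Bool} (hA : Sym A) {a b c d : V} (h : isC4 A a b c d = true) :
    ({a, b, c, d} : Finset V).card = 4 := by
  obtain ⟨h1, h2, h3, h4, h5, h6, h7, h8⟩ := isC4_iff.1 h
  have n1 := hA.ne h1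
  have n2 := hA.ne h2
  have n3 := hA.ne h3
  have n4 := hA.ne h4
  rw [Finset.card_insert_of_notMem, Finset.card_insert_of_notMem, Finset.card_pair n3]
  · simp [n2, h8]
  · simp [n1, h7, n4.symm]

theorem isC4_pull {W : Type*} [DecidableEq W] {A : V → V → Bool} (x : W ↪ V) {a b c d : W} :
    isC4 (pull A x) a b c d = isC4 A (x a) (x b) (x c) (x d) := by
  rw [Bool.eq_iff_iff, isC4_iff, isC4_iff]
  simp [pull, x.injective.eq_iff]

end

variable {V : Type*} [DecidableEq V] [Fintype V]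

def T4 (A : V → V → Bool) : Finset (V × V × V × V) :=
  univ.filter fun p => isC4 A p.1 p.2.1 p.2.2.1 p.2.2.2 = true

theorem T4_check : ∀ b01 b02 b03 b12 b13 b23 : Bool,
    ((T4 (mk4 b01 b02 b03 b12 b13 b23)).card : ℤ) = 8 * reg (mk4 b01 b02 b03 b12 b13 b23) 2 univ := by
  decide +kernel

theorem T4_fin {B : Fin 4 → Fin 4 → Bool} (hB : Sym B) : ((T4 B).card : ℤ) = 8 * reg B 2 univ := by
  rw [mk4_eq B hB.symm hB.irr]
  exact T4_check _ _ _ _ _ _

theorem T4_fiber {A : V → V → Bool} (hA : Sym A) (x : Fin 4 ↪ V) :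
    ((T4 A).filter fun p => ({p.1, p.2.1, p.2.2.1, p.2.2.2} : Finset V) = univ.map x).card
      = (T4 (pull A x)).card := by
  symm
  refine Finset.card_bij (fun p _ => (x p.1, x p.2.1, x p.2.2.1, x p.2.2.2)) ?_ ?_ ?_
  · rintro ⟨a, b, c, d⟩ hp
    simp only [T4, Finset.mem_filter, Finset.mem_univ, true_and] at hp ⊢
    have hp' := hp
    rw [isC4_pull] at hp
    refine ⟨hp, ?_⟩
    have hc := isC4_card (hA.pull x) hp'
    have : ({a, b, c, d} : Finset (Fin 4)) = univ := by
      apply Finset.eq_univ_of_card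
      rw [hc, Fintype.card_fin]
    rw [← this]
    simp [Finset.map_insert]
  · rintro ⟨a, b, c, d⟩ _ ⟨a', b', c', d'⟩ _ h
    simp only [Prod.mk.injEq, x.injective.eq_iff] at h
    simp [h]
  · rintro ⟨a, b, c, d⟩ hp
    simp only [T4, Finset.mem_filter, Finset.mem_univ, true_and] at hp
    obtain ⟨h1, h2⟩ := hp
    have ha : a ∈ univ.map x := by rw [← h2]; simp
    have hb : b ∈ univ.map x := by rw [← h2]; simp
    have hc : c ∈ univ.map x := by rw [← h2]; simp
    have hd : d ∈ univ.map x := by rw [← h2]; simp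
    simp only [Finset.mem_map, Finset.mem_univ, true_and] at ha hb hc hd
    obtain ⟨a', rfl⟩ := ha
    obtain ⟨b', rfl⟩ := hb
    obtain ⟨c', rfl⟩ := hc
    obtain ⟨d', rfl⟩ := hd
    refine ⟨(a', b', c', d'), ?_, rfl⟩
    simp only [T4, Finset.mem_filter, Finset.mem_univ, true_and]
    rw [isC4_pull]
    exact h1

/-- an embedding of `Fin 4` onto a given 4-set -/
theorem exists_emb {k : ℕ} {Q : Finset V} (hQ : Q.card = k) :
    ∃ x : Fin k ↪ V, univ.map x = Q := by
  refine ⟨(Q.equivFinOfCardEq hQ).symm.toEmbedding.trans (Function.Embedding.subtype _), ?_⟩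
  ext v
  simp only [Finset.mem_map, Finset.mem_univ, true_and, Function.Embedding.trans_apply,
    Equiv.coe_toEmbedding, Function.Embedding.coe_subtype]
  constructor
  · rintro ⟨i, rfl⟩
    exact Subtype.property _
  · intro hv
    exact ⟨Q.equivFinOfCardEq hQ ⟨v, hv⟩, by simp⟩

theorem sum_T4 {A : V → V → Bool} (hA : Sym A) (f : Finset V → ℤ) :
    ∑ p ∈ T4 A, f {p.1, p.2.1, p.2.2.1, p.2.2.2}
      = ∑ Q ∈ powersetCard 4 univ, 8 * reg A 2 Q * f Q := by
  rw [← Finset.sum_fiberwise_of_maps_to (t := powersetCard 4 (univ : Finset V))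
    (g := fun p : V × V × V × V => ({p.1, p.2.1, p.2.2.1, p.2.2.2} : Finset V))]
  · refine Finset.sum_congr rfl fun Q hQ => ?_
    obtain ⟨x, hx⟩ := exists_emb (Finset.mem_powersetCard.1 hQ).2
    have h1 : ∑ p ∈ (T4 A).filter fun p => ({p.1, p.2.1, p.2.2.1, p.2.2.2} : Finset V) = Q,
        f {p.1, p.2.1, p.2.2.1, p.2.2.2}
        = ∑ p ∈ (T4 A).filter fun p => ({p.1, p.2.1, p.2.2.1, p.2.2.2} : Finset V) = Q, f Q :=
      Finset.sum_congr rfl fun p hp => by rw [(Finset.mem_filter.1 hp).2]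
    rw [h1, Finset.sum_const, nsmul_eq_mul, ← hx, T4_fiber hA x, T4_fin (hA.pull x), reg_map]
  · intro p hp
    rw [T4, Finset.mem_filter] at hp
    exact Finset.mem_powersetCard.2 ⟨Finset.subset_univ _, isC4_card hA hp.2⟩

theorem card_T4 {A : V → V → Bool} (hA : Sym A) : ((T4 A).card : ℤ) = 8 * cnt A 4 2 := by
  have h := sum_T4 hA (fun _ => 1)
  simp only [Finset.sum_const, nsmul_eq_mul, mul_one] at h
  rw [h, ← Finset.mul_sum]
  rfl

/-! ordered edges and triangles -/

def T2 (A : V → V → Bool) : Finset (V × V) := univ.filter fun p => A p.1 p.2 = true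

def mk2 (b : Bool) : Fin 2 → Fin 2 → Bool := fun i j => if i = j then false else b

theorem mk2_eq (A : Fin 2 → Fin 2 → Bool) (hs : ∀ i j, A i j = A j i) (hi : ∀ i, A i i = false) :
    A = mk2 (A 0 1) := by
  funext i j
  fin_cases i <;> fin_cases j <;> simp [mk2, hi] <;> exact hs _ _

theorem T2_check : ∀ b01 : Bool,
    ((T2 (mk2 b01)).card : ℤ) = 2 * reg (mk2 b01) 1 univ := by
  decide +kernel

theorem T2_fiber {A : V → V → Bool} (hA : Sym A) (x : Fin 2 ↪ V) :
    ((T2 A).filter fun p => ({p.1, p.2} : Finset V) = univ.map x).card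
      = (T2 (pull A x)).card := by
  symm
  refine Finset.card_bij (fun p _ => (x p.1, x p.2)) ?_ ?_ ?_
  · rintro ⟨a, b⟩ hp
    simp only [T2, Finset.mem_filter, Finset.mem_univ, true_and] at hp ⊢
    refine ⟨hp, ?_⟩
    have hne := (hA.pull x).ne hp
    have : ({a, b} : Finset (Fin 2)) = univ := by
      apply Finset.eq_univ_of_card
      rw [Finset.card_pair hne, Fintype.card_fin]
    rw [← this]
    simp [Finset.map_insert]
  · rintro ⟨a, b⟩ _ ⟨a', b'⟩ _ h
    simp only [Prod.mk.injEq, x.injective.eq_iff] at h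
    simp [h]
  · rintro ⟨a, b⟩ hp
    simp only [T2, Finset.mem_filter, Finset.mem_univ, true_and] at hp
    obtain ⟨h1, h2⟩ := hp
    have ha : a ∈ univ.map x := by rw [← h2]; simp
    have hb : b ∈ univ.map x := by rw [← h2]; simp
    simp only [Finset.mem_map, Finset.mem_univ, true_and] at ha hb
    obtain ⟨a', rfl⟩ := ha
    obtain ⟨b', rfl⟩ := hb
    refine ⟨(a', b'), ?_, rfl⟩
    simp only [T2, Finset.mem_filter, Finset.mem_univ, true_and]
    exact h1

theorem card_T2 {A : V → V → Bool} (hA : Sym A) : ((T2 A).card : ℤ) = 2 * cnt A 2 1 := by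
  have h0 : ((T2 A).card : ℤ) = ∑ p ∈ T2 A, 1 := by simp
  rw [h0, ← Finset.sum_fiberwise_of_maps_to (t := powersetCard 2 (univ : Finset V))
    (g := fun p : V × V => ({p.1, p.2} : Finset V))]
  · unfold cnt
    rw [Finset.mul_sum]
    refine Finset.sum_congr rfl fun Q hQ => ?_
    obtain ⟨x, hx⟩ := exists_emb (Finset.mem_powersetCard.1 hQ).2
    rw [Finset.sum_const, nsmul_eq_mul, mul_one, ← hx, T2_fiber hA x, reg_map,
      mk2_eq (pull A x) (hA.pull x).symm (hA.pull x).irr]
    exact T2_check _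
  · rintro ⟨a, b⟩ hp
    rw [T2, Finset.mem_filter] at hp
    exact Finset.mem_powersetCard.2 ⟨Finset.subset_univ _, Finset.card_pair (hA.ne hp.2)⟩

def T3 (A : V → V → Bool) : Finset (V × V × V) :=
  univ.filter fun p => A p.1 p.2.1 = true ∧ A p.2.1 p.2.2 = true ∧ A p.1 p.2.2 = true

theorem T3_check : ∀ b01 b02 b12 : Bool,
    ((T3 (mk3 b01 b02 b12)).card : ℤ) = 6 * reg (mk3 b01 b02 b12) 2 univ := by
  decide +kernel

theorem T3_fiber {A : V → V → Bool} (hA : Sym A) (x : Fin 3 ↪ V) :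
    ((T3 A).filter fun p => ({p.1, p.2.1, p.2.2} : Finset V) = univ.map x).card
      = (T3 (pull A x)).card := by
  symm
  refine Finset.card_bij (fun p _ => (x p.1, x p.2.1, x p.2.2)) ?_ ?_ ?_
  · rintro ⟨a, b, c⟩ hp
    simp only [T3, Finset.mem_filter, Finset.mem_univ, true_and] at hp ⊢
    refine ⟨hp, ?_⟩
    have n1 := (hA.pull x).ne hp.1
    have n2 := (hA.pull x).ne hp.2.1
    have n3 := (hA.pull x).ne hp.2.2
    have : ({a, b, c} : Finset (Fin 3)) = univ := by
      apply Finset.eq_univ_of_card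
      rw [Finset.card_insert_of_notMem (by simp [n1, n3]), Finset.card_pair n2, Fintype.card_fin]
    rw [← this]
    simp [Finset.map_insert]
  · rintro ⟨a, b, c⟩ _ ⟨a', b', c'⟩ _ h
    simp only [Prod.mk.injEq, x.injective.eq_iff] at h
    simp [h]
  · rintro ⟨a, b, c⟩ hp
    simp only [T3, Finset.mem_filter, Finset.mem_univ, true_and] at hp
    obtain ⟨h1, h2⟩ := hp
    have ha : a ∈ univ.map x := by rw [← h2]; simp
    have hb : b ∈ univ.map x := by rw [← h2]; simp
    have hc : c ∈ univ.map x := by rw [← h2]; simp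
    simp only [Finset.mem_map, Finset.mem_univ, true_and] at ha hb hc
    obtain ⟨a', rfl⟩ := ha
    obtain ⟨b', rfl⟩ := hb
    obtain ⟨c', rfl⟩ := hc
    refine ⟨(a', b', c'), ?_, rfl⟩
    simp only [T3, Finset.mem_filter, Finset.mem_univ, true_and]
    exact h1

theorem card_T3 {A : V → V → Bool} (hA : Sym A) : ((T3 A).card : ℤ) = 6 * cnt A 3 2 := by
  have h0 : ((T3 A).card : ℤ) = ∑ p ∈ T3 A, 1 := by simp
  rw [h0, ← Finset.sum_fiberwise_of_maps_to (t := powersetCard 3 (univ : Finset V))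
    (g := fun p : V × V × V => ({p.1, p.2.1, p.2.2} : Finset V))]
  · unfold cnt
    rw [Finset.mul_sum]
    refine Finset.sum_congr rfl fun Q hQ => ?_
    obtain ⟨x, hx⟩ := exists_emb (Finset.mem_powersetCard.1 hQ).2
    rw [Finset.sum_const, nsmul_eq_mul, mul_one, ← hx, T3_fiber hA x, reg_map,
      mk3_eq (pull A x) (hA.pull x).symm (hA.pull x).irr]
    exact T3_check _ _ _
  · rintro ⟨a, b, c⟩ hp
    rw [T3, Finset.mem_filter] at hp
    refine Finset.mem_powersetCard.2 ⟨Finset.subset_univ _, ?_⟩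
    rw [Finset.card_insert_of_notMem (by simp [hA.ne hp.2.1, hA.ne hp.2.2.2]),
      Finset.card_pair (hA.ne hp.2.2.1)]

/-- the statistic `zz` as a sum over labelled induced four-cycles -/
theorem zz_T4 {A : V → V → Bool} (hA : Sym A) :
    8 * (zz A + 3 * cnt A 5 2) = ∑ p ∈ T4 A,
      ∑ w ∈ univ \ {p.1, p.2.1, p.2.2.1, p.2.2.2}, om A {p.1, p.2.1, p.2.2.1, p.2.2.2} w := by
  rw [sum_T4 hA (fun Q => ∑ w ∈ univ \ Q, om A Q w)]
  have h1 : zz A + 3 * cnt A 5 2 = ∑ S ∈ powersetCard (4 + 1) univ, ∑ w ∈ S,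
      reg A 2 (S.erase w) * om A (S.erase w) w := by
    unfold zz cnt z3
    rw [Finset.mul_sum, ← Finset.sum_add_distrib]
    refine Finset.sum_congr rfl fun S _ => ?_
    ring
  rw [h1, ← sum_pc_swap univ 4 (fun P w => reg A 2 P * om A P w), Finset.mul_sum]
  refine Finset.sum_congr rfl fun Q _ => ?_
  rw [← Finset.mul_sum]; ring

end Pool.Agent.K3h1.Chr
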