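import Pool.Agent.K3h1.Chr.Poly

set_option autoImplicit false
set_option linter.unusedSectionVars false

namespace Pool.Agent.K3h1.Chr

open Finset

variable {V : Type*} [DecidableEq V] [Fintype V] {W : Type*} [DecidableEq W] [Fintype W]

theorem poly_eq_of_eval {p q : Polynomial ℚ}
    (h : ∀ n : ℕ, 1 ≤ n → p.eval (1 / (n : ℚ)) = q.eval (1 / (n : ℚ))) : p = q := by
  apply Polynomial.eq_of_infinite_eval_eq
  apply Set.infinite_of_injective_forall_mem (f := fun n : ℕ => 1 / ((n + 1 : ℕ) : ℚ))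
  · intro a b hab
    simp only [one_div] at hab
    have := inv_injective hab
    have h2 : a + 1 = b + 1 := by exact_mod_cast this
    omega
  · intro n
    exact h (n + 1) (by omega)

theorem compare_aux {A : V → V → Bool} {B : W → W → Bool} {Φ Ψ : Polynomial ℚ}
    (hΦ : Good A Φ) (hΨ : Good B Ψ) (h : ∀ q, NN A q = NN B q)
    (hle : Fintype.card V ≤ Fintype.card W) : Fintype.card V = Fintype.card W ∧ Φ = Ψ := by
  obtain ⟨d, hd⟩ := Nat.exists_eq_add_of_le hle
  have key : Polynomial.X ^ d * Φ = Ψ := by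
    apply poly_eq_of_eval
    intro n hn
    have hn' : (n : ℚ) ≠ 0 := by positivity
    have a1 := hΦ.ev n hn
    have a2 := hΨ.ev n hn
    rw [h n, a2, hd, pow_add, mul_assoc] at a1
    have hp : (n : ℚ) ^ Fintype.card V ≠ 0 := pow_ne_zero _ hn'
    have a3 := mul_left_cancel₀ hp a1
    rw [Polynomial.eval_mul, Polynomial.eval_pow, Polynomial.eval_X, ← a3, ← mul_assoc, ← mul_pow]
    rw [one_div, inv_mul_cancel₀ hn', one_pow, one_mul]
  by_cases h0 : d = 0
  · subst h0
    rw [pow_zero, one_mul] at key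
    exact ⟨by omega, key⟩
  · exfalso
    have := hΨ.c0
    rw [← key, Polynomial.mul_coeff_zero, Polynomial.coeff_X_pow] at this
    simp [Ne.symm h0] at this

theorem compare_good {A : V → V → Bool} {B : W → W → Bool} {Φ Ψ : Polynomial ℚ}
    (hΦ : Good A Φ) (hΨ : Good B Ψ) (h : ∀ q, NN A q = NN B q) :
    Fintype.card V = Fintype.card W ∧ Φ = Ψ := by
  rcases le_total (Fintype.card V) (Fintype.card W) with hle | hle
  · exact compare_aux hΦ hΨ h hle
  · obtain ⟨a, b⟩ := compare_aux hΨ hΦ (fun q => (h q).symm) hle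
    exact ⟨a.symm, b.symm⟩

theorem compare {A : V → V → Bool} {B : W → W → Bool} (hA : Sym A) (hB : Sym B)
    (h : ∀ q, NN A q = NN B q) (hkA : cnt A 4 3 = 0) (hkB : cnt B 4 3 = 0) :
    Fintype.card V = Fintype.card W ∧ cnt A 2 1 = cnt B 2 1 ∧ cnt A 3 2 = cnt B 3 2 ∧
      cnt A 4 2 = cnt B 4 2 ∧ zz A = zz B := by
  obtain ⟨Φ, hΦ⟩ := exists_good hA
  obtain ⟨Ψ, hΨ⟩ := exists_good hB
  obtain ⟨hc, hP⟩ := compare_good hΦ hΨ h
  subst hP
  have e1 : (cnt A 2 1 : ℚ) = cnt B 2 1 := by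
    have := hΦ.c1.symm.trans hΨ.c1; linarith
  have e2 : (cnt A 3 2 : ℚ) = cnt B 3 2 := by
    have := hΦ.c2.symm.trans hΨ.c2; rw [e1] at this; linarith
  have e3 : (cnt A 4 2 : ℚ) = cnt B 4 2 := by
    have := hΦ.c3.symm.trans hΨ.c3
    rw [e1, e2, hkA, hkB] at this; linarith
  have e4 : (zz A : ℚ) = zz B := by
    have := (hΦ.c4 hkA).symm.trans (hΨ.c4 hkB)
    rw [e1, e2, e3] at this; linarith
  exact ⟨hc, by exact_mod_cast e1, by exact_mod_cast e2, by exact_mod_cast e3,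
    by exact_mod_cast e4⟩

end Pool.Agent.K3h1.Chr
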