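import Pool.Agent.K3h1.Chr.Unique

set_option autoImplicit false
set_option linter.unusedSectionVars false

namespace Pool.Agent.K3h1.Chr

open Finset

variable {V : Type*} [DecidableEq V] [Fintype V]

theorem card_adj_pairs {W : Type*} [Fintype W] (H : SimpleGraph W) :
    Nat.card {p : W × W // H.Adj p.1 p.2} = 2 * Nat.card H.edgeSet := by
  classical
  rw [Nat.card_eq_fintype_card (α := H.edgeSet), ← SimpleGraph.edgeFinset_card,
    ← SimpleGraph.dart_card_eq_twice_card_edges, ← Nat.card_eq_fintype_card]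
  exact Nat.card_congr ⟨fun p => ⟨p.1, p.2⟩, fun d => ⟨d.toProd, d.adj⟩, fun _ => rfl, fun _ => rfl⟩

def Ek (A : V → V → Bool) (c : V → Fin 3) (k : Fin 3) : Finset (V × V) :=
  univ.filter fun p => A p.1 p.2 = true ∧ c p.1 ≠ k ∧ c p.2 ≠ k

def nk (c : V → Fin 3) (k : Fin 3) : ℕ := ((univ : Finset V).filter fun v => c v ≠ k).card

def pxy (A : V → V → Bool) (c : V → Fin 3) (x y : V) : Finset (V × V) :=
  univ.filter fun p => c p.1 = c x ∧ c p.2 = c y ∧ p.1 ≠ x ∧ p.2 ≠ y ∧ A p.1 y = true ∧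
    A x p.2 = true ∧ A p.1 p.2 = true

theorem card_Gk_edges {A : V → V → Bool} (hA : Sym A) (c : V → Fin 3) (k : Fin 3) :
    2 * Nat.card (Gk A hA c k).edgeSet = (Ek A c k).card := by
  rw [← card_adj_pairs, ← Fintype.card_coe, ← Nat.card_eq_fintype_card]
  refine Nat.card_congr ⟨fun p => ⟨(p.1.1.1, p.1.2.1), ?_⟩, fun p =>
    ⟨(⟨p.1.1, ?_⟩, ⟨p.1.2, ?_⟩), ?_⟩, fun _ => rfl, fun _ => rfl⟩
  · simp only [Ek, Finset.mem_filter, Finset.mem_univ, true_and]
    exact ⟨p.2, p.1.1.2, p.1.2.2⟩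
  · have := p.2; simp only [Ek, Finset.mem_filter, Finset.mem_univ, true_and] at this
    exact this.2.1
  · have := p.2; simp only [Ek, Finset.mem_filter, Finset.mem_univ, true_and] at this
    exact this.2.2
  · have := p.2; simp only [Ek, Finset.mem_filter, Finset.mem_univ, true_and] at this
    exact this.1

theorem card_Vk (c : V → Fin 3) (k : Fin 3) : Nat.card {v : V // c v ≠ k} = nk c k := by
  classical
  rw [Nat.card_eq_fintype_card, Fintype.card_subtype]; rfl

theorem p_le {A : V → V → Bool} (hA : Sym A) {c : V → Fin 3} (hc : c ∈ colS A 3) {k : Fin 3}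
    (hconn : (Gk A hA c k).Connected) {x y : V} (hxy : A x y = true) (hx : c x ≠ k)
    (hy : c y ≠ k) : 2 * (pxy A c x y).card + 2 * nk c k ≤ (Ek A c k).card + 2 := by
  classical
  have hcxy : c x ≠ c y := (mem_colS.1 hc) x y hxy
  let H : SimpleGraph {v : V // c v ≠ k} :=
    { Adj := fun a b => A a.1 b.1 = true ∧ (a.1, b.1) ∉ pxy A c x y ∧ (a.1, b.1) ∉ pxy A c y x
      symm := ⟨fun a b h => by
        refine ⟨by rw [hA.symm]; exact h.1, ?_, ?_⟩
        · intro h'
          apply h.2.2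
          simp only [pxy, Finset.mem_filter, Finset.mem_univ, true_and] at h' ⊢
          obtain ⟨h1, h2, h3, h4, h5, h6, h7⟩ := h'
          exact ⟨h2, h1, h4, h3, by rw [hA.symm]; exact h6, by rw [hA.symm]; exact h5,
            by rw [hA.symm]; exact h7⟩
        · intro h'
          apply h.2.1
          simp only [pxy, Finset.mem_filter, Finset.mem_univ, true_and] at h' ⊢
          obtain ⟨h1, h2, h3, h4, h5, h6, h7⟩ := h'
          exact ⟨h2, h1, h4, h3, by rw [hA.symm]; exact h6, by rw [hA.symm]; exact h5,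
            by rw [hA.symm]; exact h7⟩⟩
      loopless := ⟨fun a h => by rw [hA.irr] at h; exact absurd h.1 (by simp)⟩ }
  -- basic edges of H
  have hxy' : H.Adj ⟨x, hx⟩ ⟨y, hy⟩ := by
    refine ⟨hxy, ?_, ?_⟩
    · simp [pxy]
    · simp only [pxy, Finset.mem_filter, Finset.mem_univ, true_and, not_and]
      intro h; exact absurd h hcxy
  have step : ∀ a b : {v : V // c v ≠ k}, A a.1 b.1 = true → (a.1, b.1) ∈ pxy A c x y →
      H.Reachable a b := by
    intro a b hab hm
    simp only [pxy, Finset.mem_filter, Finset.mem_univ, true_and] at hm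
    obtain ⟨h1, h2, h3, h4, h5, h6, h7⟩ := hm
    have e1 : H.Adj a ⟨y, hy⟩ := by
      refine ⟨h5, ?_, ?_⟩
      · simp [pxy]
      · simp only [pxy, Finset.mem_filter, Finset.mem_univ, true_and, not_and]
        intro h; exact absurd (h1.symm.trans h) hcxy
    have e2 : H.Adj ⟨x, hx⟩ b := by
      refine ⟨h6, ?_, ?_⟩
      · simp [pxy]
      · simp only [pxy, Finset.mem_filter, Finset.mem_univ, true_and, not_and]
        intro h; exact absurd h hcxy
    exact (e1.reachable.trans hxy'.symm.reachable).trans e2.reachable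
  have step2 : ∀ a b : {v : V // c v ≠ k}, (Gk A hA c k).Adj a b → H.Reachable a b := by
    intro a b hab
    have hab : A a.1 b.1 = true := hab
    by_cases h1 : (a.1, b.1) ∈ pxy A c x y
    · exact step a b hab h1
    · by_cases h2 : (a.1, b.1) ∈ pxy A c y x
      · have h3 : (b.1, a.1) ∈ pxy A c x y := by
          simp only [pxy, Finset.mem_filter, Finset.mem_univ, true_and] at h2 ⊢
          obtain ⟨h1, h2, h3, h4, h5, h6, h7⟩ := h2
          exact ⟨h2, h1, h4, h3, by rw [hA.symm]; exact h6, by rw [hA.symm]; exact h5,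
            by rw [hA.symm]; exact h7⟩
        exact (step b a (by rw [hA.symm]; exact hab) h3).symm
      · exact SimpleGraph.Adj.reachable ⟨hab, h1, h2⟩
  have hHconn : H.Connected := by
    have := hconn.nonempty
    refine (SimpleGraph.connected_iff _).2 ⟨?_, inferInstance⟩
    intro a b
    have := hconn.preconnected a b
    rw [SimpleGraph.reachable_iff_reflTransGen] at this
    induction this with
    | refl => exact SimpleGraph.Reachable.refl _
    | tail _ hstep ih => exact ih.trans (step2 _ _ hstep)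
  have hcount := hHconn.card_vert_le_card_edgeSet_add_one
  rw [card_Vk] at hcount
  have h2 := card_adj_pairs H
  have h3 : Nat.card {p : {v : V // c v ≠ k} × {v : V // c v ≠ k} // H.Adj p.1 p.2}
      = (Ek A c k \ (pxy A c x y ∪ pxy A c y x)).card := by
    rw [← Fintype.card_coe, ← Nat.card_eq_fintype_card]
    refine Nat.card_congr ⟨fun p => ⟨(p.1.1.1, p.1.2.1), ?_⟩, fun p =>
      ⟨(⟨p.1.1, ?_⟩, ⟨p.1.2, ?_⟩), ?_⟩, fun _ => rfl, fun _ => rfl⟩
    · have hp := p.2
      rw [Finset.mem_sdiff, Finset.mem_union, not_or]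
      refine ⟨?_, hp.2.1, hp.2.2⟩
      simp only [Ek, Finset.mem_filter, Finset.mem_univ, true_and]
      exact ⟨hp.1, p.1.1.2, p.1.2.2⟩
    · have := p.2
      rw [Finset.mem_sdiff] at this
      have := this.1
      simp only [Ek, Finset.mem_filter, Finset.mem_univ, true_and] at this
      exact this.2.1
    · have := p.2
      rw [Finset.mem_sdiff] at this
      have := this.1
      simp only [Ek, Finset.mem_filter, Finset.mem_univ, true_and] at this
      exact this.2.2
    · have := p.2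
      rw [Finset.mem_sdiff, Finset.mem_union, not_or] at this
      have h1 := this.1
      simp only [Ek, Finset.mem_filter, Finset.mem_univ, true_and] at h1
      exact ⟨h1.1, this.2⟩
  have hsub : pxy A c x y ∪ pxy A c y x ⊆ Ek A c k := by
    rintro ⟨a, b⟩ hp
    rw [Finset.mem_union] at hp
    simp only [Ek, Finset.mem_filter, Finset.mem_univ, true_and]
    rcases hp with hp | hp
    · simp only [pxy, Finset.mem_filter, Finset.mem_univ, true_and] at hp
      obtain ⟨h1, h2, h3, h4, h5, h6, h7⟩ := hp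
      exact ⟨h7, by rw [h1]; exact hx, by rw [h2]; exact hy⟩
    · simp only [pxy, Finset.mem_filter, Finset.mem_univ, true_and] at hp
      obtain ⟨h1, h2, h3, h4, h5, h6, h7⟩ := hp
      exact ⟨h7, by rw [h1]; exact hy, by rw [h2]; exact hx⟩
  have hdisj : Disjoint (pxy A c x y) (pxy A c y x) := by
    rw [Finset.disjoint_left]
    rintro ⟨a, b⟩ h1 h2
    simp only [pxy, Finset.mem_filter, Finset.mem_univ, true_and] at h1 h2
    exact hcxy (h1.1.symm.trans h2.1)
  have hcard : (pxy A c y x).card = (pxy A c x y).card := by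
    refine Finset.card_bij' (fun p _ => (p.2, p.1)) (fun p _ => (p.2, p.1)) ?_ ?_ ?_ ?_
    · rintro ⟨a, b⟩ h2
      simp only [pxy, Finset.mem_filter, Finset.mem_univ, true_and] at h2 ⊢
      obtain ⟨h1, h2, h3, h4, h5, h6, h7⟩ := h2
      exact ⟨h2, h1, h4, h3, by rw [hA.symm]; exact h6, by rw [hA.symm]; exact h5,
        by rw [hA.symm]; exact h7⟩
    · rintro ⟨a, b⟩ h2
      simp only [pxy, Finset.mem_filter, Finset.mem_univ, true_and] at h2 ⊢
      obtain ⟨h1, h2, h3, h4, h5, h6, h7⟩ := h2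
      exact ⟨h2, h1, h4, h3, by rw [hA.symm]; exact h6, by rw [hA.symm]; exact h5,
        by rw [hA.symm]; exact h7⟩
    · rintro ⟨a, b⟩ _; rfl
    · rintro ⟨a, b⟩ _; rfl
  have hc1 := Finset.card_le_card hsub
  rw [Finset.card_sdiff_of_subset hsub, Finset.card_union_of_disjoint hdisj, hcard] at h3
  rw [Finset.card_union_of_disjoint hdisj, hcard] at hc1
  rw [h3] at h2
  omega

/-- the sum over ordered triangles -/
def LL (A : V → V → Bool) (c : V → Fin 3) : ℤ := ∑ p ∈ T3 A, ((pxy A c p.1 p.2.1).card : ℤ)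

theorem T3_rot {A : V → V → Bool} (hA : Sym A) (g : V × V × V → ℤ) :
    ∑ p ∈ T3 A, g (p.2.1, p.2.2, p.1) = ∑ p ∈ T3 A, g p := by
  refine Finset.sum_bij' (fun p _ => (p.2.1, p.2.2, p.1)) (fun p _ => (p.2.2, p.1, p.2.1))
    ?_ ?_ ?_ ?_ ?_
  · rintro ⟨a, b, c⟩ h
    simp only [T3, Finset.mem_filter, Finset.mem_univ, true_and] at h ⊢
    exact ⟨h.2.1, by rw [hA.symm]; exact h.2.2, by rw [hA.symm]; exact h.1⟩
  · rintro ⟨a, b, c⟩ h
    simp only [T3, Finset.mem_filter, Finset.mem_univ, true_and] at h ⊢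
    exact ⟨by rw [hA.symm]; exact h.2.2, h.1, by rw [hA.symm]; exact h.2.1⟩
  · rintro ⟨a, b, c⟩ _; rfl
  · rintro ⟨a, b, c⟩ _; rfl
  · rintro ⟨a, b, c⟩ _; rfl

theorem fin3_sum (g : Fin 3 → ℤ) {i j k : Fin 3} (h1 : i ≠ j) (h2 : i ≠ k) (h3 : j ≠ k) :
    g i + g j + g k = ∑ l, g l := by
  rw [Fin.sum_univ_three]
  fin_cases i <;> fin_cases j <;> fin_cases k <;> simp_all <;> ring

theorem sum_T3_color {A : V → V → Bool} (hA : Sym A) {c : V → Fin 3} (hc : c ∈ colS A 3)
    (g : Fin 3 → ℤ) : 3 * ∑ p ∈ T3 A, g (c p.2.2) = (T3 A).card * ∑ l, g l := by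
  have r1 := T3_rot hA (fun p => g (c p.2.2))
  have r2 := T3_rot hA (fun p => g (c p.2.1))
  simp only at r1 r2
  have h : ∑ p ∈ T3 A, (g (c p.1) + g (c p.2.1) + g (c p.2.2)) = (T3 A).card * ∑ l, g l := by
    rw [← nsmul_eq_mul, ← Finset.sum_const]
    refine Finset.sum_congr rfl ?_
    rintro ⟨x, y, w⟩ hp
    simp only [T3, Finset.mem_filter, Finset.mem_univ, true_and] at hp
    have hc' := mem_colS.1 hc
    exact fin3_sum g (hc' _ _ hp.1) (hc' _ _ hp.2.2) (hc' _ _ hp.2.1)
  rw [← h, Finset.sum_add_distrib, Finset.sum_add_distrib]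
  rw [r1] at *
  linarith

theorem sum_nk (c : V → Fin 3) : ∑ k, (nk c k : ℤ) = 2 * Fintype.card V := by
  have h : ∀ k, (nk c k : ℤ) = ∑ v : V, if c v ≠ k then 1 else 0 := by
    intro k
    unfold nk
    rw [Finset.card_filter]
    push_cast
    rfl
  simp only [h]
  rw [Finset.sum_comm]
  have : ∀ v : V, ∑ k : Fin 3, (if c v ≠ k then (1 : ℤ) else 0) = 2 := by
    intro v
    generalize c v = x
    revert x
    decide
  rw [Finset.sum_congr rfl fun v _ => this v, Finset.sum_const, Finset.card_univ]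
  simp; ring

theorem sum_Ek {A : V → V → Bool} {c : V → Fin 3} (hc : c ∈ colS A 3) :
    ∑ k, ((Ek A c k).card : ℤ) = (T2 A).card := by
  have h : ∀ k, ((Ek A c k).card : ℤ) = ∑ p ∈ T2 A, if c p.1 ≠ k ∧ c p.2 ≠ k then 1 else 0 := by
    intro k
    unfold Ek T2
    rw [Finset.sum_filter, Finset.card_filter]
    push_cast
    refine Finset.sum_congr rfl fun p _ => ?_
    by_cases h : A p.1 p.2 = true <;> simp [h]
  simp only [h]
  rw [Finset.sum_comm]
  have : ∀ p ∈ T2 A, ∑ k : Fin 3, (if c p.1 ≠ k ∧ c p.2 ≠ k then (1 : ℤ) else 0) = 1 := by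
    intro p hp
    have hne : c p.1 ≠ c p.2 := by
      rw [T2, Finset.mem_filter] at hp
      exact mem_colS.1 hc _ _ hp.2
    revert hne
    generalize c p.1 = x
    generalize c p.2 = y
    revert x y
    decide
  rw [Finset.sum_congr rfl this]; simp

theorem key3_pt {A : V → V → Bool} (hA : Sym A) {c : V → Fin 3} (hc : c ∈ colS A 3)
    (hconn : ∀ k, (Gk A hA c k).Connected) {p : V × V × V} (hp : p ∈ T3 A) :
    2 * ((pxy A c p.1 p.2.1).card : ℤ) ≤ (Ek A c (c p.2.2)).card - 2 * nk c (c p.2.2) + 2 := by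
  simp only [T3, Finset.mem_filter, Finset.mem_univ, true_and] at hp
  have hc' := mem_colS.1 hc
  have := p_le hA hc (hconn (c p.2.2)) hp.1 (hc' _ _ hp.2.2) (hc' _ _ hp.2.1)
  omega

theorem key3_sum {A : V → V → Bool} (hA : Sym A) {c : V → Fin 3} (hc : c ∈ colS A 3) :
    3 * ∑ p ∈ T3 A, (((Ek A c (c p.2.2)).card : ℤ) - 2 * nk c (c p.2.2) + 2)
      = (T3 A).card * ((T2 A).card - 4 * Fintype.card V + 6) := by
  rw [sum_T3_color hA hc (fun k => ((Ek A c k).card : ℤ) - 2 * nk c k + 2)]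
  congr 1
  rw [Finset.sum_add_distrib, Finset.sum_sub_distrib, sum_Ek hc, ← Finset.mul_sum, sum_nk]
  simp; ring

theorem key3 {A : V → V → Bool} (hA : Sym A) {c : V → Fin 3} (hc : c ∈ colS A 3)
    (hconn : ∀ k, (Gk A hA c k).Connected) :
    6 * LL A c ≤ (T3 A).card * ((T2 A).card - 4 * Fintype.card V + 6) := by
  rw [← key3_sum hA hc]
  unfold LL
  have : 2 * ∑ p ∈ T3 A, ((pxy A c p.1 p.2.1).card : ℤ)
      ≤ ∑ p ∈ T3 A, (((Ek A c (c p.2.2)).card : ℤ) - 2 * nk c (c p.2.2) + 2) := by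
    rw [Finset.mul_sum]
    exact Finset.sum_le_sum fun p hp => key3_pt hA hc hconn hp
  linarith

end Pool.Agent.K3h1.Chr
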