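import Pool.Agent.K3h1.Chr.Struct

set_option autoImplicit false
set_option linter.unusedSectionVars false

namespace Pool.Agent.K3h1.Chr

open Finset

section General
variable {V : Type*} [DecidableEq V] [Fintype V]

theorem adj_of_dg {A : V → V → Bool} {S : Finset V} {v w : V} (hA : Sym A) (hv : v ∈ S)
    (hw : w ∈ S) (hvw : v ≠ w) (h : dg A S v + 1 = S.card) : A v w = true := by
  by_contra hcon
  have hcon : A v w = false := by simpa using hcon
  unfold dg at h
  have h1 : ∑ x ∈ S, (A v x).toNat = ∑ x ∈ (S.erase v).erase w, (A v x).toNat := by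
    rw [← Finset.add_sum_erase S _ hv, ← Finset.add_sum_erase (S.erase v) _
      (Finset.mem_erase.2 ⟨hvw.symm, hw⟩), hA.irr, hcon]
    simp
  have h2 : ∑ x ∈ (S.erase v).erase w, (A v x).toNat ≤ ∑ x ∈ (S.erase v).erase w, 1 :=
    Finset.sum_le_sum fun x _ => Bool.toNat_le _
  rw [Finset.sum_const, Finset.card_erase_of_mem (Finset.mem_erase.2 ⟨hvw.symm, hw⟩),
    Finset.card_erase_of_mem hv] at h2
  have h3 : 2 ≤ S.card := by
    have : ({v, w} : Finset V) ⊆ S := by
      intro x hx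
      rw [Finset.mem_insert, Finset.mem_singleton] at hx
      rcases hx with rfl | rfl <;> assumption
    have := Finset.card_le_card this
    rwa [Finset.card_pair hvw] at this
  simp only [smul_eq_mul, mul_one] at h2
  omega

theorem k4free_of_col {A : V → V → Bool} (hA : Sym A) {c : V → Fin 3} (hc : c ∈ colS A 3) :
    cnt A 4 3 = 0 := by
  unfold cnt
  refine Finset.sum_eq_zero fun S hS => ?_
  have h4 := (Finset.mem_powersetCard.1 hS).2
  by_contra hne
  have h1 : reg A 3 S = 1 := by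
    unfold reg at hne ⊢
    by_contra hh
    apply hne
    rw [if_neg]
    intro h; exact hh (if_pos h)
  rw [reg_eq_one_iff] at h1
  have : S.card ≤ (univ : Finset (Fin 3)).card := by
    refine Finset.card_le_card_of_injOn c (fun _ _ => Finset.mem_univ _) ?_
    intro v hv w hw hvw
    by_contra hne'
    exact mem_colS.1 hc v w (adj_of_dg hA hv hw hne' (by rw [h1 v hv, h4])) hvw
  rw [h4, Finset.card_univ, Fintype.card_fin] at this
  omega

end General

variable (s : Fin 3 → ℕ)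

abbrev VJ : Type := Σ i : Fin 3, Fin (s i)

def AJ : VJ s → VJ s → Bool := fun a b => decide (a.1 ≠ b.1)

theorem AJ_sym : Sym (AJ s) := ⟨fun a b => by unfold AJ; simp [ne_comm], fun a => by simp [AJ]⟩

theorem AJ_true {a b : VJ s} : AJ s a b = true ↔ a.1 ≠ b.1 := by simp [AJ]
theorem AJ_false {a b : VJ s} : AJ s a b = false ↔ a.1 = b.1 := by simp [AJ]

theorem sum_fst (F : Fin 3 → ℤ) : ∑ a : VJ s, F a.1 = ∑ i, (s i : ℤ) * F i := by
  rw [Fintype.sum_sigma]
  simp

theorem card_VJ : (Fintype.card (VJ s) : ℤ) = ∑ i, (s i : ℤ) := by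
  rw [Fintype.card_sigma]; simp

theorem card_T2J : ((T2 (AJ s)).card : ℤ) = ∑ i, (s i : ℤ) * ∑ j, (s j : ℤ) * (if i ≠ j then 1 else 0) := by
  have h : ((T2 (AJ s)).card : ℤ) = ∑ a : VJ s, ∑ b : VJ s, if a.1 ≠ b.1 then 1 else 0 := by
    unfold T2
    rw [Finset.card_filter]
    push_cast
    rw [Fintype.sum_prod_type]
    simp only [AJ_true]
  rw [h]
  have h2 : ∀ a : VJ s, ∑ b : VJ s, (if a.1 ≠ b.1 then (1 : ℤ) else 0)
      = ∑ j, (s j : ℤ) * (if a.1 ≠ j then 1 else 0) := fun a =>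
    sum_fst s (fun j => if a.1 ≠ j then 1 else 0)
  simp only [h2]
  exact sum_fst s (fun i => ∑ j, (s j : ℤ) * (if i ≠ j then 1 else 0))

theorem card_T3J : ((T3 (AJ s)).card : ℤ) = ∑ i, (s i : ℤ) * ∑ j, (s j : ℤ) *
    ∑ l, (s l : ℤ) * (if i ≠ j ∧ j ≠ l ∧ i ≠ l then 1 else 0) := by
  have h : ((T3 (AJ s)).card : ℤ) = ∑ a : VJ s, ∑ b : VJ s, ∑ d : VJ s,
      if a.1 ≠ b.1 ∧ b.1 ≠ d.1 ∧ a.1 ≠ d.1 then 1 else 0 := by
    unfold T3
    rw [Finset.card_filter]
    push_cast
    rw [Fintype.sum_prod_type]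
    refine Finset.sum_congr rfl fun a _ => ?_
    rw [Fintype.sum_prod_type]
    simp only [AJ_true]
  rw [h]
  have h3 : ∀ a b : VJ s, ∑ d : VJ s, (if a.1 ≠ b.1 ∧ b.1 ≠ d.1 ∧ a.1 ≠ d.1 then (1 : ℤ) else 0)
      = ∑ l, (s l : ℤ) * (if a.1 ≠ b.1 ∧ b.1 ≠ l ∧ a.1 ≠ l then 1 else 0) := fun a b =>
    sum_fst s (fun l => if a.1 ≠ b.1 ∧ b.1 ≠ l ∧ a.1 ≠ l then 1 else 0)
  simp only [h3]
  have h2 : ∀ a : VJ s, ∑ b : VJ s, ∑ l, (s l : ℤ) * (if a.1 ≠ b.1 ∧ b.1 ≠ l ∧ a.1 ≠ l then 1 else 0)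
      = ∑ j, (s j : ℤ) * ∑ l, (s l : ℤ) * (if a.1 ≠ j ∧ j ≠ l ∧ a.1 ≠ l then 1 else 0) := fun a =>
    sum_fst s (fun j => ∑ l, (s l : ℤ) * (if a.1 ≠ j ∧ j ≠ l ∧ a.1 ≠ l then 1 else 0))
  simp only [h2]
  exact sum_fst s (fun i => ∑ j, (s j : ℤ) * ∑ l, (s l : ℤ) *
    (if i ≠ j ∧ j ≠ l ∧ i ≠ l then 1 else 0))

theorem card_same (b : VJ s) : ∑ d : VJ s, (if d.1 = b.1 ∧ d ≠ b then (1 : ℤ) else 0)
    = (s b.1 : ℤ) - 1 := by
  have h1 : ∑ d : VJ s, (if d.1 = b.1 then (1 : ℤ) else 0) = s b.1 := by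
    rw [sum_fst s (fun i => if i = b.1 then 1 else 0)]
    simp
  have h2 : ∑ d : VJ s, (if d.1 = b.1 ∧ d ≠ b then (1 : ℤ) else 0)
      = ∑ d : VJ s, ((if d.1 = b.1 then (1 : ℤ) else 0) - if d = b then 1 else 0) := by
    refine Finset.sum_congr rfl fun d _ => ?_
    by_cases h : d = b
    · subst h; simp
    · simp [h]
  rw [h2, Finset.sum_sub_distrib, h1]
  simp

theorem isC4J {a b c d : VJ s} : isC4 (AJ s) a b c d = true ↔
    a.1 ≠ b.1 ∧ (c.1 = a.1 ∧ c ≠ a) ∧ (d.1 = b.1 ∧ d ≠ b) := by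
  rw [isC4_iff]
  simp only [AJ_true, AJ_false]
  constructor
  · rintro ⟨h1, h2, h3, h4, h5, h6, h7, h8⟩
    exact ⟨h1, ⟨h5.symm, h7.symm⟩, ⟨h6.symm, h8.symm⟩⟩
  · rintro ⟨h1, ⟨h2, h3⟩, ⟨h4, h5⟩⟩
    exact ⟨h1, by rw [h2]; exact h1.symm, by rw [h2, h4]; exact h1, by rw [h4]; exact h1.symm,
      h2.symm, h4.symm, h3.symm, h5.symm⟩

theorem card_T4J : ((T4 (AJ s)).card : ℤ) = ∑ i, (s i : ℤ) * ∑ j, (s j : ℤ) *
    (if i ≠ j then ((s i : ℤ) - 1) * ((s j : ℤ) - 1) else 0) := by
  have h : ((T4 (AJ s)).card : ℤ) = ∑ a : VJ s, ∑ b : VJ s,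
      if a.1 ≠ b.1 then ((s a.1 : ℤ) - 1) * ((s b.1 : ℤ) - 1) else 0 := by
    unfold T4
    rw [Finset.card_filter]
    push_cast
    rw [Fintype.sum_prod_type]
    refine Finset.sum_congr rfl fun a _ => ?_
    rw [Fintype.sum_prod_type]
    refine Finset.sum_congr rfl fun b _ => ?_
    rw [Fintype.sum_prod_type]
    simp only [isC4J]
    by_cases hab : a.1 = b.1
    · simp [hab]
    · rw [if_pos hab, ← card_same s a, ← card_same s b, Finset.sum_mul_sum]
      refine Finset.sum_congr rfl fun c _ => ?_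
      refine Finset.sum_congr rfl fun d _ => ?_
      by_cases h1 : c.1 = a.1 ∧ c ≠ a <;> by_cases h2 : d.1 = b.1 ∧ d ≠ b <;> simp [hab, h1, h2]
  rw [h]
  have h2 : ∀ a : VJ s, ∑ b : VJ s, (if a.1 ≠ b.1 then ((s a.1 : ℤ) - 1) * ((s b.1 : ℤ) - 1) else 0)
      = ∑ j, (s j : ℤ) * (if a.1 ≠ j then ((s a.1 : ℤ) - 1) * ((s j : ℤ) - 1) else 0) := fun a =>
    sum_fst s (fun j => if a.1 ≠ j then ((s a.1 : ℤ) - 1) * ((s j : ℤ) - 1) else 0)
  simp only [h2]
  exact sum_fst s (fun i => ∑ j, (s j : ℤ) *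
    (if i ≠ j then ((s i : ℤ) - 1) * ((s j : ℤ) - 1) else 0))

/-- no induced five-cycle -/
theorem c5J : cnt (AJ s) 5 2 = 0 := by
  unfold cnt
  refine Finset.sum_eq_zero fun S hS => ?_
  have h5 := (Finset.mem_powersetCard.1 hS).2
  by_contra hne
  have h1 : reg (AJ s) 2 S = 1 := by
    unfold reg at hne ⊢
    by_contra hh
    apply hne
    rw [if_neg]
    intro h; exact hh (if_pos h)
  rw [reg_eq_one_iff] at h1
  have hdg : ∀ v, dg (AJ s) S v + (S.filter fun w => w.1 = v.1).card = S.card := by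
    intro v
    unfold dg
    have : ∑ w ∈ S, (AJ s v w).toNat = (S.filter fun w => ¬ w.1 = v.1).card := by
      rw [Finset.card_filter]
      refine Finset.sum_congr rfl fun w _ => ?_
      unfold AJ
      by_cases h : v.1 = w.1
      · simp [h]
      · simp [h, Ne.symm h]
    rw [this, add_comm]
    exact Finset.card_filter_add_card_filter_not _
  obtain ⟨v, hv⟩ : S.Nonempty := Finset.card_pos.1 (by omega)
  have hv3 : (S.filter fun w => w.1 = v.1).card = 3 := by
    have := hdg v; rw [h1 v hv, h5] at this; omega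
  obtain ⟨w, hw, hwv⟩ : ∃ w ∈ S, w.1 ≠ v.1 := by
    by_contra hcon
    push Not at hcon
    rw [Finset.filter_true_of_mem hcon] at hv3
    omega
  have hw3 : (S.filter fun x => x.1 = w.1).card = 3 := by
    have := hdg w; rw [h1 w hw, h5] at this; omega
  have hd : Disjoint (S.filter fun x => x.1 = w.1) (S.filter fun x => x.1 = v.1) := by
    rw [Finset.disjoint_left]
    intro x hx hx'
    exact hwv ((Finset.mem_filter.1 hx).2.symm.trans (Finset.mem_filter.1 hx').2)
  have := Finset.card_le_card (Finset.union_subset (Finset.filter_subset (fun x => x.1 = w.1) S)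
    (Finset.filter_subset (fun x => x.1 = v.1) S))
  rw [Finset.card_union_of_disjoint hd, hv3, hw3, h5] at this
  omega

theorem zzJ (h0 : s 0 = 1) :
    zz (AJ s) = ((Fintype.card (VJ s) : ℤ) + 4) * cnt (AJ s) 4 2 := by
  have hA := AJ_sym s
  have h1 := zz_T4 hA
  rw [c5J, mul_zero, add_zero] at h1
  have h2 : ∀ p ∈ T4 (AJ s), ∑ w ∈ univ \ {p.1, p.2.1, p.2.2.1, p.2.2.2},
      om (AJ s) {p.1, p.2.1, p.2.2.1, p.2.2.2} w = (Fintype.card (VJ s) : ℤ) + 4 := by
    rintro ⟨a, b, c, d⟩ hp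
    rw [T4, Finset.mem_filter] at hp
    have hp := hp.2
    simp only at hp ⊢
    have hcard := isC4_card hA hp
    have hcc := isC4J s |>.1 hp
    obtain ⟨hab, ⟨hca, hca'⟩, ⟨hdb, hdb'⟩⟩ := hcc
    have part0 : ∀ x y : VJ s, x.1 = y.1 → x ≠ y → x.1 ≠ 0 := by
      rintro ⟨i, x⟩ ⟨j, y⟩ h hne h0'
      simp only at h h0'
      subst h
      subst h0'
      apply hne
      have hx := x.2
      have hy := y.2
      have : x = y := by ext; omega
      rw [this]
    have ha0 := part0 a c hca.symm hca'.symm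
    have hb0 := part0 b d hdb.symm hdb'.symm
    have hval : ∀ w : VJ s, om (AJ s) {a, b, c, d} w = 1 + 8 * (if w.1 = 0 then 1 else 0) := by
      intro w
      have h := om_T4 hA (w := w) hp
      have e1 : AJ s w c = AJ s w a := by unfold AJ; rw [hca]
      have e2 : AJ s w d = AJ s w b := by unfold AJ; rw [hdb]
      have hthr : bi (fthr (AJ s) a b c d w) + bi (fthr (AJ s) b c d a w)
          + bi (fthr (AJ s) c d a b w) + bi (fthr (AJ s) d a b c w) = 0 := by
        unfold fthr bi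
        rw [e1, e2]
        cases AJ s w a <;> cases AJ s w b <;> rfl
      have hbad : bi (fbad (AJ s) a b c d w) = 0 := by
        unfold fbad bi
        rw [e1, e2]
        have : AJ s w a = true ∨ AJ s w b = true := by
          by_contra hcon
          rw [not_or] at hcon
          simp only [Bool.not_eq_true] at hcon
          rw [AJ_false, AJ_false] at hcon
          exact hab (hcon.1.symm.trans hcon.2)
        rcases this with h | h <;> rw [h] <;> simp
      have hall : bi (fall (AJ s) a b c d w) = if w.1 = 0 then 1 else 0 := by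
        unfold fall bi
        rw [e1, e2]
        by_cases hw : w.1 = 0
        · have g1 : AJ s w a = true := by rw [AJ_true, hw]; exact ha0.symm
          have g2 : AJ s w b = true := by rw [AJ_true, hw]; exact hb0.symm
          rw [g1, g2, if_pos hw]; rfl
        · have : w.1 = a.1 ∨ w.1 = b.1 := by
            rcases fin3_cases a.1 b.1 0 hab ha0.symm hb0.symm w.1 with h | h | h
            · exact Or.inl h
            · exact Or.inr h
            · exact absurd h hw
          rw [if_neg hw]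
          rcases this with h | h
          · rw [AJ_false s |>.2 h]; simp
          · rw [AJ_false s |>.2 h]; simp
      rw [hthr, hbad, hall] at h
      linarith
    simp only [hval]
    rw [Finset.sum_add_distrib, ← Finset.mul_sum]
    have g1 : ∑ w ∈ univ \ {a, b, c, d}, (1 : ℤ) = (Fintype.card (VJ s) : ℤ) - 4 := by
      have h4 := Finset.card_le_univ ({a, b, c, d} : Finset (VJ s))
      rw [Finset.sum_const, Finset.card_sdiff_of_subset (Finset.subset_univ _), hcard,
        Finset.card_univ]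
      rw [hcard] at h4
      simp only [nsmul_eq_mul, mul_one]
      push_cast [h4]
      ring
    have g2 : ∑ w ∈ univ \ {a, b, c, d}, (if w.1 = 0 then (1 : ℤ) else 0) = 1 := by
      rw [sum_sdiff_zero]
      · rw [sum_fst s (fun i => if i = 0 then 1 else 0)]
        simp [h0]
      · intro w hw
        rw [if_neg]
        simp only [Finset.mem_insert, Finset.mem_singleton] at hw
        rcases hw with rfl | rfl | rfl | rfl
        · exact ha0
        · exact hb0
        · rw [hca]; exact ha0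
        · rw [hdb]; exact hb0
    rw [g1, g2]; ring
  rw [Finset.sum_congr rfl h2, Finset.sum_const, nsmul_eq_mul, card_T4 hA] at h1
  linarith

/-! ### colourings -/

theorem fst_mem_colS : (fun v : VJ s => v.1) ∈ colS (AJ s) 3 := by
  rw [mem_colS]
  intro a b h
  exact (AJ_true s).1 h

theorem NNJ_two (hs : ∀ i, 0 < s i) : NN (AJ s) 2 = 0 := by
  unfold NN
  rw [Finset.card_eq_zero, Finset.eq_empty_iff_forall_notMem]
  intro c hc
  rw [mem_colS] at hc
  have h : ∀ f : Fin 3 → Fin 2, ∃ i j, i ≠ j ∧ f i = f j := by decide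
  obtain ⟨i, j, hij, hf⟩ := h (fun i => c ⟨i, ⟨0, hs i⟩⟩)
  exact hc ⟨i, ⟨0, hs i⟩⟩ ⟨j, ⟨0, hs j⟩⟩ (by rw [AJ_true]; exact hij) hf

theorem fin3_inj : ∀ f : Fin 3 → Fin 3, (∀ i j, i ≠ j → f i ≠ f j) → ∀ i x, (∀ j, j ≠ i → x ≠ f j) →
    x = f i := by decide

theorem NNJ_three (hs : ∀ i, 0 < s i) : NN (AJ s) 3 = 6 := by
  unfold NN
  have : (univ : Finset (Equiv.Perm (Fin 3))).card = 6 := by
    rw [Finset.card_univ, Fintype.card_perm, Fintype.card_fin]; rfl
  rw [← this]
  symm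
  refine Finset.card_bij (fun σ _ => fun v : VJ s => σ v.1) ?_ ?_ ?_
  · intro σ _
    rw [mem_colS]
    intro a b hab
    rw [AJ_true] at hab
    exact fun h => hab (σ.injective h)
  · intro σ _ τ _ h
    ext i
    have := congrFun h ⟨i, ⟨0, hs i⟩⟩
    simp only at this
    rw [this]
  · intro c hc
    rw [mem_colS] at hc
    set f : Fin 3 → Fin 3 := fun i => c ⟨i, ⟨0, hs i⟩⟩ with hf
    have hinj : ∀ i j, i ≠ j → f i ≠ f j := fun i j hij =>
      hc _ _ (by rw [AJ_true]; exact hij)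
    have hinj' : Function.Injective f := by
      intro i j h
      by_contra hne
      exact hinj i j hne h
    refine ⟨Equiv.ofBijective f ((Fintype.bijective_iff_injective_and_card f).2 ⟨hinj', rfl⟩),
      Finset.mem_univ _, ?_⟩
    funext v
    simp only [Equiv.ofBijective_apply]
    symm
    apply fin3_inj f hinj
    intro j hj
    exact hc _ _ (by rw [AJ_true]; exact hj.symm)

end Pool.Agent.K3h1.Chr
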