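import Pool.Agent.K3h1.Chr.Bridge

set_option autoImplicit false
set_option linter.unusedSectionVars false

namespace Pool.Agent.K3h1.Chr

open Finset

section
variable {V : Type*} [DecidableEq V]

/-- all four vertices of the cycle adjacent to `w` -/
def fall (A : V → V → Bool) (a b c d w : V) : Bool := A w a && A w b && A w c && A w d
/-- exactly the first three -/
def fthr (A : V → V → Bool) (a b c d w : V) : Bool := A w a && A w b && A w c && !A w d
/-- no opposite pair -/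
def fbad (A : V → V → Bool) (a b c d w : V) : Bool := !(A w a && A w c) && !(A w b && A w d)

def bi (b : Bool) : ℤ := if b then 1 else 0

theorem bi_nonneg (b : Bool) : 0 ≤ bi b := by cases b <;> simp [bi]

theorem dg_four {A : V → V → Bool} {a b c d : V} (h1 : a ≠ b) (h2 : a ≠ c) (h3 : a ≠ d)
    (h4 : b ≠ c) (h5 : b ≠ d) (h6 : c ≠ d) (w : V) :
    dg A {a, b, c, d} w = (A w a).toNat + ((A w b).toNat + ((A w c).toNat + (A w d).toNat)) := by
  unfold dg
  rw [Finset.sum_insert, Finset.sum_insert, Finset.sum_insert, Finset.sum_singleton]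
  · simp [h6]
  · simp [h4, h5]
  · simp [h1, h2, h3]

theorem om_T4 {A : V → V → Bool} (hA : Sym A) {a b c d w : V} (h : isC4 A a b c d = true) :
    om A {a, b, c, d} w - 1 = 8 * bi (fall A a b c d w)
      + 2 * (bi (fthr A a b c d w) + bi (fthr A b c d a w) + bi (fthr A c d a b w)
        + bi (fthr A d a b c w)) - bi (fbad A a b c d w) := by
  obtain ⟨h1, h2, h3, h4, h5, h6, h7, h8⟩ := isC4_iff.1 h
  have n1 := hA.ne h1
  have n2 := hA.ne h2
  have n3 := hA.ne h3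
  have n4 := hA.ne h4
  have e1 := hA.symm a b
  have e2 := hA.symm b c
  have e3 := hA.symm c d
  have e4 := hA.symm d a
  have e5 := hA.symm a c
  have e6 := hA.symm b d
  rw [h1] at e1; rw [h2] at e2; rw [h3] at e3; rw [h4] at e4; rw [h5] at e5; rw [h6] at e6
  have key : (∀ x ∈ ({a, b, c, d} : Finset V), ∀ y ∈ ({a, b, c, d} : Finset V),
      (A w x && A w y && A x y) = false) ↔ ((A w a && A w b) = false ∧ (A w b && A w c) = false ∧
        (A w c && A w d) = false ∧ (A w d && A w a) = false) := by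
    simp only [Finset.mem_insert, Finset.mem_singleton, forall_eq_or_imp, forall_eq, hA.irr,
      h1, h2, h3, h4, h5, h6, ← e1, ← e2, ← e3, ← e4, ← e5, ← e6, Bool.and_true, Bool.and_false,
      true_and, and_true]
    cases A w a <;> cases A w b <;> cases A w c <;> cases A w d <;> decide
  unfold om
  rw [dg_four n1 h7 n4.symm n2 h8 n3]
  simp only [key, fall, fthr, fbad, bi]
  rcases Bool.eq_false_or_eq_true (A w a) with ha | ha <;>
  rcases Bool.eq_false_or_eq_true (A w b) with hb | hb <;>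
  rcases Bool.eq_false_or_eq_true (A w c) with hc | hc <;>
  rcases Bool.eq_false_or_eq_true (A w d) with hd | hd <;>
  simp [ha, hb, hc, hd]

end

variable {V : Type*} [DecidableEq V] [Fintype V]

def Sall (A : V → V → Bool) : ℤ := ∑ p ∈ T4 A, ∑ w : V, bi (fall A p.1 p.2.1 p.2.2.1 p.2.2.2 w)
def Sthr (A : V → V → Bool) : ℤ := ∑ p ∈ T4 A, ∑ w : V, bi (fthr A p.1 p.2.1 p.2.2.1 p.2.2.2 w)
def Rbad (A : V → V → Bool) : ℤ := ∑ p ∈ T4 A,
  ∑ w ∈ univ \ {p.1, p.2.1, p.2.2.1, p.2.2.2}, bi (fbad A p.1 p.2.1 p.2.2.1 p.2.2.2 w)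

theorem T4_rot {A : V → V → Bool} (hA : Sym A) (g : V × V × V × V → ℤ) :
    ∑ p ∈ T4 A, g (p.2.1, p.2.2.1, p.2.2.2, p.1) = ∑ p ∈ T4 A, g p := by
  refine Finset.sum_bij' (fun p _ => (p.2.1, p.2.2.1, p.2.2.2, p.1))
    (fun p _ => (p.2.2.2, p.1, p.2.1, p.2.2.1)) ?_ ?_ ?_ ?_ ?_
  · rintro ⟨a, b, c, d⟩ h
    simp only [T4, Finset.mem_filter, Finset.mem_univ, true_and] at h ⊢
    rw [isC4_iff] at h ⊢
    obtain ⟨h1, h2, h3, h4, h5, h6, h7, h8⟩ := h
    exact ⟨h2, h3, h4, h1, h6, (hA.symm _ _).trans h5, h8, h7.symm⟩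
  · rintro ⟨a, b, c, d⟩ h
    simp only [T4, Finset.mem_filter, Finset.mem_univ, true_and] at h ⊢
    rw [isC4_iff] at h ⊢
    obtain ⟨h1, h2, h3, h4, h5, h6, h7, h8⟩ := h
    exact ⟨h4, h1, h2, h3, (hA.symm _ _).trans h6, h5, h8.symm, h7⟩
  · rintro ⟨a, b, c, d⟩ _; rfl
  · rintro ⟨a, b, c, d⟩ _; rfl
  · rintro ⟨a, b, c, d⟩ _; rfl

theorem sum_sdiff_zero {Q : Finset V} (f : V → ℤ) (h : ∀ w ∈ Q, f w = 0) :
    ∑ w ∈ univ \ Q, f w = ∑ w : V, f w := by
  rw [← Finset.sum_sdiff (Finset.subset_univ Q)]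
  rw [Finset.sum_eq_zero h, add_zero]

theorem fthr_zero {A : V → V → Bool} (hA : Sym A) {a b c d : V} (h : isC4 A a b c d = true) :
    ∀ w ∈ ({a, b, c, d} : Finset V), bi (fthr A a b c d w) = 0 := by
  obtain ⟨h1, h2, h3, h4, h5, h6, h7, h8⟩ := isC4_iff.1 h
  intro w hw
  simp only [Finset.mem_insert, Finset.mem_singleton] at hw
  rcases hw with rfl | rfl | rfl | rfl
  · simp [fthr, bi, hA.irr]
  · simp [fthr, bi, hA.irr]
  · simp [fthr, bi, hA.irr]
  · have := hA.symm b w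
    rw [h6] at this
    simp [fthr, bi, ← this]

theorem fall_zero {A : V → V → Bool} (hA : Sym A) {a b c d : V} :
    ∀ w ∈ ({a, b, c, d} : Finset V), bi (fall A a b c d w) = 0 := by
  intro w hw
  simp only [Finset.mem_insert, Finset.mem_singleton] at hw
  rcases hw with rfl | rfl | rfl | rfl <;> simp [fall, bi, hA.irr]

theorem key1 {A : V → V → Bool} (hA : Sym A)
    (hz : zz A = ((Fintype.card V : ℤ) + 4) * cnt A 4 2) :
    8 * (Sall A + Sthr A) = 8 * (T4 A).card + 24 * cnt A 5 2 + Rbad A := by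
  have h1 := zz_T4 hA
  have h2 : ∑ p ∈ T4 A, ∑ w ∈ univ \ {p.1, p.2.1, p.2.2.1, p.2.2.2}, (1 : ℤ)
      = ((Fintype.card V : ℤ) - 4) * (T4 A).card := by
    have : ∀ p ∈ T4 A, ∑ w ∈ univ \ {p.1, p.2.1, p.2.2.1, p.2.2.2}, (1 : ℤ)
        = (Fintype.card V : ℤ) - 4 := by
      intro p hp
      rw [T4, Finset.mem_filter] at hp
      have hc := isC4_card hA hp.2
      have h4 := Finset.card_le_univ ({p.1, p.2.1, p.2.2.1, p.2.2.2} : Finset V)
      rw [Finset.sum_const, Finset.card_sdiff_of_subset (Finset.subset_univ _), hc,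
        Finset.card_univ]
      rw [hc] at h4
      simp only [nsmul_eq_mul, mul_one]
      push_cast [h4]
      ring
    rw [Finset.sum_congr rfl this, Finset.sum_const, nsmul_eq_mul]; ring
  have h3 : ∑ p ∈ T4 A, ∑ w ∈ univ \ {p.1, p.2.1, p.2.2.1, p.2.2.2},
      (om A {p.1, p.2.1, p.2.2.1, p.2.2.2} w - 1) = 8 * (Sall A + Sthr A) - Rbad A := by
    have e1 : ∀ p ∈ T4 A, ∑ w ∈ univ \ {p.1, p.2.1, p.2.2.1, p.2.2.2},
        (om A {p.1, p.2.1, p.2.2.1, p.2.2.2} w - 1)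
        = 8 * (∑ w : V, bi (fall A p.1 p.2.1 p.2.2.1 p.2.2.2 w))
          + 2 * ((∑ w : V, bi (fthr A p.1 p.2.1 p.2.2.1 p.2.2.2 w))
            + (∑ w : V, bi (fthr A p.2.1 p.2.2.1 p.2.2.2 p.1 w))
            + (∑ w : V, bi (fthr A p.2.2.1 p.2.2.2 p.1 p.2.1 w))
            + (∑ w : V, bi (fthr A p.2.2.2 p.1 p.2.1 p.2.2.1 w)))
          - ∑ w ∈ univ \ {p.1, p.2.1, p.2.2.1, p.2.2.2}, bi (fbad A p.1 p.2.1 p.2.2.1 p.2.2.2 w) := by
      rintro ⟨a, b, c, d⟩ hp
      rw [T4, Finset.mem_filter] at hp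
      have hp := hp.2
      simp only at hp ⊢
      obtain ⟨h1, h2, h3, h4, h5, h6, h7, h8⟩ := isC4_iff.1 hp
      have hp2 : isC4 A b c d a = true :=
        isC4_iff.2 ⟨h2, h3, h4, h1, h6, (hA.symm _ _).trans h5, h8, h7.symm⟩
      have hp3 : isC4 A c d a b = true :=
        isC4_iff.2 ⟨h3, h4, h1, h2, (hA.symm _ _).trans h5, (hA.symm _ _).trans h6, h7.symm,
          h8.symm⟩
      have hp4 : isC4 A d a b c = true :=
        isC4_iff.2 ⟨h4, h1, h2, h3, (hA.symm _ _).trans h6, h5, h8.symm, h7⟩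
      have q2 : ({b, c, d, a} : Finset V) = {a, b, c, d} := by
        ext x; simp only [Finset.mem_insert, Finset.mem_singleton]; tauto
      have q3 : ({c, d, a, b} : Finset V) = {a, b, c, d} := by
        ext x; simp only [Finset.mem_insert, Finset.mem_singleton]; tauto
      have q4 : ({d, a, b, c} : Finset V) = {a, b, c, d} := by
        ext x; simp only [Finset.mem_insert, Finset.mem_singleton]; tauto
      rw [← sum_sdiff_zero _ (fall_zero hA (a := a) (b := b) (c := c) (d := d)),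
        ← sum_sdiff_zero _ (fthr_zero hA hp), ← sum_sdiff_zero _ (fthr_zero hA hp2),
        ← sum_sdiff_zero _ (fthr_zero hA hp3), ← sum_sdiff_zero _ (fthr_zero hA hp4), q2, q3, q4,
        ← Finset.sum_add_distrib, ← Finset.sum_add_distrib, ← Finset.sum_add_distrib,
        Finset.mul_sum, Finset.mul_sum, ← Finset.sum_add_distrib, ← Finset.sum_sub_distrib]
      refine Finset.sum_congr rfl fun w _ => ?_
      rw [om_T4 hA hp]
    rw [Finset.sum_congr rfl e1, Finset.sum_sub_distrib, Finset.sum_add_distrib, ← Finset.mul_sum,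
      ← Finset.mul_sum, Finset.sum_add_distrib, Finset.sum_add_distrib, Finset.sum_add_distrib]
    have r1 := T4_rot hA (fun p => ∑ w : V, bi (fthr A p.1 p.2.1 p.2.2.1 p.2.2.2 w))
    have r2 := T4_rot hA (fun p => ∑ w : V, bi (fthr A p.2.1 p.2.2.1 p.2.2.2 p.1 w))
    have r3 := T4_rot hA (fun p => ∑ w : V, bi (fthr A p.2.2.1 p.2.2.2 p.1 p.2.1 w))
    simp only at r1 r2 r3
    rw [r3, r2, r1]
    unfold Sall Sthr Rbad
    ring
  have h4 : ∑ p ∈ T4 A, ∑ w ∈ univ \ {p.1, p.2.1, p.2.2.1, p.2.2.2},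
      (om A {p.1, p.2.1, p.2.2.1, p.2.2.2} w - 1)
      = 8 * (zz A + 3 * cnt A 5 2) - ((Fintype.card V : ℤ) - 4) * (T4 A).card := by
    rw [h1, ← h2, ← Finset.sum_sub_distrib]
    exact Finset.sum_congr rfl fun p _ => Finset.sum_sub_distrib _ _
  rw [h3, hz, card_T4 hA] at h4
  rw [card_T4 hA]
  linarith

end Pool.Agent.K3h1.Chr
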