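import Pool.Agent.K3h1.Chr.Ineq

set_option autoImplicit false
set_option linter.unusedSectionVars false

namespace Pool.Agent.K3h1.Chr

open Finset

variable {V : Type*} [DecidableEq V] [Fintype V]

/-- bicoloured four-cycles with a common neighbour of the first two vertices -/
def LS (A : V → V → Bool) (c : V → Fin 3) : Finset ((V × V × V × V) × V) :=
  univ.filter fun s => isC4 A s.1.1 s.1.2.1 s.1.2.2.1 s.1.2.2.2 = true ∧ c s.1.1 = c s.1.2.2.1 ∧
    c s.1.2.1 = c s.1.2.2.2 ∧ A s.2 s.1.1 = true ∧ A s.2 s.1.2.1 = true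

theorem LS_le {A : V → V → Bool} (hA : Sym A) (c : V → Fin 3) : ((LS A c).card : ℤ) ≤ LL A c := by
  have h1 : LL A c = (((T3 A).sigma fun p => pxy A c p.1 p.2.1).card : ℤ) := by
    rw [Finset.card_sigma]; push_cast; rfl
  rw [h1]
  have := Finset.card_le_card_of_injOn (s := LS A c) (t := (T3 A).sigma fun p => pxy A c p.1 p.2.1)
    (fun s => (⟨(s.1.1, s.1.2.1, s.2), (s.1.2.2.1, s.1.2.2.2)⟩ : (_ : V × V × V) × V × V)) ?_ ?_
  · exact_mod_cast this
  · rintro ⟨⟨x, y, x', y'⟩, w⟩ h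
    have h : ((x, y, x', y'), w) ∈ LS A c := h
    simp only [LS, Finset.mem_filter, Finset.mem_univ, true_and] at h
    obtain ⟨h0, h1, h2, h3, h4⟩ := h
    obtain ⟨g1, g2, g3, g4, g5, g6, g7, g8⟩ := isC4_iff.1 h0
    rw [Finset.mem_coe, Finset.mem_sigma]
    simp only [T3, pxy, Finset.mem_filter, Finset.mem_univ, true_and]
    refine ⟨⟨g1, by rw [hA.symm]; exact h4, by rw [hA.symm]; exact h3⟩, h1.symm, h2.symm, g7.symm,
      g8.symm, by rw [hA.symm]; exact g2, by rw [hA.symm]; exact g4, g3⟩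
  · rintro ⟨⟨x, y, x', y'⟩, w⟩ _ ⟨⟨a, b, a', b'⟩, z⟩ _ h
    simp only [Sigma.mk.injEq, Prod.mk.injEq, heq_eq_eq] at h
    obtain ⟨⟨rfl, rfl, rfl⟩, rfl, rfl⟩ := h
    rfl

theorem fin3_eq : ∀ x y z t : Fin 3, x ≠ y → z ≠ x → z ≠ y → t ≠ x → t ≠ y → z = t := by decide

def AS (A : V → V → Bool) : Finset ((V × V × V × V) × V) :=
  univ.filter fun s => isC4 A s.1.1 s.1.2.1 s.1.2.2.1 s.1.2.2.2 = true ∧
    fall A s.1.1 s.1.2.1 s.1.2.2.1 s.1.2.2.2 s.2 = true

def BS (A : V → V → Bool) : Finset ((V × V × V × V) × V) :=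
  univ.filter fun s => isC4 A s.1.1 s.1.2.1 s.1.2.2.1 s.1.2.2.2 = true ∧
    fthr A s.1.1 s.1.2.1 s.1.2.2.1 s.1.2.2.2 s.2 = true

theorem Sall_eq (A : V → V → Bool) : Sall A = (AS A).card := by
  unfold Sall AS T4
  rw [Finset.sum_filter, Finset.card_filter]
  simp only [Nat.cast_sum, Nat.cast_ite, Nat.cast_one, Nat.cast_zero]
  conv_rhs => rw [Fintype.sum_prod_type]
  refine Finset.sum_congr rfl fun p _ => ?_
  by_cases h : isC4 A p.1 p.2.1 p.2.2.1 p.2.2.2 = true
  · rw [if_pos h]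
    refine Finset.sum_congr rfl fun w _ => ?_
    simp [h, bi]
  · rw [if_neg h]
    symm
    refine Finset.sum_eq_zero fun w _ => ?_
    simp [h]

theorem Sthr_eq (A : V → V → Bool) : Sthr A = (BS A).card := by
  unfold Sthr BS T4
  rw [Finset.sum_filter, Finset.card_filter]
  simp only [Nat.cast_sum, Nat.cast_ite, Nat.cast_one, Nat.cast_zero]
  conv_rhs => rw [Fintype.sum_prod_type]
  refine Finset.sum_congr rfl fun p _ => ?_
  by_cases h : isC4 A p.1 p.2.1 p.2.2.1 p.2.2.2 = true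
  · rw [if_pos h]
    refine Finset.sum_congr rfl fun w _ => ?_
    simp [h, bi]
  · rw [if_neg h]
    symm
    refine Finset.sum_eq_zero fun w _ => ?_
    simp [h]

theorem key2 {A : V → V → Bool} (hA : Sym A) {c : V → Fin 3} (hc : c ∈ colS A 3) :
    Sall A + Sthr A ≤ (LS A c).card := by
  have hc' := mem_colS.1 hc
  rw [Sall_eq, Sthr_eq]
  -- three disjoint parts of LS
  set P1 := (LS A c).filter fun s => A s.2 s.1.2.2.1 = true ∧ A s.2 s.1.2.2.2 = true with hP1
  set P2 := (LS A c).filter fun s => A s.2 s.1.2.2.1 = true ∧ A s.2 s.1.2.2.2 = false with hP2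
  set P3 := (LS A c).filter fun s => A s.2 s.1.2.2.1 = false ∧ A s.2 s.1.2.2.2 = true with hP3
  have hsum : P1.card + P2.card + P3.card ≤ (LS A c).card := by
    rw [← Finset.card_union_of_disjoint, ← Finset.card_union_of_disjoint]
    · apply Finset.card_le_card
      intro s hs
      rw [Finset.mem_union, Finset.mem_union] at hs
      rcases hs with (hs | hs) | hs <;> exact (Finset.mem_filter.1 hs).1
    · rw [Finset.disjoint_left]
      intro s hs hs'
      have h3 := (Finset.mem_filter.1 hs').2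
      rw [Finset.mem_union] at hs
      rcases hs with hs | hs
      · have := (Finset.mem_filter.1 hs).2
        rw [h3.1] at this; exact absurd this.1 (by simp)
      · have := (Finset.mem_filter.1 hs).2
        rw [h3.1] at this; exact absurd this.1 (by simp)
    · rw [Finset.disjoint_left]
      intro s hs hs'
      have h3 := (Finset.mem_filter.1 hs').2
      have := (Finset.mem_filter.1 hs).2
      rw [h3.2] at this; exact absurd this.2 (by simp)
  have hA1 : (AS A).card ≤ P1.card := by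
    apply Finset.card_le_card
    rintro ⟨⟨a, b, d, e⟩, w⟩ hs
    simp only [AS, Finset.mem_filter, Finset.mem_univ, true_and, fall, Bool.and_eq_true] at hs
    obtain ⟨h0, ⟨⟨h1, h2⟩, h3⟩, h4⟩ := hs
    obtain ⟨g1, g2, g3, g4, g5, g6, g7, g8⟩ := isC4_iff.1 h0
    simp only [hP1, LS, Finset.mem_filter, Finset.mem_univ, true_and]
    refine ⟨⟨h0, ?_, ?_, h1, h2⟩, h3, h4⟩
    · exact fin3_eq (c b) (c w) (c a) (c d) (hc' _ _ h2).symm (hc' _ _ g1) (hc' _ _ h1).symm
        (hc' _ _ g2).symm (hc' _ _ h3).symm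
    · exact fin3_eq (c a) (c w) (c b) (c e) (hc' _ _ h1).symm (hc' _ _ g1).symm (hc' _ _ h2).symm
        (hc' _ _ g4) (hc' _ _ h4).symm
  set B1 := (BS A).filter fun s => c s.1.2.1 = c s.1.2.2.2 with hB1
  set B2 := (BS A).filter fun s => ¬ c s.1.2.1 = c s.1.2.2.2 with hB2
  have hBB : B1.card + B2.card = (BS A).card := Finset.card_filter_add_card_filter_not _
  have hB1le : B1.card ≤ P2.card := by
    apply Finset.card_le_card
    rintro ⟨⟨a, b, d, e⟩, w⟩ hs
    simp only [hB1, BS, Finset.mem_filter, Finset.mem_univ, true_and, fthr, Bool.and_eq_true,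
      Bool.not_eq_true'] at hs
    obtain ⟨⟨h0, ⟨⟨h1, h2⟩, h3⟩, h4⟩, h5⟩ := hs
    obtain ⟨g1, g2, g3, g4, g5, g6, g7, g8⟩ := isC4_iff.1 h0
    simp only [hP2, LS, Finset.mem_filter, Finset.mem_univ, true_and]
    refine ⟨⟨h0, ?_, h5, h1, h2⟩, h3, h4⟩
    exact fin3_eq (c b) (c w) (c a) (c d) (hc' _ _ h2).symm (hc' _ _ g1) (hc' _ _ h1).symm
        (hc' _ _ g2).symm (hc' _ _ h3).symm
  have hB2le : B2.card ≤ P3.card := by
    refine Finset.card_le_card_of_injOn
      (fun s => ((s.2, s.1.1, s.1.2.2.2, s.1.2.2.1), s.1.2.1)) ?_ ?_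
    · rintro ⟨⟨a, b, d, e⟩, w⟩ hs
      have hs : ((a, b, d, e), w) ∈ B2 := hs
      simp only [hB2, BS, Finset.mem_filter, Finset.mem_univ, true_and, fthr, Bool.and_eq_true,
        Bool.not_eq_true'] at hs
      obtain ⟨⟨h0, ⟨⟨h1, h2⟩, h3⟩, h4⟩, h5⟩ := hs
      obtain ⟨g1, g2, g3, g4, g5, g6, g7, g8⟩ := isC4_iff.1 h0
      have had : c a = c d := fin3_eq (c b) (c w) (c a) (c d) (hc' _ _ h2).symm (hc' _ _ g1)
        (hc' _ _ h1).symm (hc' _ _ g2).symm (hc' _ _ h3).symm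
      have hwe : c w = c e := fin3_eq (c a) (c b) (c w) (c e) (hc' _ _ g1) (hc' _ _ h1)
        (hc' _ _ h2) (hc' _ _ g4) (Ne.symm h5)
      rw [Finset.mem_coe]
      simp only [hP3, LS, Finset.mem_filter, Finset.mem_univ, true_and]
      refine ⟨⟨?_, hwe, had, by rw [hA.symm]; exact h2, by rw [hA.symm]; exact g1⟩, g6, g2⟩
      rw [isC4_iff]
      refine ⟨h1, by rw [hA.symm]; exact g4, by rw [hA.symm]; exact g3, by rw [hA.symm]; exact h3,
        h4, g5, ?_, g7⟩
      rintro rfl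
      rw [hA.symm] at h2
      rw [h2] at g6
      exact absurd g6 (by simp)
    · rintro ⟨⟨a, b, d, e⟩, w⟩ _ ⟨⟨a', b', d', e'⟩, w'⟩ _ h
      simp only [Prod.mk.injEq] at h
      obtain ⟨⟨rfl, rfl, rfl, rfl⟩, rfl⟩ := h
      rfl
  have : (AS A).card + (BS A).card ≤ (LS A c).card := by omega
  exact_mod_cast this

theorem Rbad_nonneg (A : V → V → Bool) : 0 ≤ Rbad A :=
  Finset.sum_nonneg fun _ _ => Finset.sum_nonneg fun _ _ => bi_nonneg _

/-- The central consequence: if the numerical identity holds then everything is tight. -/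
theorem tight {A : V → V → Bool} (hA : Sym A) {c : V → Fin 3} (hc : c ∈ colS A 3)
    (hconn : ∀ k, (Gk A hA c k).Connected)
    (hz : zz A = ((Fintype.card V : ℤ) + 4) * cnt A 4 2)
    (hnum : 48 * cnt A 4 2 = (T3 A).card * ((T2 A).card - 4 * Fintype.card V + 6)) :
    Rbad A = 0 ∧ ∀ p ∈ T3 A, 2 * ((pxy A c p.1 p.2.1).card : ℤ)
      = (Ek A c (c p.2.2)).card - 2 * nk c (c p.2.2) + 2 := by
  have k1 := key1 hA hz
  have k2 := key2 hA hc
  have k2' := LS_le hA c
  have k3 := key3 hA hc hconn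
  have k4 := card_T4 hA
  have r0 := Rbad_nonneg A
  have c0 := cnt_nonneg A 5 2
  have hL : LL A c = 8 * cnt A 4 2 := by
    apply le_antisymm
    · linarith
    · linarith
  refine ⟨by linarith, ?_⟩
  have hs := key3_sum hA hc
  have h6 : ∑ p ∈ T3 A, ((((Ek A c (c p.2.2)).card : ℤ) - 2 * nk c (c p.2.2) + 2)
      - 2 * ((pxy A c p.1 p.2.1).card : ℤ)) = 0 := by
    rw [Finset.sum_sub_distrib, ← Finset.mul_sum]
    change _ - 2 * LL A c = 0
    linarith
  rw [Finset.sum_eq_zero_iff_of_nonneg] at h6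
  · intro p hp
    have := h6 p hp
    linarith
  · intro p hp
    have := key3_pt hA hc hconn hp
    linarith

end Pool.Agent.K3h1.Chr
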