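import Pool.Agent.K3h1.Chr.Split

set_option autoImplicit false
set_option linter.unusedSectionVars false

namespace Pool.Agent.K3h1.Chr

open Finset

/-- adjacency on `Fin 4` from six booleans -/
def mk4 (b01 b02 b03 b12 b13 b23 : Bool) : Fin 4 → Fin 4 → Bool :=
  fun i j =>
    match i.val, j.val with
    | 0, 1 => b01 | 1, 0 => b01 | 0, 2 => b02 | 2, 0 => b02 | 0, 3 => b03 | 3, 0 => b03
    | 1, 2 => b12 | 2, 1 => b12 | 1, 3 => b13 | 3, 1 => b13
    | 2, 3 => b23 | 3, 2 => b23 | _, _ => false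

theorem mk4_eq (A : Fin 4 → Fin 4 → Bool) (hs : ∀ i j, A i j = A j i) (hi : ∀ i, A i i = false) :
    A = mk4 (A 0 1) (A 0 2) (A 0 3) (A 1 2) (A 1 3) (A 2 3) := by
  funext i j
  fin_cases i <;> fin_cases j <;> simp [mk4, hi] <;> exact hs _ _

def mk3 (b01 b02 b12 : Bool) : Fin 3 → Fin 3 → Bool :=
  fun i j =>
    match i.val, j.val with
    | 0, 1 => b01 | 1, 0 => b01 | 0, 2 => b02 | 2, 0 => b02
    | 1, 2 => b12 | 2, 1 => b12 | _, _ => false

theorem mk3_eq (A : Fin 3 → Fin 3 → Bool) (hs : ∀ i j, A i j = A j i) (hi : ∀ i, A i i = false) :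
    A = mk3 (A 0 1) (A 0 2) (A 1 2) := by
  funext i j
  fin_cases i <;> fin_cases j <;> simp [mk3, hi] <;> exact hs _ _

def check4 (A : Fin 4 → Fin 4 → Bool) : Bool :=
  (reg (del A 0 1) 2 {0, 2, 3} + reg (del A 0 1) 2 {1, 2, 3} - reg (con A 0 1) 2 {0, 2, 3}
    == reg A 3 {0, 1, 2, 3} - reg A 2 {0, 1, 2, 3}) &&
  (reg (del A 0 1) 2 {0, 1, 2, 3} == reg A 2 {0, 1, 2} * reg A 2 {0, 1, 3} - reg A 3 {0, 1, 2, 3}) &&
  (reg (del A 0 1) 3 {0, 1, 2, 3} == 0)

theorem check4_all : ∀ b02 b03 b12 b13 b23 : Bool,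
    check4 (mk4 true b02 b03 b12 b13 b23) = true := by
  decide +kernel

def check3 (A : Fin 3 → Fin 3 → Bool) : Bool :=
  (reg (del A 0 1) 1 {0, 2} + reg (del A 0 1) 1 {1, 2} - reg (con A 0 1) 1 {0, 2}
    == reg A 2 {0, 1, 2}) &&
  (reg (del A 0 1) 2 {0, 1, 2} == 0)

theorem check3_all : ∀ b02 b12 : Bool, check3 (mk3 true b02 b12) = true := by
  decide +kernel

variable {V : Type*} [DecidableEq V]

structure Sym (A : V → V → Bool) : Prop where
  symm : ∀ a b, A a b = A b a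
  irr : ∀ a, A a a = false

theorem Sym.pull {A : V → V → Bool} (h : Sym A) {W : Type*} [DecidableEq W] (x : W → V) :
    Sym (pull A x) := ⟨fun _ _ => h.symm _ _, fun _ => h.irr _⟩

def emb3 {u v a : V} (h1 : u ≠ v) (h2 : u ≠ a) (h3 : v ≠ a) : Fin 3 ↪ V :=
  ⟨![u, v, a], by
    intro i j hij
    fin_cases i <;> fin_cases j <;> simp_all⟩

def emb4 {u v a b : V} (h1 : u ≠ v) (h2 : u ≠ a) (h3 : v ≠ a) (h4 : u ≠ b) (h5 : v ≠ b)
    (h6 : a ≠ b) : Fin 4 ↪ V :=
  ⟨![u, v, a, b], by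
    intro i j hij
    fin_cases i <;> fin_cases j <;> simp_all⟩

def emb5 {u v a b c : V} (h1 : u ≠ v) (h2 : u ≠ a) (h3 : v ≠ a) (h4 : u ≠ b) (h5 : v ≠ b)
    (h6 : a ≠ b) (h7 : u ≠ c) (h8 : v ≠ c) (h9 : a ≠ c) (h10 : b ≠ c) : Fin 5 ↪ V :=
  ⟨![u, v, a, b, c], by
    intro i j hij
    fin_cases i <;> fin_cases j <;> simp_all⟩

theorem local3 {A : V → V → Bool} (hA : Sym A) {u v a : V} (huv : A u v = true)
    (h1 : u ≠ v) (h2 : u ≠ a) (h3 : v ≠ a) :
    (reg (del A u v) 1 {u, a} + reg (del A u v) 1 {v, a} - reg (con A u v) 1 {u, a}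
      = reg A 2 {u, v, a}) ∧ reg (del A u v) 2 {u, v, a} = 0 := by
  set x := emb3 h1 h2 h3 with hx
  have e0 : x 0 = u := rfl
  have e1 : x 1 = v := rfl
  have e2 : x 2 = a := rfl
  have s1 : ({u, a} : Finset V) = ({0, 2} : Finset (Fin 3)).map x := by
    simp [Finset.map_insert, e0, e2]
  have s2 : ({v, a} : Finset V) = ({1, 2} : Finset (Fin 3)).map x := by
    simp [Finset.map_insert, e1, e2]
  have s3 : ({u, v, a} : Finset V) = ({0, 1, 2} : Finset (Fin 3)).map x := by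
    simp [Finset.map_insert, e0, e1, e2]
  have hd : pull (del A u v) x = del (pull A x) 0 1 := by
    rw [← pull_del, e0, e1]
  have hc : pull (con A u v) x = con (pull A x) 0 1 := by
    rw [← pull_con, e0, e1]
  rw [s3, s1, s2]
  simp only [reg_map, hd, hc]
  have hm := mk3_eq (pull A x) (hA.pull x).symm (hA.pull x).irr
  have h01 : pull A x 0 1 = true := huv
  rw [h01] at hm
  have := check3_all (pull A x 0 2) (pull A x 1 2)
  rw [← hm] at this
  simp only [check3, Bool.and_eq_true, beq_iff_eq] at this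
  exact this

theorem local4 {A : V → V → Bool} (hA : Sym A) {u v a b : V} (huv : A u v = true)
    (h1 : u ≠ v) (h2 : u ≠ a) (h3 : v ≠ a) (h4 : u ≠ b) (h5 : v ≠ b) (h6 : a ≠ b) :
    (reg (del A u v) 2 {u, a, b} + reg (del A u v) 2 {v, a, b} - reg (con A u v) 2 {u, a, b}
      = reg A 3 {u, v, a, b} - reg A 2 {u, v, a, b}) ∧
    reg (del A u v) 2 {u, v, a, b} =
      reg A 2 {u, v, a} * reg A 2 {u, v, b} - reg A 3 {u, v, a, b} ∧
    reg (del A u v) 3 {u, v, a, b} = 0 := by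
  set x := emb4 h1 h2 h3 h4 h5 h6 with hx
  have e0 : x 0 = u := rfl
  have e1 : x 1 = v := rfl
  have e2 : x 2 = a := rfl
  have e3 : x 3 = b := rfl
  have s1 : ({u, a, b} : Finset V) = ({0, 2, 3} : Finset (Fin 4)).map x := by
    simp [Finset.map_insert, e0, e2, e3]
  have s2 : ({v, a, b} : Finset V) = ({1, 2, 3} : Finset (Fin 4)).map x := by
    simp [Finset.map_insert, e1, e2, e3]
  have s3 : ({u, v, a} : Finset V) = ({0, 1, 2} : Finset (Fin 4)).map x := by
    simp [Finset.map_insert, e0, e1, e2]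
  have s4 : ({u, v, b} : Finset V) = ({0, 1, 3} : Finset (Fin 4)).map x := by
    simp [Finset.map_insert, e0, e1, e3]
  have s5 : ({u, v, a, b} : Finset V) = ({0, 1, 2, 3} : Finset (Fin 4)).map x := by
    simp [Finset.map_insert, e0, e1, e2, e3]
  have hd : pull (del A u v) x = del (pull A x) 0 1 := by
    rw [← pull_del, e0, e1]
  have hc : pull (con A u v) x = con (pull A x) 0 1 := by
    rw [← pull_con, e0, e1]
  rw [s5, s1, s2, s3, s4]
  simp only [reg_map, hd, hc]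
  have hm := mk4_eq (pull A x) (hA.pull x).symm (hA.pull x).irr
  have h01 : pull A x 0 1 = true := huv
  rw [h01] at hm
  have := check4_all (pull A x 0 2) (pull A x 0 3) (pull A x 1 2) (pull A x 1 3) (pull A x 2 3)
  rw [← hm] at this
  simp only [check4, Bool.and_eq_true, beq_iff_eq] at this
  exact ⟨this.1.1, this.1.2, this.2⟩

theorem local5 {A : V → V → Bool} (hA : Sym A) {u v a b c : V} (huv : A u v = true)
    (h1 : u ≠ v) (h2 : u ≠ a) (h3 : v ≠ a) (h4 : u ≠ b) (h5 : v ≠ b) (h6 : a ≠ b)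
    (h7 : u ≠ c) (h8 : v ≠ c) (h9 : a ≠ c) (h10 : b ≠ c)
    (k4 : ∀ S : Finset V, S.card = 4 → reg A 3 S = 0) :
    z3 A {u, v, a, b, c} - z3 (del A u v) {u, v, a, b, c} =
    3 * (- (reg A 2 {u, v, a} * reg A 2 {u, v, b} * reg A 2 {u, v, c})
      + (reg A 2 {u, v, a} * reg A 2 {u, v, b, c} + reg A 2 {u, v, b} * reg A 2 {u, v, a, c}
          + reg A 2 {u, v, c} * reg A 2 {u, v, a, b})
      + reg (del A u v) 2 {u, a, b, c} + reg (del A u v) 2 {v, a, b, c}
      - reg (con A u v) 2 {u, a, b, c}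
      + 2 * reg (con A u v) 3 {u, a, b, c}) := by
  set x := emb5 h1 h2 h3 h4 h5 h6 h7 h8 h9 h10 with hx
  have e0 : x 0 = u := rfl
  have e1 : x 1 = v := rfl
  have e2 : x 2 = a := rfl
  have e3 : x 3 = b := rfl
  have e4 : x 4 = c := rfl
  have s0 : ({u, v, a, b, c} : Finset V) = ({0, 1, 2, 3, 4} : Finset (Fin 5)).map x := by
    simp [Finset.map_insert, e0, e1, e2, e3, e4]
  have s1 : ({u, v, a} : Finset V) = ({0, 1, 2} : Finset (Fin 5)).map x := by
    simp [Finset.map_insert, e0, e1, e2]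
  have s2 : ({u, v, b} : Finset V) = ({0, 1, 3} : Finset (Fin 5)).map x := by
    simp [Finset.map_insert, e0, e1, e3]
  have s3 : ({u, v, c} : Finset V) = ({0, 1, 4} : Finset (Fin 5)).map x := by
    simp [Finset.map_insert, e0, e1, e4]
  have s4 : ({u, v, b, c} : Finset V) = ({0, 1, 3, 4} : Finset (Fin 5)).map x := by
    simp [Finset.map_insert, e0, e1, e3, e4]
  have s5 : ({u, v, a, c} : Finset V) = ({0, 1, 2, 4} : Finset (Fin 5)).map x := by
    simp [Finset.map_insert, e0, e1, e2, e4]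
  have s6 : ({u, v, a, b} : Finset V) = ({0, 1, 2, 3} : Finset (Fin 5)).map x := by
    simp [Finset.map_insert, e0, e1, e2, e3]
  have s7 : ({u, a, b, c} : Finset V) = ({0, 2, 3, 4} : Finset (Fin 5)).map x := by
    simp [Finset.map_insert, e0, e2, e3, e4]
  have s8 : ({v, a, b, c} : Finset V) = ({1, 2, 3, 4} : Finset (Fin 5)).map x := by
    simp [Finset.map_insert, e1, e2, e3, e4]
  have hd : pull (del A u v) x = del (pull A x) 0 1 := by
    rw [← pull_del, e0, e1]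
  have hc : pull (con A u v) x = con (pull A x) 0 1 := by
    rw [← pull_con, e0, e1]
  rw [s0, s1, s2, s3, s4, s5, s6, s7, s8]
  simp only [reg_map, z3_map, hd, hc]
  have k : ∀ S : Finset (Fin 5), S.card = 4 → reg (pull A x) 3 S = 0 := by
    intro S hS
    rw [← reg_map]
    exact k4 _ (by rw [Finset.card_map, hS])
  have k1 := k {0, 1, 2, 3} (by decide)
  have k2 := k {0, 1, 2, 4} (by decide)
  have k3 := k {0, 1, 3, 4} (by decide)
  have k5 := k {0, 2, 3, 4} (by decide)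
  have k6 := k {1, 2, 3, 4} (by decide)
  have hm := mk5_eq (pull A x) (hA.pull x).symm (hA.pull x).irr
  have h01 : pull A x 0 1 = true := huv
  rw [h01] at hm
  have := check5_all (pull A x 0 2) (pull A x 0 3) (pull A x 0 4) (pull A x 1 2) (pull A x 1 3)
    (pull A x 1 4) (pull A x 2 3) (pull A x 2 4) (pull A x 3 4)
  rw [← hm] at this
  simp only [check5, k1, k2, k3, k5, k6, bne_self_eq_false, Bool.false_or, beq_iff_eq] at this
  exact this

end Pool.Agent.K3h1.Chr
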