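import Mathlib

set_option autoImplicit false

namespace Pool.Agent.K3h1.Chr

open Finset

/-- proper colourings of `T` with colours in `P` -/
def TC {W C : Type} (T : SimpleGraph W) (P : Set C) : Type :=
  {ψ : W → C // (∀ a b, T.Adj a b → ψ a ≠ ψ b) ∧ ∀ a, ψ a ∈ P}

theorem card_ne {C : Type} [Finite C] (P : Set C) {y : C} (hy : y ∈ P) :
    Nat.card {x : C // x ∈ P ∧ x ≠ y} = Nat.card P - 1 := by
  classical
  have := Fintype.ofFinite C
  have h1 : Nat.card {x : C // x ∈ P ∧ x ≠ y} = (P \ {y}).ncard := by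
    rw [← Nat.card_coe_set_eq]
    rfl
  rw [h1, Set.ncard_sdiff_singleton_of_mem hy, Nat.card_coe_set_eq]

/-- peeling off a leaf -/
noncomputable def leafEquiv {W C : Type} (T : SimpleGraph W) (P : Set C) (v u : W) (huv : T.Adj v u)
    (hu : ∀ w, T.Adj v w → w = u) (hne : u ∈ ({v}ᶜ : Set W)) :
    TC T P ≃ {p : TC (T.induce ({v}ᶜ : Set W)) P × C // p.2 ∈ P ∧ p.2 ≠ p.1.1 ⟨u, hne⟩} := by
  classical
  refine ⟨fun ψ => ⟨(⟨fun w => ψ.1 w.1, fun a b hab => ψ.2.1 _ _ hab, fun a => ψ.2.2 _⟩,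
    ψ.1 v), ⟨ψ.2.2 v, ψ.2.1 _ _ huv⟩⟩,
    fun p => ⟨fun w => if h : w = v then p.1.2 else p.1.1.1 ⟨w, h⟩, ?_, ?_⟩, ?_, ?_⟩
  · intro a b hab
    by_cases ha : a = v
    · subst ha
      have hb : b ≠ a := hab.ne.symm
      have := hu b hab
      subst this
      simp only [dif_neg hb, ↓reduceDIte]
      exact p.2.2
    · by_cases hb : b = v
      · subst hb
        have := hu a hab.symm
        subst this
        simp only [dif_neg ha, ↓reduceDIte]
        exact p.2.2.symm
      · simp only [dif_neg ha, dif_neg hb]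
        exact p.1.1.2.1 ⟨a, ha⟩ ⟨b, hb⟩ hab
  · intro a
    by_cases ha : a = v
    · simp only [dif_pos ha]; exact p.2.1
    · simp only [dif_neg ha]; exact p.1.1.2.2 _
  · intro ψ
    apply Subtype.ext
    funext w
    by_cases hw : w = v
    · subst hw; simp
    · simp [hw]
  · rintro ⟨⟨⟨ψ, h1, h2⟩, x⟩, ⟨hx1, hx2⟩⟩
    have e : (fun w : ({v}ᶜ : Set W) => if h : (w : W) = v then x else ψ ⟨w, h⟩) = ψ := by
      funext w
      have : (w : W) ≠ v := w.2
      simp [this]
    apply Subtype.ext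
    apply Prod.ext
    · apply Subtype.ext; exact e
    · simp

theorem tree_count (n : ℕ) : ∀ (W : Type) [Fintype W] (T : SimpleGraph W), T.IsTree →
    Fintype.card W = n + 1 → ∀ (C : Type) [Finite C] (P : Set C),
    Nat.card (TC T P) = Nat.card P * (Nat.card P - 1) ^ n := by
  classical
  induction n with
  | zero =>
    intro W _ T hT hW C _ P
    obtain ⟨w, hw⟩ := Fintype.card_eq_one_iff.1 hW
    rw [pow_zero, mul_one]
    refine Nat.card_congr ⟨fun ψ => ⟨ψ.1 w, ψ.2.2 w⟩, fun x => ⟨fun _ => x.1, ?_, fun _ => x.2⟩,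
      ?_, ?_⟩
    · intro a b hab
      exact absurd ((hw a).trans (hw b).symm) hab.ne
    · intro ψ
      apply Subtype.ext
      funext a
      rw [hw a]
    · intro x; rfl
  | succ n ih =>
    intro W _ T hT hW C _ P
    have : Nontrivial W := by
      rw [← Fintype.one_lt_card_iff_nontrivial, hW]; omega
    obtain ⟨v, hv⟩ := hT.exists_vert_degree_one_of_nontrivial
    obtain ⟨u, huv, hu⟩ := SimpleGraph.degree_eq_one_iff_existsUnique_adj.1 hv
    have hT' : (T.induce ({v}ᶜ : Set W)).IsTree :=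
      ⟨hT.connected.induce_compl_singleton_of_degree_eq_one hv, hT.isAcyclic.induce _⟩
    have hW' : Fintype.card (({v}ᶜ : Set W)) = n + 1 := by
      rw [Fintype.card_compl_set, hW]; simp
    have hrec := ih _ _ hT' hW' C P
    have hne : u ∈ ({v}ᶜ : Set W) := by
      rintro (rfl : u = v); exact huv.ne rfl
    rw [Nat.card_congr (leafEquiv T P v u huv (fun w hw => hu w hw) hne),
      Nat.card_congr (Equiv.subtypeProdEquivSigmaSubtype
        (fun (ψ : TC (T.induce ({v}ᶜ : Set W)) P) (x : C) => x ∈ P ∧ x ≠ ψ.1 ⟨u, hne⟩))]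
    have : Finite (TC (T.induce ({v}ᶜ : Set W)) P) := by unfold TC; infer_instance
    have := Fintype.ofFinite (TC (T.induce ({v}ᶜ : Set W)) P)
    rw [Nat.card_sigma]
    rw [Finset.sum_congr rfl (fun ψ _ => card_ne P (ψ.2.2 _)), Finset.sum_const, Finset.card_univ,
      smul_eq_mul, ← Nat.card_eq_fintype_card, hrec, pow_succ]
    ring

/-- the join of an edgeless graph and a graph -/
def joinG (s r : ℕ) (T : SimpleGraph (Fin r)) : SimpleGraph (Fin s ⊕ Fin r) :=
  SimpleGraph.fromRel (fun a b : Fin s ⊕ Fin r =>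
    (∃ x y, a = Sum.inr x ∧ b = Sum.inr y ∧ T.Adj x y) ∨ ∃ x y, a = Sum.inl x ∧ b = Sum.inr y)

theorem joinG_ll {s r : ℕ} {T : SimpleGraph (Fin r)} (x y : Fin s) :
    ¬ (joinG s r T).Adj (Sum.inl x) (Sum.inl y) := by
  simp [joinG, SimpleGraph.fromRel_adj]

theorem joinG_lr {s r : ℕ} {T : SimpleGraph (Fin r)} (x : Fin s) (y : Fin r) :
    (joinG s r T).Adj (Sum.inl x) (Sum.inr y) := by
  simp [joinG, SimpleGraph.fromRel_adj]

theorem joinG_rl {s r : ℕ} {T : SimpleGraph (Fin r)} (x : Fin s) (y : Fin r) :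
    (joinG s r T).Adj (Sum.inr y) (Sum.inl x) := (joinG_lr x y).symm

theorem joinG_rr {s r : ℕ} {T : SimpleGraph (Fin r)} (x y : Fin r) :
    (joinG s r T).Adj (Sum.inr x) (Sum.inr y) ↔ T.Adj x y := by
  simp only [joinG, SimpleGraph.fromRel_adj]
  constructor
  · rintro ⟨_, (h | h) | (h | h)⟩
    · obtain ⟨a, b, ha, hb, hab⟩ := h
      cases ha; cases hb; exact hab
    · obtain ⟨a, b, ha, hb⟩ := h; cases ha
    · obtain ⟨a, b, ha, hb, hab⟩ := h
      cases ha; cases hb; exact hab.symm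
    · obtain ⟨a, b, ha, hb⟩ := h; cases ha
  · intro h
    refine ⟨fun hh => h.ne (Sum.inr_injective hh), Or.inl (Or.inl ⟨x, y, rfl, rfl, h⟩)⟩

/-- colourings of the join -/
def joinEquiv (s r q : ℕ) (T : SimpleGraph (Fin r)) :
    (joinG s r T).Coloring (Fin q) ≃ Σ φ : Fin s → Fin q, TC T ((Set.range φ)ᶜ) := by
  refine ⟨fun c => ⟨fun x => c (Sum.inl x), ⟨fun y => c (Sum.inr y), ?_, ?_⟩⟩,
    fun p => SimpleGraph.Coloring.mk (Sum.elim p.1 p.2.1) ?_, ?_, ?_⟩
  · intro a b hab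
    exact c.valid ((joinG_rr a b).2 hab)
  · rintro a ⟨x, hx⟩
    exact c.valid (joinG_lr x a) hx
  · intro a b hab
    rcases a with a | a <;> rcases b with b | b
    · exact absurd hab (joinG_ll a b)
    · simp only [Sum.elim_inl, Sum.elim_inr]
      intro h
      exact p.2.2.2 b ⟨a, h⟩
    · simp only [Sum.elim_inl, Sum.elim_inr]
      intro h
      exact p.2.2.2 a ⟨b, h.symm⟩
    · simp only [Sum.elim_inr]
      exact p.2.2.1 a b ((joinG_rr a b).1 hab)
  · intro c
    ext v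
    rcases v with v | v <;> rfl
  · rintro ⟨φ, ψ⟩; rfl

theorem join_count (s n q : ℕ) {T T' : SimpleGraph (Fin (n + 1))} (hT : T.IsTree) (hT' : T'.IsTree) :
    Nat.card ((joinG s (n + 1) T).Coloring (Fin q))
      = Nat.card ((joinG s (n + 1) T').Coloring (Fin q)) := by
  classical
  rw [Nat.card_congr (joinEquiv s (n + 1) q T), Nat.card_congr (joinEquiv s (n + 1) q T')]
  have h1 : ∀ φ : Fin s → Fin q, Finite (TC T ((Set.range φ)ᶜ)) := fun φ => by
    unfold TC; infer_instance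
  have h2 : ∀ φ : Fin s → Fin q, Finite (TC T' ((Set.range φ)ᶜ)) := fun φ => by
    unfold TC; infer_instance
  rw [Nat.card_sigma, Nat.card_sigma]
  refine Finset.sum_congr rfl fun φ _ => ?_
  rw [tree_count n _ T hT (by simp) _ _, tree_count n _ T' hT' (by simp) _ _]

theorem coloring_iso {V W : Type} {G : SimpleGraph V} {H : SimpleGraph W} (e : G ≃g H) (q : ℕ) :
    Nat.card (G.Coloring (Fin q)) = Nat.card (H.Coloring (Fin q)) := by
  refine Nat.card_congr ⟨fun c => c.comp e.symm.toHom, fun c => c.comp e.toHom, ?_, ?_⟩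
  · intro c
    ext v
    simp
  · intro c
    ext v
    simp

end Pool.Agent.K3h1.Chr
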