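import Pool.Agent.K3h1.Chr.JStats
import Pool.Agent.K3h1.Chr.TreeCol

set_option autoImplicit false
set_option linter.unusedSectionVars false

namespace Pool.Agent.K3h1.Chr

open Finset

theorem NN_eq {V : Type} [DecidableEq V] [Fintype V] {A : V → V → Bool} {G : SimpleGraph V}
    (h : ∀ a b, A a b = true ↔ G.Adj a b) (q : ℕ) : NN A q = Nat.card (G.Coloring (Fin q)) := by
  unfold NN
  rw [← Fintype.card_coe, ← Nat.card_eq_fintype_card]
  refine Nat.card_congr ⟨fun c => SimpleGraph.Coloring.mk c.1 ?_, fun c => ⟨c, ?_⟩, ?_, ?_⟩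
  · intro a b hab
    exact mem_colS.1 c.2 a b ((h a b).2 hab)
  · rw [mem_colS]
    intro a b hab
    exact c.valid ((h a b).1 hab)
  · intro c; rfl
  · intro c; rfl

theorem iso_of_full {V : Type} [DecidableEq V] [Fintype V] {A : V → V → Bool} (hA : Sym A)
    {G : SimpleGraph V} (h : ∀ a b, A a b = true ↔ G.Adj a b) {c : V → Fin 3} (hc : c ∈ colS A 3)
    {i : Fin 3} (hfull : ∀ x y, c x = i → c y ≠ i → A x y = true) (htree : (Gk A hA c i).IsTree)
    {s r : ℕ} (hs : ((univ : Finset V).filter fun v => c v = i).card = s) (hr : nk c i = r) :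
    ∃ T : SimpleGraph (Fin r), T.IsTree ∧ Nonempty (G ≃g joinG s r T) := by
  classical
  have hc' := mem_colS.1 hc
  have e1 : Fintype.card {v : V // c v = i} = s := by
    rw [Fintype.card_subtype]; exact hs
  have e2 : Fintype.card {v : V // ¬ c v = i} = r := by
    rw [Fintype.card_subtype]; exact hr
  let f1 : {v : V // c v = i} ≃ Fin s := Fintype.equivFinOfCardEq e1
  let f2 : {v : V // ¬ c v = i} ≃ Fin r := Fintype.equivFinOfCardEq e2
  let T : SimpleGraph (Fin r) := (Gk A hA c i).comap f2.symm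
  have isoT : T ≃g Gk A hA c i := SimpleGraph.Iso.comap f2.symm (Gk A hA c i)
  refine ⟨T, (SimpleGraph.Iso.isTree_iff isoT).2 htree, ⟨?_⟩⟩
  let e : V ≃ Fin s ⊕ Fin r := (Equiv.sumCompl (fun v => c v = i)).symm.trans (Equiv.sumCongr f1 f2)
  have he1 : ∀ v (hv : c v = i), e v = Sum.inl (f1 ⟨v, hv⟩) := by
    intro v hv
    simp only [e, Equiv.trans_apply]
    rw [Equiv.sumCompl_symm_apply_of_pos (p := fun v => c v = i) hv]
    rfl
  have he2 : ∀ v (hv : ¬ c v = i), e v = Sum.inr (f2 ⟨v, hv⟩) := by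
    intro v hv
    simp only [e, Equiv.trans_apply]
    rw [Equiv.sumCompl_symm_apply_of_neg (p := fun v => c v = i) hv]
    rfl
  refine ⟨e, ?_⟩
  intro a b
  by_cases ha : c a = i <;> by_cases hb : c b = i
  · rw [he1 a ha, he1 b hb]
    constructor
    · intro hh; exact absurd hh (joinG_ll _ _)
    · intro hh; exact absurd (ha.trans hb.symm) (hc' _ _ ((h a b).2 hh))
  · rw [he1 a ha, he2 b hb]
    constructor
    · intro _; exact (h a b).1 (hfull a b ha hb)
    · intro _; exact joinG_lr _ _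
  · rw [he2 a ha, he1 b hb]
    constructor
    · intro _; exact ((h b a).1 (hfull b a hb ha)).symm
    · intro _; exact joinG_rl _ _
  · rw [he2 a ha, he2 b hb, joinG_rr]
    simp only [T, SimpleGraph.comap_adj, Equiv.symm_apply_apply]
    exact h a b

/-- the sizes -/
theorem sizes {n m s r : ℤ} (h1 : s + r = n + m + 1) (h2 : s * (r - 1) = n * m) :
    (s = n ∧ r = m + 1) ∨ (s = m ∧ r = n + 1) := by
  have hr : r = n + m + 1 - s := by linarith
  subst hr
  have : (s - n) * (s - m) = 0 := by linarith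
  rcases mul_eq_zero.1 this with h | h
  · left; constructor <;> linarith
  · right; constructor <;> linarith

theorem vec_sum (n m : ℕ) :
    ((T2 (AJ ![1, n, m])).card : ℤ) = 2 * (n + m + n * m) ∧
    ((T3 (AJ ![1, n, m])).card : ℤ) = 6 * (n * m) ∧
    ((T4 (AJ ![1, n, m])).card : ℤ) = 2 * (n * (n - 1) * (m * (m - 1))) ∧
    (Fintype.card (VJ ![1, n, m]) : ℤ) = n + m + 1 := by
  refine ⟨?_, ?_, ?_, ?_⟩
  · rw [card_T2J]
    simp [Fin.sum_univ_three]
    ring
  · rw [card_T3J]
    simp [Fin.sum_univ_three]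
    ring
  · rw [card_T4J]
    simp [Fin.sum_univ_three]
    ring
  · rw [card_VJ]
    simp [Fin.sum_univ_three]
    ring

theorem forward {n m : ℕ} (hn : 2 ≤ n) (hm : 2 ≤ m) {V : Type} [DecidableEq V] [Fintype V]
    {G : SimpleGraph V} {A : V → V → Bool} (hAG : ∀ a b, A a b = true ↔ G.Adj a b) (hA : Sym A)
    (hNN : ∀ q, NN A q = NN (AJ ![1, n, m]) q) :
    (∃ T : SimpleGraph (Fin (m + 1)), T.IsTree ∧ Nonempty (G ≃g joinG n (m + 1) T)) ∨
    (∃ T : SimpleGraph (Fin (n + 1)), T.IsTree ∧ Nonempty (G ≃g joinG m (n + 1) T)) := by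
  have hpos : ∀ i, 0 < (![1, n, m] : Fin 3 → ℕ) i := by
    intro i; fin_cases i
    · simp
    · change 0 < n; omega
    · change 0 < m; omega
  have h3 : NN A 3 = 6 := by rw [hNN]; exact NNJ_three _ hpos
  have h2 : NN A 2 = 0 := by rw [hNN]; exact NNJ_two _ hpos
  obtain ⟨c, hc⟩ : (colS A 3).Nonempty := by
    rw [← Finset.card_pos]
    change 0 < NN A 3
    rw [h3]; norm_num
  have hconn := fun k => Gk_connected hA h2 h3 hc k
  have hkA := k4free_of_col hA hc
  have hkJ := k4free_of_col (AJ_sym ![1, n, m]) (fst_mem_colS ![1, n, m])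
  obtain ⟨cV, c21, c32, c42, czz⟩ := compare hA (AJ_sym ![1, n, m]) hNN hkA hkJ
  obtain ⟨v2, v3, v4, vN⟩ := vec_sum n m
  have hzJ := zzJ ![1, n, m] rfl
  have hz : zz A = ((Fintype.card V : ℤ) + 4) * cnt A 4 2 := by
    rw [czz, hzJ, cV, c42]
  have t2 : ((T2 A).card : ℤ) = 2 * (n + m + n * m) := by
    rw [card_T2 hA, c21, ← card_T2 (AJ_sym _), v2]
  have t3 : ((T3 A).card : ℤ) = 6 * (n * m) := by
    rw [card_T3 hA, c32, ← card_T3 (AJ_sym _), v3]
  have t4 : ((T4 A).card : ℤ) = 2 * (n * (n - 1) * (m * (m - 1))) := by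
    rw [card_T4 hA, c42, ← card_T4 (AJ_sym _), v4]
  have tN : (Fintype.card V : ℤ) = n + m + 1 := by rw [cV, vN]
  have t4' := card_T4 hA
  have hnum : 48 * cnt A 4 2 = (T3 A).card * ((T2 A).card - 4 * Fintype.card V + 6) := by
    have : 48 * cnt A 4 2 = 6 * (8 * cnt A 4 2) := by ring
    rw [this, ← t4', t4, t3, t2, tN]
    ring
  obtain ⟨hR, _⟩ := tight hA hc hconn hz hnum
  have hLS : (LS A c).Nonempty := by
    have k1 := key1 hA hz
    have k2 := key2 hA hc
    have c0 := cnt_nonneg A 5 2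
    have hpos4 : 0 < ((T4 A).card : ℤ) := by
      rw [t4]
      have a1 : (2 : ℤ) ≤ n := by exact_mod_cast hn
      have a2 : (2 : ℤ) ≤ m := by exact_mod_cast hm
      have a3 : (0 : ℤ) < n := by linarith
      have a4 : (0 : ℤ) < m := by linarith
      have a5 : (0 : ℤ) < (n : ℤ) - 1 := by linarith
      have a6 : (0 : ℤ) < (m : ℤ) - 1 := by linarith
      positivity
    rw [← Finset.card_pos]
    have : (0 : ℤ) < (LS A c).card := by
      rw [hR] at k1
      linarith
    exact_mod_cast this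
  obtain ⟨i, htwo, hfull⟩ := exists_full_class hA hc (opp_of_Rbad hR) hLS
  obtain ⟨htree, hcount⟩ := tree_of_full hA hc hconn htwo hfull (by rw [t2, t3, tN]; ring)
  have hadd := card_class_add c i
  have hadd' : (((univ : Finset V).filter fun v => c v = i).card : ℤ) + nk c i = n + m + 1 := by
    rw [← tN]; exact_mod_cast hadd
  have hmul : (((univ : Finset V).filter fun v => c v = i).card : ℤ) * (nk c i - 1) = n * m := by
    rw [t3] at hcount; linarith
  rcases sizes hadd' hmul with ⟨g1, g2⟩ | ⟨g1, g2⟩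
  · left
    exact iso_of_full hA hAG hc hfull htree (by exact_mod_cast g1) (by exact_mod_cast g2)
  · right
    exact iso_of_full hA hAG hc hfull htree (by exact_mod_cast g1) (by exact_mod_cast g2)

/-- the complete tripartite graph itself is in both halves of the class -/
theorem J_forms {n m : ℕ} (hn : 2 ≤ n) (hm : 2 ≤ m) {G : SimpleGraph (VJ ![1, n, m])}
    (hG : ∀ a b, AJ ![1, n, m] a b = true ↔ G.Adj a b) :
    (∃ T : SimpleGraph (Fin (m + 1)), T.IsTree ∧ Nonempty (G ≃g joinG n (m + 1) T)) ∧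
    (∃ T : SimpleGraph (Fin (n + 1)), T.IsTree ∧ Nonempty (G ≃g joinG m (n + 1) T)) := by
  have hpos : ∀ i, 0 < (![1, n, m] : Fin 3 → ℕ) i := by
    intro i; fin_cases i
    · simp
    · change 0 < n; omega
    · change 0 < m; omega
  have h3 := NNJ_three ![1, n, m] hpos
  have h2 := NNJ_two ![1, n, m] hpos
  have hA := AJ_sym ![1, n, m]
  have hc := fst_mem_colS ![1, n, m]
  have hconn := fun k => Gk_connected hA h2 h3 hc k
  obtain ⟨v2, v3, v4, vN⟩ := vec_sum n m
  have hfull : ∀ i : Fin 3, ∀ x y : VJ ![1, n, m], (fun v : VJ ![1, n, m] => v.1) x = i →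
      (fun v : VJ ![1, n, m] => v.1) y ≠ i → AJ ![1, n, m] x y = true := by
    intro i x y hx hy
    rw [AJ_true]
    rw [← hx] at hy
    exact hy.symm
  have htwo1 : ∃ x x' : VJ ![1, n, m], x ≠ x' ∧ (fun v : VJ ![1, n, m] => v.1) x = 1 ∧
      (fun v : VJ ![1, n, m] => v.1) x' = 1 := by
    refine ⟨⟨1, ⟨0, ?_⟩⟩, ⟨1, ⟨1, ?_⟩⟩, ?_, rfl, rfl⟩
    · change 0 < n; omega
    · change 1 < n; omega
    · intro h
      simp only [Sigma.mk.injEq, heq_eq_eq, true_and] at h
      have := congrArg Fin.val h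
      simp at this
  have htwo2 : ∃ x x' : VJ ![1, n, m], x ≠ x' ∧ (fun v : VJ ![1, n, m] => v.1) x = 2 ∧
      (fun v : VJ ![1, n, m] => v.1) x' = 2 := by
    refine ⟨⟨2, ⟨0, ?_⟩⟩, ⟨2, ⟨1, ?_⟩⟩, ?_, rfl, rfl⟩
    · change 0 < m; omega
    · change 1 < m; omega
    · intro h
      simp only [Sigma.mk.injEq, heq_eq_eq, true_and] at h
      have := congrArg Fin.val h
      simp at this
  have hnum : 3 * ((T2 (AJ ![1, n, m])).card : ℤ) - (T3 (AJ ![1, n, m])).card
      = 6 * ((Fintype.card (VJ ![1, n, m]) : ℤ) - 1) := by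
    rw [v2, v3, vN]; ring
  have hclass : ∀ i : Fin 3, (((univ : Finset (VJ ![1, n, m])).filter
      fun v => (fun v : VJ ![1, n, m] => v.1) v = i).card : ℤ) = (![1, n, m] : Fin 3 → ℕ) i := by
    intro i
    rw [Finset.card_filter]
    push_cast
    have := sum_fst ![1, n, m] (fun j => if j = i then 1 else 0)
    rw [this]
    simp
  obtain ⟨tree1, _⟩ := tree_of_full hA hc hconn htwo1 (hfull 1) hnum
  obtain ⟨tree2, _⟩ := tree_of_full hA hc hconn htwo2 (hfull 2) hnum
  have a1 := card_class_add (fun v : VJ ![1, n, m] => v.1) 1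
  have a2 := card_class_add (fun v : VJ ![1, n, m] => v.1) 2
  have c1 := hclass 1
  have c2 := hclass 2
  have c1' : ((univ : Finset (VJ ![1, n, m])).filter
      fun v => (fun v : VJ ![1, n, m] => v.1) v = 1).card = n := by exact_mod_cast c1
  have c2' : ((univ : Finset (VJ ![1, n, m])).filter
      fun v => (fun v : VJ ![1, n, m] => v.1) v = 2).card = m := by exact_mod_cast c2
  have vN' : Fintype.card (VJ ![1, n, m]) = n + m + 1 := by exact_mod_cast vN
  constructor
  · exact iso_of_full hA hG hc (hfull 1) tree1 c1' (by rw [c1', vN'] at a1; omega)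
  · exact iso_of_full hA hG hc (hfull 2) tree2 c2' (by rw [c2', vN'] at a2; omega)

end Pool.Agent.K3h1.Chr
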