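import Pool.Agent.K3h1.Chr.Recur

set_option autoImplicit false
set_option linter.unusedSectionVars false

namespace Pool.Agent.K3h1.Chr

open Finset

variable {V : Type*} [DecidableEq V] [Fintype V]

/-- proper colourings as functions -/
def colS (A : V → V → Bool) (q : ℕ) : Finset (V → Fin q) :=
  univ.filter fun c => ∀ a b, A a b = true → c a ≠ c b

def NN (A : V → V → Bool) (q : ℕ) : ℕ := (colS A q).card

theorem mem_colS {A : V → V → Bool} {q : ℕ} {c : V → Fin q} :
    c ∈ colS A q ↔ ∀ a b, A a b = true → c a ≠ c b := by
  simp [colS]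

section
variable {A : V → V → Bool} (hA : Sym A) {u v : V} (huv : A u v = true)
include hA huv

theorem NN_del (q : ℕ) : NN (del A u v) q
    = NN A q + ((colS (del A u v) q).filter fun c => c u = c v).card := by
  have h1 : NN A q = ((colS (del A u v) q).filter fun c => ¬ c u = c v).card := by
    unfold NN
    congr 1
    ext c
    rw [Finset.mem_filter, mem_colS, mem_colS]
    constructor
    · intro h
      refine ⟨fun a b hab => h a b ?_, h u v huv⟩
      unfold del at hab
      exact (Bool.and_eq_true_iff.1 hab).1
    · rintro ⟨h, h2⟩ a b hab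
      by_cases hd : (a = u ∧ b = v) ∨ (a = v ∧ b = u)
      · rcases hd with ⟨rfl, rfl⟩ | ⟨rfl, rfl⟩
        · exact h2
        · exact fun h3 => h2 h3.symm
      · apply h a b
        unfold del
        rw [hab]
        simp only [Bool.true_and, Bool.not_eq_true', Bool.or_eq_false_iff, Bool.and_eq_false_iff,
          beq_eq_false_iff_ne]
        tauto
  rw [h1, add_comm]
  exact (Finset.card_filter_add_card_filter_not _).symm

theorem NN_con (q : ℕ) : NN (con A u v) q
    = ((colS (del A u v) q).filter fun c => c u = c v).card * q := by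
  have huv' := ne_of_adj hA huv
  have : (((colS (del A u v) q).filter fun c => c u = c v) ×ˢ (univ : Finset (Fin q))).card
      = ((colS (del A u v) q).filter fun c => c u = c v).card * q := by
    rw [Finset.card_product, Finset.card_univ, Fintype.card_fin]
  rw [← this]
  unfold NN
  refine Finset.card_bij' (fun c _ => (Function.update c v (c u), c v))
    (fun p _ => Function.update p.1 v p.2) ?_ ?_ ?_ ?_
  · intro c hc
    rw [mem_colS] at hc
    simp only [Finset.mem_product, Finset.mem_filter, Finset.mem_univ, and_true]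
    refine ⟨?_, ?_⟩
    · rw [mem_colS]
      intro a b hab
      unfold del at hab
      rw [Bool.and_eq_true_iff] at hab
      obtain ⟨hab, hn⟩ := hab
      simp only [Bool.not_eq_true', Bool.or_eq_false_iff, Bool.and_eq_false_iff,
        beq_eq_false_iff_ne] at hn
      have hne : a ≠ b := by rintro rfl; rw [hA.irr] at hab; exact absurd hab (by simp)
      by_cases ha : a = v
      · subst ha
        have hb : b ≠ u := by
          rcases hn.2 with h | h
          · exact absurd rfl h
          · exact h
        rw [Function.update_self, Function.update_of_ne hne.symm]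
        apply hc u b
        unfold con
        rw [if_neg (by push Not; exact ⟨huv', hne.symm, hb.symm⟩), if_pos rfl, hab]
        simp
      · by_cases hb : b = v
        · subst hb
          have ha' : a ≠ u := by
            rcases hn.1 with h | h
            · exact h
            · exact absurd rfl h
          rw [Function.update_self, Function.update_of_ne hne]
          apply hc a u
          unfold con
          rw [if_neg (by push Not; exact ⟨ha, huv', ha'⟩), if_neg ha', if_pos rfl, hab]
          simp
        · rw [Function.update_of_ne ha, Function.update_of_ne hb]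
          apply hc a b
          unfold con
          rw [if_neg (by push Not; exact ⟨ha, hb, hne⟩)]
          by_cases h1 : a = u
          · rw [if_pos h1, ← h1, hab]; rfl
          · rw [if_neg h1]
            by_cases h2 : b = u
            · rw [if_pos h2, ← h2, hab]; rfl
            · rw [if_neg h2, hab]
    · rw [Function.update_self, Function.update_of_ne huv']
  · rintro ⟨c, z⟩ hc
    simp only [Finset.mem_product, Finset.mem_filter, Finset.mem_univ, and_true] at hc
    obtain ⟨hc, hcu⟩ := hc
    rw [mem_colS] at hc ⊢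
    intro a b hab
    unfold con at hab
    by_cases h : a = v ∨ b = v ∨ a = b
    · rw [if_pos h] at hab; exact absurd hab (by simp)
    · rw [if_neg h] at hab
      push Not at h
      obtain ⟨ha, hb, hne⟩ := h
      simp only [Function.update_of_ne ha, Function.update_of_ne hb]
      by_cases h1 : a = u
      · rw [if_pos h1, Bool.or_eq_true_iff] at hab
        subst h1
        rcases hab with hab | hab
        · apply hc a b
          unfold del
          rw [hab]
          simp [hb, ha]
        · rw [hcu]
          apply hc v b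
          unfold del
          rw [hab]
          simp [hb, hne.symm]
      · rw [if_neg h1] at hab
        by_cases h2 : b = u
        · rw [if_pos h2, Bool.or_eq_true_iff] at hab
          subst h2
          rcases hab with hab | hab
          · apply hc a b
            unfold del
            rw [hab]
            simp [ha, h1]
          · rw [hcu]
            apply hc a v
            unfold del
            rw [hab]
            simp [ha, h1]
        · rw [if_neg h2] at hab
          apply hc a b
          unfold del
          rw [hab]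
          simp [h1, h2]
  · intro c hc
    simp only [Function.update_idem, Function.update_eq_self]
  · rintro ⟨c, z⟩ hc
    simp only [Finset.mem_product, Finset.mem_filter, Finset.mem_univ, and_true] at hc
    simp only [Function.update_self, Function.update_idem, Prod.mk.injEq, and_true]
    rw [Function.update_of_ne huv', hc.2, Function.update_eq_self]

end

/-- the coefficient formulas -/
structure Good (A : V → V → Bool) (Φ : Polynomial ℚ) : Prop where
  ev : ∀ q : ℕ, 1 ≤ q → (NN A q : ℚ) = (q : ℚ) ^ Fintype.card V * Φ.eval (1 / (q : ℚ))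
  c0 : Φ.coeff 0 = 1
  c1 : Φ.coeff 1 = - (cnt A 2 1 : ℚ)
  c2 : Φ.coeff 2 = (cnt A 2 1 : ℚ) * (cnt A 2 1 - 1) / 2 - cnt A 3 2
  c3 : Φ.coeff 3 = - ((cnt A 2 1 : ℚ) * (cnt A 2 1 - 1) * (cnt A 2 1 - 2) / 6)
    + (cnt A 2 1 - 2) * cnt A 3 2 + cnt A 4 2 - 2 * cnt A 4 3
  c4 : cnt A 4 3 = 0 → Φ.coeff 4 =
    (cnt A 2 1 : ℚ) * (cnt A 2 1 - 1) * (cnt A 2 1 - 2) * (cnt A 2 1 - 3) / 24
    - (cnt A 2 1 - 2) * (cnt A 2 1 - 3) / 2 * cnt A 3 2 + cnt A 3 2 * (cnt A 3 2 - 1) / 2
    - (cnt A 2 1 - 3) * cnt A 4 2 + zz A / 3

theorem reg_empty {A : V → V → Bool} (h : ∀ a b, A a b = false) {r : ℕ} (hr : r ≠ 0)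
    {S : Finset V} (hS : S.Nonempty) : reg A r S = 0 := by
  obtain ⟨x, hx⟩ := hS
  refine reg_eq_zero_of hx ?_
  have : dg A S x = 0 := by
    unfold dg
    exact Finset.sum_eq_zero fun w _ => by rw [h]; rfl
  rw [this]; exact fun h => hr h.symm

theorem cnt_empty {A : V → V → Bool} (h : ∀ a b, A a b = false) {r k : ℕ} (hr : r ≠ 0)
    (hk : k ≠ 0) : cnt A k r = 0 := by
  unfold cnt
  refine Finset.sum_eq_zero fun S hS => reg_empty h hr ?_
  rw [← Finset.card_pos, (Finset.mem_powersetCard.1 hS).2]
  omega

theorem good_empty {A : V → V → Bool} (h : ∀ a b, A a b = false) : Good A 1 := by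
  have hz : zz A = 0 := by
    unfold zz
    refine Finset.sum_eq_zero fun S hS => ?_
    have hc := (Finset.mem_powersetCard.1 hS).2
    unfold z3
    rw [reg_empty h (by norm_num) (Finset.card_pos.1 (by omega)), Finset.sum_eq_zero]
    · simp
    · intro x hx
      rw [reg_empty h (by norm_num), zero_mul]
      rw [← Finset.card_pos, Finset.card_erase_of_mem hx]; omega
  have e1 := cnt_empty h (r := 1) (k := 2) (by norm_num) (by norm_num)
  have e2 := cnt_empty h (r := 2) (k := 3) (by norm_num) (by norm_num)
  have e3 := cnt_empty h (r := 2) (k := 4) (by norm_num) (by norm_num)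
  have e4 := cnt_empty h (r := 3) (k := 4) (by norm_num) (by norm_num)
  refine ⟨?_, ?_, ?_, ?_, ?_, ?_⟩
  · intro q _
    have : NN A q = q ^ Fintype.card V := by
      unfold NN colS
      rw [Finset.filter_true_of_mem]
      · rw [Finset.card_univ, Fintype.card_fun, Fintype.card_fin]
      · intro c _ a b hab
        rw [h] at hab; exact absurd hab (by simp)
    rw [this]; simp
  · simp
  · rw [e1]; simp [Polynomial.coeff_one]
  · rw [e1, e2]; simp [Polynomial.coeff_one]
  · rw [e1, e2, e3, e4]; simp [Polynomial.coeff_one]
  · intro _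
    rw [e1, e2, e3, hz]; simp [Polynomial.coeff_one]

theorem two_tt (A : V → V → Bool) (u v : V) :
    (tt A u v 2 : ℚ) = (tau A u v : ℚ) * (tau A u v - 1) / 2 := by
  rw [tt_eq, tau_eq]
  push_cast
  rw [Nat.cast_choose_two]

theorem three_tt (A : V → V → Bool) (u v : V) :
    (tt A u v 3 : ℚ) = (tau A u v : ℚ) * (tau A u v - 1) * (tau A u v - 2) / 6 := by
  rw [tt_eq, tau_eq]
  push_cast
  set n := ((rest u v).filter fun w => reg A 2 {u, v, w} = 1).card
  have h : (n.choose 3 : ℚ) * 6 = n * (n - 1) * (n - 2) := by
    have h1 := Nat.descFactorial_eq_factorial_mul_choose n 3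
    have h2 : (n.descFactorial 3 : ℚ) = n * (n - 1) * (n - 2) := by
      rcases n with _ | _ | n
      · simp [Nat.descFactorial]
      · simp [Nat.descFactorial]
      · have : (n + 1 + 1).descFactorial 3 = (n + 1 + 1) * (n + 1) * n := by
          simp [Nat.descFactorial]; ring
        rw [this]; push_cast; ring
    rw [← h2, h1]
    push_cast
    norm_num [Nat.factorial]
    ring
  linarith

theorem good_step {A : V → V → Bool} (hA : Sym A) {u v : V} (huv : A u v = true)
    {Φ Ψ : Polynomial ℚ} (h1 : Good (del A u v) Φ) (h2 : Good (con A u v) Ψ) :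
    Good A (Φ - Polynomial.X * Ψ) := by
  have E := e_del hA huv
  have EC := e_con hA huv
  have T := t_del hA huv
  have TC := t_con hA huv
  have K := k_del hA huv
  have I := i_del hA huv
  have X2 := two_tt A u v
  have X3 := three_tt A u v
  have E' : (cnt A 2 1 : ℚ) = cnt (del A u v) 2 1 + 1 := by rw [E]; push_cast; ring
  have EC' : (cnt (con A u v) 2 1 : ℚ) = cnt (del A u v) 2 1 - tau A u v := by
    rw [EC]; push_cast; ring
  have T' : (cnt A 3 2 : ℚ) = cnt (del A u v) 3 2 + tau A u v := by rw [T]; push_cast; ring
  have TC' : (cnt (con A u v) 3 2 : ℚ) = cnt (del A u v) 3 2 - kap A u v + pp A u v := by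
    rw [TC]; push_cast; ring
  have K' : (cnt A 4 3 : ℚ) = cnt (del A u v) 4 3 + kap A u v := by rw [K]; push_cast; ring
  have I' : (cnt A 4 2 : ℚ) = cnt (del A u v) 4 2 + pp A u v - tt A u v 2 + kap A u v := by
    rw [I]; push_cast; ring
  refine ⟨?_, ?_, ?_, ?_, ?_, ?_⟩
  · intro q hq
    have hq' : (q : ℚ) ≠ 0 := by positivity
    have a1 := h1.ev q hq
    have a2 := h2.ev q hq
    have a3 := NN_del hA huv q
    have a4 := NN_con hA huv q
    have a3' : (NN (del A u v) q : ℚ) = NN A q
        + ((colS (del A u v) q).filter fun c => c u = c v).card := by exact_mod_cast a3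
    have a4' : (NN (con A u v) q : ℚ)
        = ((colS (del A u v) q).filter fun c => c u = c v).card * (q : ℚ) := by exact_mod_cast a4
    rw [Polynomial.eval_sub, Polynomial.eval_mul, Polynomial.eval_X, mul_sub]
    rw [← a1, a3']
    have : (q : ℚ) ^ Fintype.card V * (1 / (q : ℚ) * Polynomial.eval (1 / (q : ℚ)) Ψ)
        = (1 / (q : ℚ)) * ((q : ℚ) ^ Fintype.card V * Polynomial.eval (1 / (q : ℚ)) Ψ) := by ring
    rw [this, ← a2, a4']
    field_simp
    ring
  · rw [Polynomial.coeff_sub, Polynomial.mul_coeff_zero, Polynomial.coeff_X_zero, h1.c0]; ring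
  · rw [Polynomial.coeff_sub, Polynomial.coeff_X_mul, h1.c1, h2.c0, E']; ring
  · rw [Polynomial.coeff_sub, Polynomial.coeff_X_mul, h1.c2, h2.c1, E', EC', T']; ring
  · rw [Polynomial.coeff_sub, Polynomial.coeff_X_mul, h1.c3, h2.c2, E', EC', T', TC', K', I', X2]
    ring
  · intro hk
    have hk' : cnt (del A u v) 4 3 = 0 ∧ kap A u v = 0 := by
      have a1 := cnt_nonneg (del A u v) 4 3
      have a2 : 0 ≤ kap A u v := Finset.sum_nonneg fun _ _ => reg_nonneg _ _ _
      constructor <;> linarith
    have Z := z_del hA huv hk
    have Z' : (zz A : ℚ) = zz (del A u v) +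
      3 * (- tt A u v 3 + tau A u v * pp A u v
      + (cnt (del A u v) 4 2 - cnt (con A u v) 4 2 - tt A u v 2) + 2 * cnt (con A u v) 4 3) := by
      rw [Z]; push_cast; ring
    have kz : (kap A u v : ℚ) = 0 := by rw [hk'.2]; simp
    rw [Polynomial.coeff_sub, Polynomial.coeff_X_mul, h1.c4 hk'.1, h2.c3, Z', E', EC', T', TC', I',
      X2, X3, kz]
    ring

theorem exists_good_aux (n : ℕ) : ∀ A : V → V → Bool, Sym A → (cnt A 2 1).toNat = n →
    ∃ Φ : Polynomial ℚ, Good A Φ := by
  induction n using Nat.strong_induction_on with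
  | _ n ih =>
    intro A hA hn
    by_cases h : ∀ a b, A a b = false
    · exact ⟨1, good_empty h⟩
    · push Not at h
      obtain ⟨u, v, huv⟩ := h
      have huv : A u v = true := by simpa using huv
      have E := e_del hA huv
      have EC := e_con hA huv
      have a1 := cnt_nonneg (del A u v) 2 1
      have a2 := cnt_nonneg (con A u v) 2 1
      have a3 : 0 ≤ tau A u v := Finset.sum_nonneg fun _ _ => reg_nonneg _ _ _
      obtain ⟨Φ, hΦ⟩ := ih (cnt (del A u v) 2 1).toNat (by omega) (del A u v) (sym_del hA huv) rfl
      obtain ⟨Ψ, hΨ⟩ := ih (cnt (con A u v) 2 1).toNat (by omega) (con A u v) (sym_con hA huv) rfl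
      exact ⟨_, good_step hA huv hΦ hΨ⟩

theorem exists_good {A : V → V → Bool} (hA : Sym A) : ∃ Φ : Polynomial ℚ, Good A Φ :=
  exists_good_aux _ A hA rfl

end Pool.Agent.K3h1.Chr
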