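import Pool.Agent.K3h1.Chr.Local

set_option autoImplicit false
set_option linter.unusedSectionVars false

namespace Pool.Agent.K3h1.Chr

open Finset

variable {V : Type*} [DecidableEq V] [Fintype V]

def cnt (A : V → V → Bool) (k r : ℕ) : ℤ := ∑ S ∈ powersetCard k (univ : Finset V), reg A r S

def zz (A : V → V → Bool) : ℤ := ∑ S ∈ powersetCard 5 (univ : Finset V), z3 A S

theorem cnt_nonneg (A : V → V → Bool) (k r : ℕ) : 0 ≤ cnt A k r :=
  Finset.sum_nonneg fun _ _ => reg_nonneg _ _ _

theorem reg_zero_of_cnt {A : V → V → Bool} {k r : ℕ} (h : cnt A k r = 0) (S : Finset V)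
    (hS : S.card = k) : reg A r S = 0 := by
  unfold cnt at h
  rw [Finset.sum_eq_zero_iff_of_nonneg (fun _ _ => reg_nonneg _ _ _)] at h
  exact h S (Finset.mem_powersetCard.2 ⟨Finset.subset_univ _, hS⟩)

/-- the other vertices -/
def rest (u v : V) : Finset V := univ \ {u, v}

theorem rest_univ (u v : V) : insert u (insert v (rest u v)) = univ := by
  ext x
  simp only [rest, Finset.mem_insert, Finset.mem_sdiff, Finset.mem_univ, Finset.mem_singleton,
    true_and, iff_true]
  tauto

theorem mem_rest {u v w : V} : w ∈ rest u v ↔ w ≠ u ∧ w ≠ v := by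
  simp [rest, not_or]

theorem u_notMem_rest (u v : V) : u ∉ rest u v := by simp [rest]
theorem v_notMem_rest (u v : V) : v ∉ rest u v := by simp [rest]

theorem sum_pc_one (W : Finset V) (F : Finset V → ℤ) :
    ∑ S ∈ powersetCard 1 W, F S = ∑ w ∈ W, F {w} := by
  rw [Finset.powersetCard_one, Finset.sum_map]
  rfl

theorem split_univ {u v : V} (huv : u ≠ v) (k : ℕ) (F : Finset V → ℤ) :
    ∑ S ∈ powersetCard (k + 2) (univ : Finset V), F S
      = ∑ S ∈ powersetCard (k + 2) (rest u v), F S
        + ∑ S ∈ powersetCard (k + 1) (rest u v), (F (insert u S) + F (insert v S))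
        + ∑ S ∈ powersetCard k (rest u v), F (insert u (insert v S)) := by
  rw [← sum_pc_two u v (rest u v) huv (u_notMem_rest u v) (v_notMem_rest u v) k F, rest_univ]

def tau (A : V → V → Bool) (u v : V) : ℤ := ∑ w ∈ rest u v, reg A 2 {u, v, w}
def pp (A : V → V → Bool) (u v : V) : ℤ :=
  ∑ P ∈ powersetCard 2 (rest u v), reg A 2 (insert u (insert v P))
def kap (A : V → V → Bool) (u v : V) : ℤ :=
  ∑ P ∈ powersetCard 2 (rest u v), reg A 3 (insert u (insert v P))
def tt (A : V → V → Bool) (u v : V) (k : ℕ) : ℤ :=
  ∑ P ∈ powersetCard k (rest u v), ∏ w ∈ P, reg A 2 {u, v, w}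

theorem agreeW {u v : V} {k : ℕ} {S : Finset V}
    (hS : S ∈ powersetCard k (rest u v)) : u ∉ S ∧ v ∉ S := by
  have := (Finset.mem_powersetCard.1 hS).1
  exact ⟨fun h => u_notMem_rest u v (this h), fun h => v_notMem_rest u v (this h)⟩

theorem reg_del_W {A : V → V → Bool} {u v : V} {k : ℕ} {S : Finset V}
    (hS : S ∈ powersetCard k (rest u v)) (r : ℕ) : reg (del A u v) r S = reg A r S :=
  reg_congr (del_agree fun h => (agreeW hS).1 h.1) r

theorem reg_con_W {A : V → V → Bool} (hA : Sym A) {u v : V} {k : ℕ} {S : Finset V}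
    (hS : S ∈ powersetCard k (rest u v)) (r : ℕ) : reg (con A u v) r S = reg A r S :=
  reg_congr (con_agree hA.irr (agreeW hS).1 (agreeW hS).2) r

theorem reg_del_u {A : V → V → Bool} {u v : V} (huv : u ≠ v) {k : ℕ} {S : Finset V}
    (hS : S ∈ powersetCard k (rest u v)) (r : ℕ) :
    reg (del A u v) r (insert u S) = reg A r (insert u S) :=
  reg_congr (del_agree fun h => by
    have := h.2
    rw [Finset.mem_insert] at this
    rcases this with h1 | h1
    · exact huv h1.symm
    · exact (agreeW hS).2 h1) r

theorem reg_del_v {A : V → V → Bool} {u v : V} (huv : u ≠ v) {k : ℕ} {S : Finset V}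
    (hS : S ∈ powersetCard k (rest u v)) (r : ℕ) :
    reg (del A u v) r (insert v S) = reg A r (insert v S) :=
  reg_congr (del_agree fun h => by
    have := h.1
    rw [Finset.mem_insert] at this
    rcases this with h1 | h1
    · exact huv h1
    · exact (agreeW hS).1 h1) r

theorem z3_del_W {A : V → V → Bool} {u v : V} {k : ℕ} {S : Finset V}
    (hS : S ∈ powersetCard k (rest u v)) : z3 (del A u v) S = z3 A S :=
  z3_congr (del_agree fun h => (agreeW hS).1 h.1)

theorem z3_del_u {A : V → V → Bool} {u v : V} (huv : u ≠ v) {k : ℕ} {S : Finset V}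
    (hS : S ∈ powersetCard k (rest u v)) :
    z3 (del A u v) (insert u S) = z3 A (insert u S) :=
  z3_congr (del_agree fun h => by
    have := h.2
    rw [Finset.mem_insert] at this
    rcases this with h1 | h1
    · exact huv h1.symm
    · exact (agreeW hS).2 h1)

theorem z3_del_v {A : V → V → Bool} {u v : V} (huv : u ≠ v) {k : ℕ} {S : Finset V}
    (hS : S ∈ powersetCard k (rest u v)) :
    z3 (del A u v) (insert v S) = z3 A (insert v S) :=
  z3_congr (del_agree fun h => by
    have := h.1
    rw [Finset.mem_insert] at this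
    rcases this with h1 | h1
    · exact huv h1
    · exact (agreeW hS).1 h1)

/-- difference of a statistic between `A` and `del A u v` -/
theorem cnt_sub_del {A : V → V → Bool} {u v : V} (huv : u ≠ v) (k r : ℕ) :
    cnt A (k + 2) r - cnt (del A u v) (k + 2) r =
      ∑ S ∈ powersetCard k (rest u v),
        (reg A r (insert u (insert v S)) - reg (del A u v) r (insert u (insert v S))) := by
  unfold cnt
  rw [split_univ huv, split_univ huv, Finset.sum_sub_distrib]
  have e1 : ∑ S ∈ powersetCard (k + 2) (rest u v), reg (del A u v) r S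
      = ∑ S ∈ powersetCard (k + 2) (rest u v), reg A r S :=
    Finset.sum_congr rfl fun S hS => reg_del_W hS r
  have e2 : ∑ S ∈ powersetCard (k + 1) (rest u v),
        (reg (del A u v) r (insert u S) + reg (del A u v) r (insert v S))
      = ∑ S ∈ powersetCard (k + 1) (rest u v), (reg A r (insert u S) + reg A r (insert v S)) :=
    Finset.sum_congr rfl fun S hS => by rw [reg_del_u huv hS, reg_del_v huv hS]
  rw [e1, e2]; ring

theorem zz_sub_del {A : V → V → Bool} {u v : V} (huv : u ≠ v) :
    zz A - zz (del A u v) =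
      ∑ S ∈ powersetCard 3 (rest u v),
        (z3 A (insert u (insert v S)) - z3 (del A u v) (insert u (insert v S))) := by
  unfold zz
  rw [split_univ huv 3, split_univ huv 3, Finset.sum_sub_distrib]
  have e1 : ∑ S ∈ powersetCard (3 + 2) (rest u v), z3 (del A u v) S
      = ∑ S ∈ powersetCard (3 + 2) (rest u v), z3 A S :=
    Finset.sum_congr rfl fun S hS => z3_del_W hS
  have e2 : ∑ S ∈ powersetCard (3 + 1) (rest u v),
        (z3 (del A u v) (insert u S) + z3 (del A u v) (insert v S))
      = ∑ S ∈ powersetCard (3 + 1) (rest u v), (z3 A (insert u S) + z3 A (insert v S)) :=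
    Finset.sum_congr rfl fun S hS => by rw [z3_del_u huv hS, z3_del_v huv hS]
  rw [e1, e2]; ring

/-- difference of a statistic between `del A u v` and `con A u v` -/
theorem cnt_del_sub_con {A : V → V → Bool} (hA : Sym A) {u v : V} (huv : u ≠ v) (k : ℕ) {r : ℕ}
    (hr : r ≠ 0) :
    cnt (del A u v) (k + 2) r - cnt (con A u v) (k + 2) r =
      ∑ S ∈ powersetCard (k + 1) (rest u v),
        (reg (del A u v) r (insert u S) + reg (del A u v) r (insert v S)
          - reg (con A u v) r (insert u S))
      + ∑ S ∈ powersetCard k (rest u v), reg (del A u v) r (insert u (insert v S)) := by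
  unfold cnt
  rw [split_univ huv, split_univ huv, Finset.sum_sub_distrib]
  have e1 : ∑ S ∈ powersetCard (k + 2) (rest u v), reg (del A u v) r S
      = ∑ S ∈ powersetCard (k + 2) (rest u v), reg (con A u v) r S :=
    Finset.sum_congr rfl fun S hS => by rw [reg_del_W hS r, reg_con_W hA hS r]
  have e2 : ∑ S ∈ powersetCard (k + 1) (rest u v),
        (reg (con A u v) r (insert u S) + reg (con A u v) r (insert v S))
      = ∑ S ∈ powersetCard (k + 1) (rest u v), reg (con A u v) r (insert u S) :=
    Finset.sum_congr rfl fun S hS => by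
      rw [reg_con_right hr (Finset.mem_insert_self v S), add_zero]
  have e3 : ∑ S ∈ powersetCard k (rest u v), reg (con A u v) r (insert u (insert v S)) = 0 :=
    Finset.sum_eq_zero fun S hS =>
      reg_con_right hr (Finset.mem_insert_of_mem (Finset.mem_insert_self v S))
  rw [e1, e2, e3]; ring

section Main
variable {A : V → V → Bool} (hA : Sym A) {u v : V} (huv : A u v = true)
include hA huv

theorem ne_of_adj : u ≠ v := by
  rintro rfl
  rw [hA.irr] at huv
  exact absurd huv (by simp)

theorem sym_del : Sym (del A u v) := by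
  refine ⟨fun a b => ?_, fun a => ?_⟩
  · unfold del
    rw [hA.symm a b]
    congr 1
    cases (a == u) <;> cases (b == v) <;> cases (a == v) <;> cases (b == u) <;> rfl
  · unfold del; rw [hA.irr]; rfl

theorem sym_con : Sym (con A u v) := by
  refine ⟨fun a b => ?_, fun a => ?_⟩
  · unfold con
    by_cases h : a = v ∨ b = v ∨ a = b
    · have h' : b = v ∨ a = v ∨ b = a := by tauto
      rw [if_pos h, if_pos h']
    · have h' : ¬ (b = v ∨ a = v ∨ b = a) := by tauto
      rw [if_neg h, if_neg h']
      by_cases h1 : a = u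
      · by_cases h2 : b = u
        · exact absurd (Or.inr (Or.inr (h1.trans h2.symm))) h
        · rw [if_pos h1, if_neg h2, if_pos h1, hA.symm b u, hA.symm b v]
      · by_cases h2 : b = u
        · rw [if_neg h1, if_pos h2, if_pos h2, hA.symm a u, hA.symm a v]
        · rw [if_neg h1, if_neg h2, if_neg h2, if_neg h1, hA.symm a b]
  · unfold con; simp

theorem e_del : cnt A 2 1 = cnt (del A u v) 2 1 + 1 := by
  have h := cnt_sub_del (A := A) (ne_of_adj hA huv) 0 1
  rw [Finset.powersetCard_zero, Finset.sum_singleton] at h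
  have h1 : reg A 1 (insert u (insert v ∅)) = 1 := by
    rw [reg_eq_one_iff]
    intro w hw
    have huv' := ne_of_adj hA huv
    have : w = u ∨ w = v := by simpa using hw
    rcases this with rfl | rfl
    · simp [dg, huv', huv, hA.irr]
    · simp [dg, huv', hA.symm w u, huv, hA.irr]
  have h2 : reg (del A u v) 1 (insert u (insert v ∅)) = 0 := by
    refine reg_eq_zero_of (Finset.mem_insert_self _ _) ?_
    have huv' := ne_of_adj hA huv
    simp [dg, huv', del, hA.irr]
  have h3 : (0 : ℕ) + 2 = 2 := rfl
  rw [h1, h2, h3] at h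
  linarith

theorem e_con : cnt (con A u v) 2 1 = cnt (del A u v) 2 1 - tau A u v := by
  have h := cnt_del_sub_con hA (ne_of_adj hA huv) 0 (r := 1) (by norm_num)
  have huv' := ne_of_adj hA huv
  rw [Finset.powersetCard_zero, Finset.sum_singleton, zero_add, sum_pc_one] at h
  have h2 : reg (del A u v) 1 (insert u (insert v ∅)) = 0 := by
    refine reg_eq_zero_of (Finset.mem_insert_self _ _) ?_
    simp [dg, huv', del, hA.irr]
  have h4 : ∑ w ∈ rest u v, (reg (del A u v) 1 (insert u {w}) + reg (del A u v) 1 (insert v {w})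
      - reg (con A u v) 1 (insert u {w})) = tau A u v := by
    unfold tau
    refine Finset.sum_congr rfl fun w hw => ?_
    obtain ⟨hw1, hw2⟩ := mem_rest.1 hw
    exact (local3 hA huv huv' hw1.symm hw2.symm).1
  rw [h2, h4] at h
  linarith

theorem t_del : cnt A 3 2 = cnt (del A u v) 3 2 + tau A u v := by
  have huv' := ne_of_adj hA huv
  have h := cnt_sub_del (A := A) (ne_of_adj hA huv) 1 2
  rw [sum_pc_one] at h
  have h4 : ∑ w ∈ rest u v, (reg A 2 (insert u (insert v {w}))
      - reg (del A u v) 2 (insert u (insert v {w}))) = tau A u v := by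
    unfold tau
    refine Finset.sum_congr rfl fun w hw => ?_
    obtain ⟨hw1, hw2⟩ := mem_rest.1 hw
    rw [(local3 hA huv huv' hw1.symm hw2.symm).2, sub_zero]
  rw [h4] at h
  have h3 : (1 : ℕ) + 2 = 3 := rfl
  rw [h3] at h
  linarith

theorem t_con : cnt (con A u v) 3 2 = cnt (del A u v) 3 2 - kap A u v + pp A u v := by
  have huv' := ne_of_adj hA huv
  have h := cnt_del_sub_con hA (ne_of_adj hA huv) 1 (r := 2) (by norm_num)
  rw [sum_pc_one] at h
  have h4 : ∑ w ∈ rest u v, reg (del A u v) 2 (insert u (insert v {w})) = 0 := by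
    refine Finset.sum_eq_zero fun w hw => ?_
    obtain ⟨hw1, hw2⟩ := mem_rest.1 hw
    exact (local3 hA huv huv' hw1.symm hw2.symm).2
  have h5 : ∑ S ∈ powersetCard (1 + 1) (rest u v),
        (reg (del A u v) 2 (insert u S) + reg (del A u v) 2 (insert v S)
          - reg (con A u v) 2 (insert u S)) = kap A u v - pp A u v := by
    unfold kap pp
    rw [← Finset.sum_sub_distrib]
    refine Finset.sum_congr rfl fun S hS => ?_
    obtain ⟨hS1, hS2⟩ := Finset.mem_powersetCard.1 hS
    obtain ⟨a, b, hab, rfl⟩ := Finset.card_eq_two.1 hS2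
    have ha := mem_rest.1 (hS1 (by simp : a ∈ ({a, b} : Finset V)))
    have hb := mem_rest.1 (hS1 (by simp : b ∈ ({a, b} : Finset V)))
    exact (local4 hA huv huv' ha.1.symm ha.2.symm hb.1.symm hb.2.symm hab).1
  rw [h4, h5] at h
  have h3 : (1 : ℕ) + 2 = 3 := rfl
  rw [h3] at h
  linarith

theorem k_del : cnt A 4 3 = cnt (del A u v) 4 3 + kap A u v := by
  have huv' := ne_of_adj hA huv
  have h := cnt_sub_del (A := A) (ne_of_adj hA huv) 2 3
  have h5 : ∑ S ∈ powersetCard 2 (rest u v),
        (reg A 3 (insert u (insert v S)) - reg (del A u v) 3 (insert u (insert v S)))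
        = kap A u v := by
    unfold kap
    refine Finset.sum_congr rfl fun S hS => ?_
    obtain ⟨hS1, hS2⟩ := Finset.mem_powersetCard.1 hS
    obtain ⟨a, b, hab, rfl⟩ := Finset.card_eq_two.1 hS2
    have ha := mem_rest.1 (hS1 (by simp : a ∈ ({a, b} : Finset V)))
    have hb := mem_rest.1 (hS1 (by simp : b ∈ ({a, b} : Finset V)))
    rw [(local4 hA huv huv' ha.1.symm ha.2.symm hb.1.symm hb.2.symm hab).2.2, sub_zero]
  rw [h5] at h
  have h3 : (2 : ℕ) + 2 = 4 := rfl
  rw [h3] at h
  linarith

theorem i2_del : ∑ S ∈ powersetCard 2 (rest u v), reg (del A u v) 2 (insert u (insert v S))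
    = tt A u v 2 - kap A u v := by
  have huv' := ne_of_adj hA huv
  unfold tt kap
  rw [← Finset.sum_sub_distrib]
  refine Finset.sum_congr rfl fun S hS => ?_
  obtain ⟨hS1, hS2⟩ := Finset.mem_powersetCard.1 hS
  obtain ⟨a, b, hab, rfl⟩ := Finset.card_eq_two.1 hS2
  have ha := mem_rest.1 (hS1 (by simp : a ∈ ({a, b} : Finset V)))
  have hb := mem_rest.1 (hS1 (by simp : b ∈ ({a, b} : Finset V)))
  rw [(local4 hA huv huv' ha.1.symm ha.2.symm hb.1.symm hb.2.symm hab).2.1,
    Finset.prod_pair hab]

theorem i_del : cnt A 4 2 = cnt (del A u v) 4 2 + pp A u v - tt A u v 2 + kap A u v := by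
  have h := cnt_sub_del (A := A) (ne_of_adj hA huv) 2 2
  rw [Finset.sum_sub_distrib, i2_del hA huv] at h
  change cnt A 4 2 - cnt (del A u v) 4 2 = pp A u v - _ at h
  linarith

theorem z_del (hk : cnt A 4 3 = 0) : zz A = zz (del A u v) +
    3 * (- tt A u v 3 + tau A u v * pp A u v
      + (cnt (del A u v) 4 2 - cnt (con A u v) 4 2 - tt A u v 2) + 2 * cnt (con A u v) 4 3) := by
  have huv' := ne_of_adj hA huv
  have k4 : ∀ S : Finset V, S.card = 4 → reg A 3 S = 0 := fun S hS => reg_zero_of_cnt hk S hS
  have hkap : kap A u v = 0 := by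
    unfold kap
    refine Finset.sum_eq_zero fun S hS => ?_
    apply k4
    obtain ⟨hS1, hS2⟩ := Finset.mem_powersetCard.1 hS
    obtain ⟨a, b, hab, rfl⟩ := Finset.card_eq_two.1 hS2
    have ha := mem_rest.1 (hS1 (by simp : a ∈ ({a, b} : Finset V)))
    have hb := mem_rest.1 (hS1 (by simp : b ∈ ({a, b} : Finset V)))
    rw [Finset.card_insert_of_notMem, Finset.card_insert_of_notMem, Finset.card_pair hab]
    · simp [ha.2.symm, hb.2.symm]
    · simp [huv', ha.1.symm, hb.1.symm]
  have h := cnt_del_sub_con hA (ne_of_adj hA huv) 2 (r := 2) (by norm_num)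
  rw [i2_del hA huv, hkap] at h
  -- K4's of the contraction
  have hK : cnt (con A u v) 4 3 = ∑ S ∈ powersetCard 3 (rest u v), reg (con A u v) 3 (insert u S) := by
    unfold cnt
    rw [split_univ huv' 2]
    have e1 : ∑ S ∈ powersetCard (2 + 2) (rest u v), reg (con A u v) 3 S = 0 :=
      Finset.sum_eq_zero fun S hS => by
        rw [reg_con_W hA hS]
        exact k4 S (Finset.mem_powersetCard.1 hS).2
    have e2 : ∑ S ∈ powersetCard (2 + 1) (rest u v),
        (reg (con A u v) 3 (insert u S) + reg (con A u v) 3 (insert v S))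
        = ∑ S ∈ powersetCard (2 + 1) (rest u v), reg (con A u v) 3 (insert u S) :=
      Finset.sum_congr rfl fun S hS => by
        rw [reg_con_right (by norm_num) (Finset.mem_insert_self v S), add_zero]
    have e3 : ∑ S ∈ powersetCard 2 (rest u v), reg (con A u v) 3 (insert u (insert v S)) = 0 :=
      Finset.sum_eq_zero fun S hS =>
        reg_con_right (by norm_num) (Finset.mem_insert_of_mem (Finset.mem_insert_self v S))
    rw [e1, e2, e3]; ring
  -- the mixed term
  have hmix : tau A u v * pp A u v = ∑ S ∈ powersetCard 3 (rest u v), ∑ w ∈ S,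
      reg A 2 (insert u (insert v (S.erase w))) * reg A 2 {u, v, w} := by
    rw [← sum_pc_swap (rest u v) 2 (fun P w => reg A 2 (insert u (insert v P)) * reg A 2 {u, v, w})]
    unfold tau pp
    rw [mul_comm, Finset.sum_mul_sum]
    refine Finset.sum_congr rfl fun P hP => ?_
    obtain ⟨hS1, hS2⟩ := Finset.mem_powersetCard.1 hP
    rw [← Finset.sum_sdiff hS1]
    have : ∑ w ∈ P, reg A 2 (insert u (insert v P)) * reg A 2 {u, v, w} = 0 := by
      refine Finset.sum_eq_zero fun w hw => ?_
      by_contra hne
      have hne1 : reg A 2 (insert u (insert v P)) ≠ 0 := left_ne_zero_of_mul hne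
      have hne2 : reg A 2 {u, v, w} ≠ 0 := right_ne_zero_of_mul hne
      have hw' := mem_rest.1 (hS1 hw)
      have h1 : ∀ x ∈ insert u (insert v P), dg A (insert u (insert v P)) x = 2 := by
        by_contra hh
        exact hne1 (by unfold reg; rw [if_neg hh])
      have h2 : ∀ x ∈ ({u, v, w} : Finset V), dg A {u, v, w} x = 2 := by
        by_contra hh
        exact hne2 (by unfold reg; rw [if_neg hh])
      -- w adjacent to u and v
      have hww := h2 w (by simp)
      have hsum : (A w u).toNat + (A w v).toNat = 2 := by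
        have : dg A {u, v, w} w = (A w u).toNat + ((A w v).toNat + (A w w).toNat) := by
          unfold dg
          rw [Finset.sum_insert, Finset.sum_insert, Finset.sum_singleton]
          · simp [hw'.2.symm]
          · simp [huv', hw'.1.symm]
        rw [hA.irr] at this
        simp at this
        omega
      have hwu : A w u = true := by
        cases hh : A w u
        · rw [hh] at hsum; cases h3 : A w v <;> rw [h3] at hsum <;> simp at hsum
        · rfl
      have hwv : A w v = true := by
        cases hh : A w v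
        · rw [hh] at hsum; cases h3 : A w u <;> rw [h3] at hsum <;> simp at hsum
        · rfl
      -- other vertex b of P : degree considerations
      obtain ⟨a, b, hab, rfl⟩ := Finset.card_eq_two.1 hS2
      have hu := h1 u (by simp)
      have hv := h1 v (by simp)
      have ha := mem_rest.1 (hS1 (by simp : a ∈ ({a, b} : Finset V)))
      have hb := mem_rest.1 (hS1 (by simp : b ∈ ({a, b} : Finset V)))
      have hbb := h1 b (by simp)
      have haa := h1 a (by simp)
      have hd : ∀ x : V, dg A (insert u (insert v {a, b})) x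
          = (A x u).toNat + ((A x v).toNat + ((A x a).toNat + (A x b).toNat)) := by
        intro x
        unfold dg
        rw [Finset.sum_insert, Finset.sum_insert, Finset.sum_insert, Finset.sum_singleton]
        · simp [hab]
        · simp [ha.2.symm, hb.2.symm]
        · simp [huv', ha.1.symm, hb.1.symm]
      rw [hd] at hu hv hbb haa
      rw [hA.irr, huv] at hu
      rw [hA.irr, hA.symm v u, huv] at hv
      rw [hA.irr] at hbb haa
      have hw2 : w = a ∨ w = b := by simpa using hw
      rcases hw2 with rfl | rfl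
      · rw [hA.symm u w, hwu] at hu
        rw [hA.symm v w, hwv] at hv
        rw [hwu, hwv] at haa
        rw [hA.symm b u, hA.symm b v, hA.symm b w] at hbb
        simp only [Bool.toNat_true, Bool.toNat_false] at hu hv haa hbb
        omega
      · rw [hA.symm u w, hwu] at hu
        rw [hA.symm v w, hwv] at hv
        rw [hwu, hwv] at hbb
        rw [hA.symm a u, hA.symm a v, hA.symm a w] at haa
        simp only [Bool.toNat_true, Bool.toNat_false] at hu hv haa hbb
        omega
    rw [this, add_zero]
  have hZ := zz_sub_del (A := A) huv'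
  have hpt : ∑ S ∈ powersetCard 3 (rest u v),
        (z3 A (insert u (insert v S)) - z3 (del A u v) (insert u (insert v S)))
      = 3 * (- tt A u v 3 + (∑ S ∈ powersetCard 3 (rest u v), ∑ w ∈ S,
          reg A 2 (insert u (insert v (S.erase w))) * reg A 2 {u, v, w})
        + (∑ S ∈ powersetCard 3 (rest u v),
        (reg (del A u v) 2 (insert u S) + reg (del A u v) 2 (insert v S)
          - reg (con A u v) 2 (insert u S)))
        + 2 * ∑ S ∈ powersetCard 3 (rest u v), reg (con A u v) 3 (insert u S)) := by
    unfold tt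
    rw [← Finset.sum_neg_distrib, Finset.mul_sum, ← Finset.sum_add_distrib,
      ← Finset.sum_add_distrib, ← Finset.sum_add_distrib, Finset.mul_sum]
    refine Finset.sum_congr rfl fun S hS => ?_
    obtain ⟨hS1, hS2⟩ := Finset.mem_powersetCard.1 hS
    obtain ⟨a, b, c, hab, hac, hbc, rfl⟩ := Finset.card_eq_three.1 hS2
    have ha := mem_rest.1 (hS1 (by simp : a ∈ ({a, b, c} : Finset V)))
    have hb := mem_rest.1 (hS1 (by simp : b ∈ ({a, b, c} : Finset V)))
    have hc := mem_rest.1 (hS1 (by simp : c ∈ ({a, b, c} : Finset V)))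
    have key := local5 hA huv huv' ha.1.symm ha.2.symm hb.1.symm hb.2.symm hab hc.1.symm
      hc.2.symm hac hbc k4
    have ea : ({a, b, c} : Finset V).erase a = {b, c} := by
      rw [Finset.erase_insert]; simp [hab, hac]
    have eb : ({a, b, c} : Finset V).erase b = {a, c} := by
      rw [Finset.insert_comm, Finset.erase_insert]; simp [hab.symm, hbc]
    have ec : ({a, b, c} : Finset V).erase c = {a, b} := by
      rw [show ({a, b, c} : Finset V) = {c, a, b} from by
        ext x; simp only [Finset.mem_insert, Finset.mem_singleton]; tauto, Finset.erase_insert]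
      simp [hac.symm, hbc.symm]
    rw [Finset.prod_insert (by simp [hab, hac]), Finset.prod_insert (by simp [hbc]),
      Finset.prod_singleton, Finset.sum_insert (by simp [hab, hac]),
      Finset.sum_insert (by simp [hbc]), Finset.sum_singleton, ea, eb, ec]
    rw [key]
    ring
  rw [hpt, ← hmix, ← hK] at hZ
  have h3 : (2 : ℕ) + 2 = 4 := rfl
  have h3' : (2 : ℕ) + 1 = 3 := rfl
  rw [h3, h3'] at h
  linarith

end Main

/-- sums of elementary symmetric type for 0/1 valued functions -/
theorem tt_eq (A : V → V → Bool) (u v : V) (k : ℕ) :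
    tt A u v k = (Nat.choose ((rest u v).filter fun w => reg A 2 {u, v, w} = 1).card k : ℤ) := by
  classical
  unfold tt
  rw [← Finset.card_powersetCard, Finset.card_eq_sum_ones, Nat.cast_sum]
  have hsub : powersetCard k ((rest u v).filter fun w => reg A 2 {u, v, w} = 1)
      ⊆ powersetCard k (rest u v) :=
    Finset.powersetCard_mono (Finset.filter_subset _ _)
  rw [← Finset.sum_subset hsub]
  · refine Finset.sum_congr rfl fun S hS => ?_
    rw [Finset.prod_eq_one]
    · simp
    · intro w hw
      exact (Finset.mem_filter.1 ((Finset.mem_powersetCard.1 hS).1 hw)).2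
  · intro S hS hS'
    obtain ⟨w, hw, hw'⟩ : ∃ w ∈ S, reg A 2 {u, v, w} ≠ 1 := by
      by_contra hh
      push Not at hh
      exact hS' (Finset.mem_powersetCard.2 ⟨fun w hw => Finset.mem_filter.2
        ⟨(Finset.mem_powersetCard.1 hS).1 hw, hh w hw⟩, (Finset.mem_powersetCard.1 hS).2⟩)
    refine Finset.prod_eq_zero hw ?_
    unfold reg at hw' ⊢
    split_ifs with h
    · rw [if_pos h] at hw'; exact absurd rfl hw'
    · rfl

theorem tau_eq (A : V → V → Bool) (u v : V) :
    tau A u v = (((rest u v).filter fun w => reg A 2 {u, v, w} = 1).card : ℤ) := by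
  have h := tt_eq A u v 1
  rw [Nat.choose_one_right] at h
  rw [← h]
  unfold tt tau
  rw [sum_pc_one]
  simp

end Pool.Agent.K3h1.Chr
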