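import Pool.Agent.K3h1.Chr.Stats

set_option autoImplicit false
set_option linter.unusedSectionVars false

namespace Pool.Agent.K3h1.Chr

open Finset

variable {V : Type*} [DecidableEq V]

theorem sum_pc_insert (x : V) (s : Finset V) (hx : x ∉ s) (k : ℕ) (F : Finset V → ℤ) :
    ∑ S ∈ powersetCard (k + 1) (insert x s), F S
      = ∑ S ∈ powersetCard (k + 1) s, F S + ∑ S ∈ powersetCard k s, F (insert x S) := by
  rw [Finset.powersetCard_succ_insert hx, Finset.sum_union]
  · congr 1
    rw [Finset.sum_image]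
    intro a ha b hb hab
    have ha' : x ∉ a := fun h => hx ((Finset.mem_powersetCard.1 ha).1 h)
    have hb' : x ∉ b := fun h => hx ((Finset.mem_powersetCard.1 hb).1 h)
    rw [← Finset.erase_insert ha', ← Finset.erase_insert hb', hab]
  · rw [Finset.disjoint_left]
    intro a ha hb
    obtain ⟨b, hb, rfl⟩ := Finset.mem_image.1 hb
    exact hx ((Finset.mem_powersetCard.1 ha).1 (Finset.mem_insert_self _ _))

theorem sum_pc_two (u v : V) (W : Finset V) (huv : u ≠ v) (hu : u ∉ W) (hv : v ∉ W) (k : ℕ)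
    (F : Finset V → ℤ) :
    ∑ S ∈ powersetCard (k + 2) (insert u (insert v W)), F S
      = ∑ S ∈ powersetCard (k + 2) W, F S
        + ∑ S ∈ powersetCard (k + 1) W, (F (insert u S) + F (insert v S))
        + ∑ S ∈ powersetCard k W, F (insert u (insert v S)) := by
  rw [sum_pc_insert u _ (by simp [huv, hu]), sum_pc_insert v _ hv,
    sum_pc_insert v _ hv, Finset.sum_add_distrib]
  ring

theorem sum_pc_swap (W : Finset V) (k : ℕ) (F : Finset V → V → ℤ) :
    ∑ P ∈ powersetCard k W, ∑ w ∈ W \ P, F P w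
      = ∑ S ∈ powersetCard (k + 1) W, ∑ w ∈ S, F (S.erase w) w := by
  rw [Finset.sum_sigma', Finset.sum_sigma']
  refine Finset.sum_bij' (fun p _ => ⟨insert p.2 p.1, p.2⟩) (fun p _ => ⟨p.1.erase p.2, p.2⟩)
    ?_ ?_ ?_ ?_ ?_
  · rintro ⟨P, w⟩ h
    simp only [Finset.mem_sigma, Finset.mem_powersetCard, Finset.mem_sdiff] at h ⊢
    obtain ⟨⟨h1, h2⟩, h3, h4⟩ := h
    refine ⟨⟨Finset.insert_subset h3 h1, ?_⟩, Finset.mem_insert_self _ _⟩
    rw [Finset.card_insert_of_notMem h4, h2]
  · rintro ⟨S, w⟩ h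
    simp only [Finset.mem_sigma, Finset.mem_powersetCard, Finset.mem_sdiff] at h ⊢
    obtain ⟨⟨h1, h2⟩, h3⟩ := h
    refine ⟨⟨(Finset.erase_subset _ _).trans h1, ?_⟩, h1 h3, Finset.notMem_erase _ _⟩
    rw [Finset.card_erase_of_mem h3, h2]; rfl
  · rintro ⟨P, w⟩ h
    simp only [Finset.mem_sigma, Finset.mem_powersetCard, Finset.mem_sdiff] at h
    simp [Finset.erase_insert h.2.2]
  · rintro ⟨S, w⟩ h
    simp only [Finset.mem_sigma, Finset.mem_powersetCard] at h
    simp [Finset.insert_erase h.2]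
  · rintro ⟨P, w⟩ h
    simp only [Finset.mem_sigma, Finset.mem_powersetCard, Finset.mem_sdiff] at h
    simp [Finset.erase_insert h.2.2]

theorem dg_congr {A B : V → V → Bool} {S : Finset V} (h : ∀ a ∈ S, ∀ b ∈ S, A a b = B a b)
    {v : V} (hv : v ∈ S) : dg A S v = dg B S v := by
  unfold dg
  exact Finset.sum_congr rfl fun w hw => by rw [h v hv w hw]

theorem reg_congr {A B : V → V → Bool} {S : Finset V} (h : ∀ a ∈ S, ∀ b ∈ S, A a b = B a b)
    (r : ℕ) : reg A r S = reg B r S := by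
  unfold reg
  have : (∀ v ∈ S, dg A S v = r) ↔ ∀ v ∈ S, dg B S v = r :=
    ⟨fun H v hv => by rw [← dg_congr h hv]; exact H v hv,
      fun H v hv => by rw [dg_congr h hv]; exact H v hv⟩
  simp only [this]

theorem z3_congr {A B : V → V → Bool} {S : Finset V} (h : ∀ a ∈ S, ∀ b ∈ S, A a b = B a b) :
    z3 A S = z3 B S := by
  unfold z3
  rw [reg_congr h]
  congr 1
  refine Finset.sum_congr rfl fun v hv => ?_
  have h' : ∀ a ∈ S.erase v, ∀ b ∈ S.erase v, A a b = B a b := fun a ha b hb =>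
    h a (Finset.mem_of_mem_erase ha) b (Finset.mem_of_mem_erase hb)
  rw [reg_congr h']
  congr 1
  have hd : dg A (S.erase v) v = dg B (S.erase v) v := by
    unfold dg
    exact Finset.sum_congr rfl fun w hw => by rw [h v hv w (Finset.mem_of_mem_erase hw)]
  have hq : (∀ x ∈ S.erase v, ∀ y ∈ S.erase v, (A v x && A v y && A x y) = false) ↔
      ∀ x ∈ S.erase v, ∀ y ∈ S.erase v, (B v x && B v y && B x y) = false := by
    constructor
    · intro H x hx y hy
      rw [← h v hv x (Finset.mem_of_mem_erase hx), ← h v hv y (Finset.mem_of_mem_erase hy),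
        ← h' x hx y hy]
      exact H x hx y hy
    · intro H x hx y hy
      rw [h v hv x (Finset.mem_of_mem_erase hx), h v hv y (Finset.mem_of_mem_erase hy),
        h' x hx y hy]
      exact H x hx y hy
  unfold om
  simp only [hd, hq]

theorem reg_nonneg (A : V → V → Bool) (r : ℕ) (S : Finset V) : 0 ≤ reg A r S := by
  unfold reg; split_ifs <;> norm_num

theorem reg_le_one (A : V → V → Bool) (r : ℕ) (S : Finset V) : reg A r S ≤ 1 := by
  unfold reg; split_ifs <;> norm_num

theorem reg_eq_one_iff (A : V → V → Bool) (r : ℕ) (S : Finset V) :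
    reg A r S = 1 ↔ ∀ v ∈ S, dg A S v = r := by
  unfold reg; split_ifs with h
  · exact ⟨fun _ => h, fun _ => rfl⟩
  · exact ⟨fun h0 => absurd h0 (by norm_num), fun h0 => absurd h0 h⟩

theorem reg_eq_zero_of {A : V → V → Bool} {r : ℕ} {S : Finset V} {v : V} (hv : v ∈ S)
    (h : dg A S v ≠ r) : reg A r S = 0 := by
  unfold reg
  rw [if_neg]
  intro H
  exact h (H v hv)

theorem del_agree {A : V → V → Bool} {u v : V} {S : Finset V} (h : ¬ (u ∈ S ∧ v ∈ S)) :
    ∀ a ∈ S, ∀ b ∈ S, del A u v a b = A a b := by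
  intro a ha b hb
  unfold del
  have h1 : ¬ (a = u ∧ b = v) := fun hh => h ⟨hh.1 ▸ ha, hh.2 ▸ hb⟩
  have h2 : ¬ (a = v ∧ b = u) := fun hh => h ⟨hh.2 ▸ hb, hh.1 ▸ ha⟩
  have h1' : (a == u && b == v) = false := by
    simpa [Bool.and_eq_false_iff, beq_eq_false_iff_ne, not_and_or] using h1
  have h2' : (a == v && b == u) = false := by
    simpa [Bool.and_eq_false_iff, beq_eq_false_iff_ne, not_and_or] using h2
  simp [h1', h2']

theorem con_agree {A : V → V → Bool} (hi : ∀ a, A a a = false) {u v : V} {S : Finset V}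
    (hu : u ∉ S) (hv : v ∉ S) : ∀ a ∈ S, ∀ b ∈ S, con A u v a b = A a b := by
  intro a ha b hb
  unfold con
  have h1 : a ≠ v := fun h => hv (h ▸ ha)
  have h2 : b ≠ v := fun h => hv (h ▸ hb)
  have h3 : a ≠ u := fun h => hu (h ▸ ha)
  have h4 : b ≠ u := fun h => hu (h ▸ hb)
  by_cases hab : a = b
  · subst hab; simp [hi]
  · simp [h1, h2, h3, h4, hab]

theorem reg_con_right {A : V → V → Bool} {u v : V} {S : Finset V} {r : ℕ} (hr : r ≠ 0)
    (hv : v ∈ S) : reg (con A u v) r S = 0 := by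
  refine reg_eq_zero_of hv ?_
  have : dg (con A u v) S v = 0 := by
    unfold dg
    refine Finset.sum_eq_zero fun w _ => ?_
    simp [con]
  rw [this]
  exact fun h => hr h.symm

end Pool.Agent.K3h1.Chr
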