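import Mathlib

set_option autoImplicit false

namespace Pool.Agent.K3h1.Chr

open Finset

section Defs
variable {V : Type*} [DecidableEq V]

/-- number of neighbours of `v` inside `S` -/
def dg (A : V → V → Bool) (S : Finset V) (v : V) : ℕ := ∑ w ∈ S, (A v w).toNat

/-- indicator that all vertices of `S` have degree `r` inside `S` -/
def reg (A : V → V → Bool) (r : ℕ) (S : Finset V) : ℤ :=
  if ∀ v ∈ S, dg A S v = r then 1 else 0

def om (A : V → V → Bool) (Q : Finset V) (v : V) : ℤ :=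
  if dg A Q v = 4 then 9 else if dg A Q v = 3 then 3 else
  if dg A Q v = 2 ∧ ∀ x ∈ Q, ∀ y ∈ Q, (A v x && A v y && A x y) = false then 1 else 0

def z3 (A : V → V → Bool) (S : Finset V) : ℤ :=
  (∑ v ∈ S, reg A 2 (S.erase v) * om A (S.erase v) v) - 3 * reg A 2 S

/-- delete the edge `uv` -/
def del (A : V → V → Bool) (u v : V) : V → V → Bool :=
  fun a b => A a b && !((a == u && b == v) || (a == v && b == u))

/-- contract `v` into `u`, keeping `v` as an isolated vertex -/
def con (A : V → V → Bool) (u v : V) : V → V → Bool :=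
  fun a b => if a = v ∨ b = v ∨ a = b then false
    else if a = u then A u b || A v b else if b = u then A a u || A a v else A a b

def pull {W : Type*} (A : V → V → Bool) (x : W → V) : W → W → Bool := fun i j => A (x i) (x j)

end Defs

section Map
variable {V W : Type*} [DecidableEq V] [DecidableEq W]

omit [DecidableEq V] [DecidableEq W] in
theorem dg_map (A : V → V → Bool) (x : W ↪ V) (S : Finset W) (i : W) :
    dg A (S.map x) (x i) = dg (pull A x) S i := by
  simp [dg, pull]

omit [DecidableEq V] [DecidableEq W] in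
theorem reg_map (A : V → V → Bool) (x : W ↪ V) (S : Finset W) (r : ℕ) :
    reg A r (S.map x) = reg (pull A x) r S := by
  unfold reg
  simp only [Finset.mem_map, forall_exists_index, and_imp, forall_apply_eq_imp_iff₂, dg_map]

omit [DecidableEq V] [DecidableEq W] in
theorem om_map (A : V → V → Bool) (x : W ↪ V) (S : Finset W) (i : W) :
    om A (S.map x) (x i) = om (pull A x) S i := by
  have h : (∀ x' ∈ S.map x, ∀ y ∈ S.map x, (A (x i) x' && A (x i) y && A x' y) = false) ↔
      ∀ x' ∈ S, ∀ y ∈ S, (pull A x i x' && pull A x i y && pull A x x' y) = false := by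
    simp only [Finset.mem_map, forall_exists_index, and_imp, forall_apply_eq_imp_iff₂, pull]
  unfold om
  simp only [dg_map, h]

theorem z3_map (A : V → V → Bool) (x : W ↪ V) (S : Finset W) :
    z3 A (S.map x) = z3 (pull A x) S := by
  unfold z3
  rw [reg_map, Finset.sum_map]
  congr 1
  apply Finset.sum_congr rfl
  intro i hi
  rw [← Finset.map_erase, reg_map, om_map]

theorem pull_del (A : V → V → Bool) (x : W ↪ V) (i j : W) :
    pull (del A (x i) (x j)) x = del (pull A x) i j := by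
  funext a b
  simp only [pull, del, beq_eq_decide, x.injective.eq_iff]

theorem pull_con (A : V → V → Bool) (x : W ↪ V) (i j : W) :
    pull (con A (x i) (x j)) x = con (pull A x) i j := by
  funext a b
  simp [pull, con, x.injective.eq_iff]

end Map

/-- adjacency on `Fin 5` from ten booleans -/
def mk5 (b01 b02 b03 b04 b12 b13 b14 b23 b24 b34 : Bool) : Fin 5 → Fin 5 → Bool :=
  fun i j =>
    match i.val, j.val with
    | 0, 1 => b01 | 1, 0 => b01 | 0, 2 => b02 | 2, 0 => b02 | 0, 3 => b03 | 3, 0 => b03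
    | 0, 4 => b04 | 4, 0 => b04 | 1, 2 => b12 | 2, 1 => b12 | 1, 3 => b13 | 3, 1 => b13
    | 1, 4 => b14 | 4, 1 => b14 | 2, 3 => b23 | 3, 2 => b23 | 2, 4 => b24 | 4, 2 => b24
    | 3, 4 => b34 | 4, 3 => b34 | _, _ => false

theorem mk5_eq (A : Fin 5 → Fin 5 → Bool) (hs : ∀ i j, A i j = A j i) (hi : ∀ i, A i i = false) :
    A = mk5 (A 0 1) (A 0 2) (A 0 3) (A 0 4) (A 1 2) (A 1 3) (A 1 4) (A 2 3) (A 2 4) (A 3 4) := by
  funext i j
  fin_cases i <;> fin_cases j <;> simp [mk5, hi] <;> exact hs _ _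

def check5 (A : Fin 5 → Fin 5 → Bool) : Bool :=
  (reg A 3 {0, 1, 2, 3} != 0) || (reg A 3 {0, 1, 2, 4} != 0) || (reg A 3 {0, 1, 3, 4} != 0) ||
  (reg A 3 {0, 2, 3, 4} != 0) || (reg A 3 {1, 2, 3, 4} != 0) ||
  (z3 A {0, 1, 2, 3, 4} - z3 (del A 0 1) {0, 1, 2, 3, 4} ==
    3 * (- (reg A 2 {0, 1, 2} * reg A 2 {0, 1, 3} * reg A 2 {0, 1, 4})
      + (reg A 2 {0, 1, 2} * reg A 2 {0, 1, 3, 4} + reg A 2 {0, 1, 3} * reg A 2 {0, 1, 2, 4}
          + reg A 2 {0, 1, 4} * reg A 2 {0, 1, 2, 3})
      + reg (del A 0 1) 2 {0, 2, 3, 4} + reg (del A 0 1) 2 {1, 2, 3, 4} - reg (con A 0 1) 2 {0, 2, 3, 4}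
      + 2 * reg (con A 0 1) 3 {0, 2, 3, 4}))

theorem check5_all : ∀ b02 b03 b04 b12 b13 b14 b23 b24 b34 : Bool,
    check5 (mk5 true b02 b03 b04 b12 b13 b14 b23 b24 b34) = true := by
  decide +kernel

end Pool.Agent.K3h1.Chr
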