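import Pool.Agent.K3h1.Chr.Key2

set_option autoImplicit false
set_option linter.unusedSectionVars false

namespace Pool.Agent.K3h1.Chr

open Finset

variable {V : Type*} [DecidableEq V] [Fintype V]

/-- the opposite pair property -/
def Opp (A : V → V → Bool) : Prop := ∀ a b c d w, isC4 A a b c d = true → w ≠ a → w ≠ b → w ≠ c →
  w ≠ d → (A w a = true ∧ A w c = true) ∨ (A w b = true ∧ A w d = true)

theorem opp_of_Rbad {A : V → V → Bool} (h : Rbad A = 0) : Opp A := by
  intro a b c d w h4 ha hb hc hd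
  unfold Rbad at h
  rw [Finset.sum_eq_zero_iff_of_nonneg
    (fun _ _ => Finset.sum_nonneg fun _ _ => bi_nonneg _)] at h
  have h1 := h (a, b, c, d) (by simp only [T4, Finset.mem_filter, Finset.mem_univ, true_and]; exact h4)
  rw [Finset.sum_eq_zero_iff_of_nonneg (fun _ _ => bi_nonneg _)] at h1
  have h2 := h1 w (by simp [ha, hb, hc, hd])
  unfold bi fbad at h2
  by_contra hcon
  rw [not_or] at hcon
  obtain ⟨q1, q2⟩ := hcon
  rw [if_pos] at h2
  · exact absurd h2 (by norm_num)
  · rw [← Bool.and_eq_true] at q1 q2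
    simp only [Bool.not_eq_true] at q1 q2
    simp only at q1 q2 ⊢
    rw [q1, q2]; rfl

theorem fin3_cases : ∀ i j x : Fin 3, i ≠ j → x ≠ i → x ≠ j → ∀ y : Fin 3, y = i ∨ y = j ∨ y = x := by
  decide

theorem fin3_ex : ∀ i j : Fin 3, i ≠ j → ∃ k : Fin 3, k ≠ i ∧ k ≠ j := by decide

/-- If a bicoloured four-cycle exists, some colour class (with two elements at least) is completely
joined to the rest. -/
theorem exists_full_class {A : V → V → Bool} (hA : Sym A) {c : V → Fin 3} (hc : c ∈ colS A 3)
    (hO : Opp A) (hLS : (LS A c).Nonempty) :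
    ∃ i : Fin 3, (∃ x x' : V, x ≠ x' ∧ c x = i ∧ c x' = i) ∧
      ∀ x y, c x = i → c y ≠ i → A x y = true := by
  have hc' := mem_colS.1 hc
  have same : ∀ a b, c a = c b → A a b = false := by
    intro a b hab
    by_contra h
    have h : A a b = true := by simpa using h
    exact hc' a b h hab
  obtain ⟨⟨⟨x, y, x', y'⟩, w⟩, hs⟩ := hLS
  simp only [LS, Finset.mem_filter, Finset.mem_univ, true_and] at hs
  obtain ⟨h4, hxx, hyy, _, _⟩ := hs
  obtain ⟨g1, g2, g3, g4, g5, g6, g7, g8⟩ := isC4_iff.1 h4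
  have hij := hc' _ _ g1
  set i := c x with hi
  set j := c y with hj
  -- every vertex of class i is adjacent to y and y'
  have hci : ∀ v, c v = i → A v y = true ∧ A v y' = true := by
    intro v hv
    by_cases h1 : v = x
    · subst h1; exact ⟨g1, by rw [hA.symm]; exact g4⟩
    by_cases h2 : v = x'
    · subst h2; exact ⟨by rw [hA.symm]; exact g2, g3⟩
    have h3 : v ≠ y := by rintro rfl; exact hij hv.symm
    have h5 : v ≠ y' := by rintro rfl; exact hij (hv.symm.trans hyy.symm)
    rcases hO _ _ _ _ v h4 h1 h3 h2 h5 with h | h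
    · rw [same v x hv] at h; exact absurd h.1 (by simp)
    · exact h
  have hcj : ∀ v, c v = j → A v x = true ∧ A v x' = true := by
    intro v hv
    by_cases h1 : v = y
    · subst h1; exact ⟨by rw [hA.symm]; exact g1, g2⟩
    by_cases h2 : v = y'
    · subst h2; exact ⟨g4, by rw [hA.symm]; exact g3⟩
    have h3 : v ≠ x := by rintro rfl; exact hij hv
    have h5 : v ≠ x' := by rintro rfl; exact hij (hxx.trans hv)
    rcases hO _ _ _ _ v h4 h3 h1 h5 h2 with h | h
    · exact h
    · rw [same v y hv] at h; exact absurd h.1 (by simp)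
  have comp : ∀ v z, c v = i → c z = j → A v z = true := by
    intro v z hv hz
    by_cases h1 : v = x
    · subst h1; rw [hA.symm]; exact (hcj z hz).1
    by_cases h2 : z = y
    · subst h2; exact (hci v hv).1
    by_cases h3 : z = y'
    · subst h3; exact (hci v hv).2
    have q : isC4 A v y x y' = true := by
      rw [isC4_iff]
      exact ⟨(hci v hv).1, by rw [hA.symm]; exact g1, by rw [hA.symm]; exact g4,
        by rw [hA.symm]; exact (hci v hv).2, same _ _ hv, g6, h1, g8⟩
    have h5 : z ≠ v := by rintro rfl; exact hij (hv.symm.trans hz)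
    have h6 : z ≠ x := by rintro rfl; exact hij hz
    rcases hO _ _ _ _ z q h5 h2 h6 h3 with h | h
    · rw [hA.symm]; exact h.1
    · rw [same z y hz] at h; exact absurd h.1 (by simp)
  obtain ⟨k, hki, hkj⟩ := fin3_ex i j hij
  -- each vertex of the third class is complete to i or complete to j
  have third : ∀ w, c w = k → (∀ v, c v = i → A v w = true) ∨ (∀ v, c v = j → A v w = true) := by
    intro w hw
    by_contra hcon
    rw [not_or] at hcon
    obtain ⟨q1, q2⟩ := hcon
    push Not at q1 q2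
    obtain ⟨a, ha, ha'⟩ := q1
    obtain ⟨b, hb, hb'⟩ := q2
    obtain ⟨a2, ha2, hne⟩ : ∃ a2, c a2 = i ∧ a ≠ a2 := by
      by_cases h : a = x
      · exact ⟨x', hxx.symm, by rw [h]; exact g7⟩
      · exact ⟨x, rfl, h⟩
    obtain ⟨b2, hb2, hneb⟩ : ∃ b2, c b2 = j ∧ b ≠ b2 := by
      by_cases h : b = y
      · exact ⟨y', hyy.symm, by rw [h]; exact g8⟩
      · exact ⟨y, rfl, h⟩
    have q : isC4 A a b a2 b2 = true := by
      rw [isC4_iff]
      exact ⟨comp _ _ ha hb, by rw [hA.symm]; exact comp _ _ ha2 hb, comp _ _ ha2 hb2,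
        by rw [hA.symm]; exact comp _ _ ha hb2, same _ _ (ha.trans ha2.symm),
        same _ _ (hb.trans hb2.symm), hne, hneb⟩
    have n1 : w ≠ a := by rintro rfl; exact hki (hw.symm.trans ha)
    have n2 : w ≠ b := by rintro rfl; exact hkj (hw.symm.trans hb)
    have n3 : w ≠ a2 := by rintro rfl; exact hki (hw.symm.trans ha2)
    have n4 : w ≠ b2 := by rintro rfl; exact hkj (hw.symm.trans hb2)
    rcases hO _ _ _ _ w q n1 n2 n3 n4 with h | h
    · rw [hA.symm] at h; exact ha' h.1
    · rw [hA.symm] at h; exact hb' h.1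
  by_cases H1 : ∀ w, c w = k → ∀ v, c v = i → A v w = true
  · refine ⟨i, ⟨x, x', g7, rfl, hxx.symm⟩, ?_⟩
    intro a b ha hb
    rcases fin3_cases i j k hij hki hkj (c b) with h | h | h
    · exact absurd h hb
    · exact comp a b ha h
    · exact H1 b h a ha
  by_cases H2 : ∀ w, c w = k → ∀ v, c v = j → A v w = true
  · refine ⟨j, ⟨y, y', g8, rfl, hyy.symm⟩, ?_⟩
    intro a b ha hb
    rcases fin3_cases i j k hij hki hkj (c b) with h | h | h
    · rw [hA.symm]; exact comp b a h ha
    · exact absurd h hb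
    · exact H2 b h a ha
  exfalso
  push Not at H1 H2
  obtain ⟨w1, hw1, a, ha, haw⟩ := H1
  obtain ⟨w2, hw2, b, hb, hbw⟩ := H2
  have hw2i : ∀ v, c v = i → A v w2 = true := by
    rcases third w2 hw2 with h | h
    · exact h
    · exact absurd (h b hb) hbw
  have hne12 : w2 ≠ w1 := by
    rintro rfl
    exact haw (hw2i a ha)
  obtain ⟨a2, ha2, hne⟩ : ∃ a2, c a2 = i ∧ a ≠ a2 := by
    by_cases h : a = x
    · exact ⟨x', hxx.symm, by rw [h]; exact g7⟩
    · exact ⟨x, rfl, h⟩
  have q : isC4 A a b a2 w2 = true := by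
    rw [isC4_iff]
    refine ⟨comp _ _ ha hb, by rw [hA.symm]; exact comp _ _ ha2 hb, hw2i _ ha2,
      by rw [hA.symm]; exact hw2i _ ha, same _ _ (ha.trans ha2.symm), by simpa using hbw, hne, ?_⟩
    rintro rfl; exact hkj (hw2.symm.trans hb)
  have n1 : w1 ≠ a := by rintro rfl; exact hki (hw1.symm.trans ha)
  have n2 : w1 ≠ b := by rintro rfl; exact hkj (hw1.symm.trans hb)
  have n3 : w1 ≠ a2 := by rintro rfl; exact hki (hw1.symm.trans ha2)
  rcases hO _ _ _ _ w1 q n1 n2 n3 hne12.symm with h | h
  · rw [hA.symm] at h; exact haw h.1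
  · rw [same w1 w2 (hw1.trans hw2.symm)] at h; exact absurd h.2 (by simp)

/-! ### counting with a full class -/

theorem T2_full {A : V → V → Bool} (hA : Sym A) {c : V → Fin 3} (hc : c ∈ colS A 3) {i : Fin 3}
    (hfull : ∀ x y, c x = i → c y ≠ i → A x y = true) :
    (T2 A).card = 2 * (((univ : Finset V).filter fun v => c v = i).card * nk c i)
      + (Ek A c i).card := by
  have hc' := mem_colS.1 hc
  set C := (univ : Finset V).filter fun v => c v = i with hC
  set R := (univ : Finset V).filter fun v => c v ≠ i with hR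
  have h : T2 A = (C ×ˢ R ∪ R ×ˢ C) ∪ Ek A c i := by
    ext ⟨a, b⟩
    simp only [T2, Ek, hC, hR, Finset.mem_filter, Finset.mem_univ, true_and, Finset.mem_union,
      Finset.mem_product]
    constructor
    · intro hab
      have := hc' a b hab
      by_cases h1 : c a = i
      · left; left; exact ⟨h1, by rw [← h1]; exact this.symm⟩
      · by_cases h2 : c b = i
        · left; right; exact ⟨h1, h2⟩
        · right; exact ⟨hab, h1, h2⟩
    · rintro ((h | h) | h)
      · exact hfull a b h.1 h.2
      · rw [hA.symm]; exact hfull b a h.2 h.1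
      · exact h.1
  have d1 : Disjoint (C ×ˢ R) (R ×ˢ C) := by
    rw [Finset.disjoint_left]
    rintro ⟨a, b⟩ h1 h2
    simp only [hC, hR, Finset.mem_product, Finset.mem_filter, Finset.mem_univ, true_and] at h1 h2
    exact h2.1 h1.1
  have d2 : Disjoint (C ×ˢ R ∪ R ×ˢ C) (Ek A c i) := by
    rw [Finset.disjoint_left]
    rintro ⟨a, b⟩ h1 h2
    simp only [Ek, hC, hR, Finset.mem_product, Finset.mem_filter, Finset.mem_univ, true_and,
      Finset.mem_union] at h1 h2
    rcases h1 with h1 | h1
    · exact h2.2.1 h1.1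
    · exact h2.2.2 h1.2
  have hnk : nk c i = R.card := rfl
  rw [h, Finset.card_union_of_disjoint d2, Finset.card_union_of_disjoint d1, Finset.card_product,
    Finset.card_product, hnk]
  ring

theorem T3_full {A : V → V → Bool} (hA : Sym A) {c : V → Fin 3} (hc : c ∈ colS A 3) {i : Fin 3}
    (hfull : ∀ x y, c x = i → c y ≠ i → A x y = true) :
    ((T3 A).card : ℤ) = 3 * (((univ : Finset V).filter fun v => c v = i).card * (Ek A c i).card) := by
  have hc' := mem_colS.1 hc
  have h := sum_T3_color hA hc (fun l => if l = i then 1 else 0)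
  have h2 : ∑ l : Fin 3, (if l = i then (1 : ℤ) else 0) = 1 := by simp
  rw [h2, mul_one] at h
  rw [← h]
  congr 1
  rw [← Finset.sum_filter]
  simp only [Finset.sum_const, nsmul_eq_mul, mul_one]
  have : ((T3 A).filter fun p => c p.2.2 = i).card
      = (((univ : Finset V).filter fun v => c v = i) ×ˢ (Ek A c i)).card := by
    refine Finset.card_bij' (fun p _ => (p.2.2, (p.1, p.2.1))) (fun q _ => (q.2.1, q.2.2, q.1))
      ?_ ?_ ?_ ?_
    · rintro ⟨a, b, w⟩ hp
      simp only [T3, Ek, Finset.mem_filter, Finset.mem_univ, true_and, Finset.mem_product] at hp ⊢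
      obtain ⟨⟨h1, h2, h3⟩, h4⟩ := hp
      exact ⟨h4, h1, by rw [← h4]; exact hc' _ _ h3, by rw [← h4]; exact hc' _ _ h2⟩
    · rintro ⟨w, a, b⟩ hp
      simp only [T3, Ek, Finset.mem_filter, Finset.mem_univ, true_and, Finset.mem_product] at hp ⊢
      obtain ⟨h4, h1, h2, h3⟩ := hp
      exact ⟨⟨h1, by rw [hA.symm]; exact hfull _ _ h4 h3, by rw [hA.symm]; exact hfull _ _ h4 h2⟩, h4⟩
    · rintro ⟨a, b, w⟩ _; rfl
    · rintro ⟨w, a, b⟩ _; rfl
  rw [this, Finset.card_product]
  push_cast; ring

theorem card_class_add (c : V → Fin 3) (i : Fin 3) :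
    ((univ : Finset V).filter fun v => c v = i).card + nk c i = Fintype.card V := by
  unfold nk
  rw [Finset.card_filter_add_card_filter_not, Finset.card_univ]

/-- numerics: a full class plus `e - t = N - 1` gives a tree -/
theorem tree_of_full {A : V → V → Bool} (hA : Sym A) {c : V → Fin 3} (hc : c ∈ colS A 3)
    (hconn : ∀ k, (Gk A hA c k).Connected) {i : Fin 3}
    (h2 : ∃ x x' : V, x ≠ x' ∧ c x = i ∧ c x' = i)
    (hfull : ∀ x y, c x = i → c y ≠ i → A x y = true)
    (hnum : 3 * ((T2 A).card : ℤ) - (T3 A).card = 6 * ((Fintype.card V : ℤ) - 1)) :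
    (Gk A hA c i).IsTree ∧
      (((univ : Finset V).filter fun v => c v = i).card : ℤ) * (nk c i - 1) * 6 = (T3 A).card := by
  have e2 := T2_full hA hc hfull
  have e3 := T3_full hA hc hfull
  have e4 := card_class_add c i
  set s := ((univ : Finset V).filter fun v => c v = i).card with hs
  have hs2 : 2 ≤ s := by
    obtain ⟨x, x', hne, hx, hx'⟩ := h2
    rw [hs]
    have : ({x, x'} : Finset V) ⊆ (univ : Finset V).filter fun v => c v = i := by
      intro v hv
      rw [Finset.mem_insert, Finset.mem_singleton] at hv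
      rcases hv with rfl | rfl <;> simp [hx, hx']
    have := Finset.card_le_card this
    rwa [Finset.card_pair hne] at this
  have e2' : ((T2 A).card : ℤ) = 2 * (s * nk c i) + (Ek A c i).card := by exact_mod_cast e2
  have e4' : (s : ℤ) + nk c i = Fintype.card V := by exact_mod_cast e4
  rw [e2', e3, ← e4'] at hnum
  have key : ((s : ℤ) - 1) * ((Ek A c i).card - 2 * (nk c i - 1)) = 0 := by linarith
  have hs1 : (s : ℤ) - 1 ≠ 0 := by
    have : (2 : ℤ) ≤ s := by exact_mod_cast hs2
    linarith
  have key2 : ((Ek A c i).card : ℤ) = 2 * (nk c i - 1) := by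
    rcases mul_eq_zero.1 key with h | h
    · exact absurd h hs1
    · linarith
  refine ⟨?_, ?_⟩
  · rw [SimpleGraph.isTree_iff_connected_and_card]
    refine ⟨hconn i, ?_⟩
    rw [card_Vk]
    have := card_Gk_edges hA c i
    have h3 : (2 : ℤ) * Nat.card (Gk A hA c i).edgeSet = (Ek A c i).card := by exact_mod_cast this
    rw [key2] at h3
    have h5 : ((Nat.card (Gk A hA c i).edgeSet : ℤ) + 1) = nk c i := by linarith
    exact_mod_cast h5
  · rw [e3, key2]; ring

end Pool.Agent.K3h1.Chr
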