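import Pool.Agent.K3h1.Chr.Key

set_option autoImplicit false
set_option linter.unusedSectionVars false

namespace Pool.Agent.K3h1.Chr

open Finset

variable {V : Type*} [DecidableEq V] [Fintype V]

def gr (A : V → V → Bool) (hA : Sym A) : SimpleGraph V where
  Adj a b := A a b = true
  symm := ⟨fun a b h => by rw [hA.symm]; exact h⟩
  loopless := ⟨fun a h => by rw [hA.irr] at h; exact absurd h (by simp)⟩

/-- the bicoloured subgraph avoiding the colour `k` -/
def Gk (A : V → V → Bool) (hA : Sym A) (c : V → Fin 3) (k : Fin 3) :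
    SimpleGraph {v : V // c v ≠ k} where
  Adj a b := A a.1 b.1 = true
  symm := ⟨fun a b h => by rw [hA.symm]; exact h⟩
  loopless := ⟨fun a h => by rw [hA.irr] at h; exact absurd h (by simp)⟩

theorem perm_fact1 : ∀ k x : Fin 3, x ≠ k → Equiv.swap (k + 1) (k + 2) x ≠ x ∧
    Equiv.swap (k + 1) (k + 2) x ≠ k := by decide

theorem perm_fact2 : ∀ k : Fin 3, Equiv.swap (k + 1) (k + 2) k = k := by decide

theorem fin3_third : ∀ k x y z : Fin 3, y ≠ k → x ≠ k → x ≠ y → z ≠ x → z = k ∨ z = y := by decide

theorem fin3_two : ∀ k : Fin 3, ∃ f : Fin 3 → Fin 2, ∀ x y, x ≠ k → y ≠ k → x ≠ y → f x ≠ f y := by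
  decide

theorem fin3_succ_ne : ∀ k : Fin 3, k + 1 ≠ k := by decide

theorem surj_of_no_two {A : V → V → Bool} (h2 : NN A 2 = 0) {c : V → Fin 3} (hc : c ∈ colS A 3) :
    Function.Surjective c := by
  intro k
  by_contra hk
  push Not at hk
  obtain ⟨f, hf⟩ := fin3_two k
  have : (fun v => f (c v)) ∈ colS A 2 := by
    rw [mem_colS] at hc ⊢
    intro a b hab
    exact hf _ _ (hk a) (hk b) (hc a b hab)
  have h0 : (colS A 2).card = 0 := h2
  rw [Finset.card_eq_zero] at h0
  rw [h0] at this
  exact absurd this (Finset.notMem_empty _)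

theorem all_perm {A : V → V → Bool} (h3 : NN A 3 = 6) {c : V → Fin 3} (hc : c ∈ colS A 3)
    (hs : Function.Surjective c) {c' : V → Fin 3} (hc' : c' ∈ colS A 3) :
    ∃ σ : Equiv.Perm (Fin 3), c' = fun v => σ (c v) := by
  have hsub : (univ : Finset (Equiv.Perm (Fin 3))).image (fun σ => fun v => σ (c v)) ⊆ colS A 3 := by
    intro d hd
    obtain ⟨σ, _, rfl⟩ := Finset.mem_image.1 hd
    rw [mem_colS] at hc ⊢
    intro a b hab
    exact fun h => hc a b hab (σ.injective h)
  have hcard : ((univ : Finset (Equiv.Perm (Fin 3))).image (fun σ => fun v => σ (c v))).card = 6 := by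
    rw [Finset.card_image_of_injective]
    · rw [Finset.card_univ, Fintype.card_perm, Fintype.card_fin]; rfl
    · intro σ τ h
      ext x
      obtain ⟨v, rfl⟩ := hs x
      have := congrFun h v
      simp only at this
      rw [this]
  have heq := Finset.eq_of_subset_of_card_le hsub (by rw [hcard]; exact h3.le)
  rw [← heq] at hc'
  obtain ⟨σ, _, h⟩ := Finset.mem_image.1 hc'
  exact ⟨σ, h.symm⟩

theorem Gk_connected {A : V → V → Bool} (hA : Sym A) (h2 : NN A 2 = 0) (h3 : NN A 3 = 6)
    {c : V → Fin 3} (hc : c ∈ colS A 3) (k : Fin 3) : (Gk A hA c k).Connected := by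
  classical
  have hs := surj_of_no_two h2 hc
  have hne : Nonempty {v : V // c v ≠ k} := by
    obtain ⟨v, hv⟩ := hs (k + 1)
    refine ⟨⟨v, ?_⟩⟩
    rw [hv]
    exact fin3_succ_ne k
  refine (SimpleGraph.connected_iff _).2 ⟨?_, hne⟩
  intro a b
  by_contra hab
  -- swap colours on the component of a
  set K : V → Prop := fun v => ∃ h : c v ≠ k, (Gk A hA c k).Reachable a ⟨v, h⟩ with hK
  set c' : V → Fin 3 := fun v => if K v then Equiv.swap (k + 1) (k + 2) (c v) else c v with hc'
  have hc'mem : c' ∈ colS A 3 := by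
    rw [mem_colS] at hc ⊢
    intro x y hxy
    have hcxy := hc x y hxy
    by_cases hx : K x
    · by_cases hy : K y
      · simp only [hc', if_pos hx, if_pos hy]
        exact fun h => hcxy ((Equiv.swap _ _).injective h)
      · simp only [hc', if_pos hx, if_neg hy]
        obtain ⟨hx1, hx2⟩ := hx
        have hyk : c y = k := by
          by_contra hyk
          apply hy
          exact ⟨hyk, hx2.trans (SimpleGraph.Adj.reachable hxy)⟩
        rw [hyk]
        exact (perm_fact1 k _ hx1).2
    · by_cases hy : K y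
      · simp only [hc', if_neg hx, if_pos hy]
        obtain ⟨hy1, hy2⟩ := hy
        have hxk : c x = k := by
          by_contra hxk
          apply hx
          exact ⟨hxk, hy2.trans (SimpleGraph.Adj.reachable (show A y x = true by
            rw [hA.symm]; exact hxy))⟩
        rw [hxk]
        exact (perm_fact1 k _ hy1).2.symm
      · simp only [hc', if_neg hx, if_neg hy]
        exact hcxy
  obtain ⟨σ, hσ⟩ := all_perm h3 hc hs hc'mem
  have ha : K a.1 := ⟨a.2, SimpleGraph.Reachable.refl _⟩
  have hb : ¬ K b.1 := fun ⟨_, h⟩ => hab h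
  have e1 : σ (c a.1) = Equiv.swap (k + 1) (k + 2) (c a.1) := by
    have := congrFun hσ a.1
    simp only [hc', if_pos ha] at this
    exact this.symm
  have e2 : σ (c b.1) = c b.1 := by
    have := congrFun hσ b.1
    simp only [hc', if_neg hb] at this
    exact this.symm
  obtain ⟨z, hz⟩ := hs k
  have e3 : σ k = k := by
    have := congrFun hσ z
    have hzK : ¬ K z := fun ⟨h, _⟩ => h hz
    simp only [hc', if_neg hzK, hz] at this
    exact this.symm
  have f1 := perm_fact1 k _ a.2
  rw [← e1] at f1
  have hab' : c a.1 ≠ c b.1 := by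
    intro h
    rw [h, e2] at f1
    exact f1.1 rfl
  rcases fin3_third k (c a.1) (c b.1) (σ (c a.1)) b.2 a.2 hab' f1.1 with h | h
  · exact f1.2 h
  · rw [← e2] at h
    exact hab' (σ.injective h)

end Pool.Agent.K3h1.Chr
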